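import Mathlib
import Pool.Agent.RVP.Defs
import Pool.Agent.RVS.Defs
import Pool.Agent.D8W.Defs

/-!
# D8: the modular part of the discriminant -8 instance (MP_870c49)

Architecture: note of helper39 (12-03 23:20).  A lattice is given by a basis `w = (w1, w2)`, `Good w` if
`Im (w1 conj w2) > 0`; `pt w (m,n) = m w1 + n w2`; `0⁻¹ = 0` everywhere.  Two lattices are used:
`(t, 1)` (`t` in the upper half plane) and `wp Y = (r1 + i Y r2, 1 + i Y)`, which is `(1 + iY) (tY Y, 1)`, where `tY Y` runs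
through the arc `|t - 1/2|² = 1/12`.
Goal: `-∫_{-1/3}^{1/3} l Psi(x + i y0) dx = (27/(4π⁵)) Y0³ Re D2 (wp Y0)`, `Y0 = (√6 - √2)/2`.
-/

set_option autoImplicit false

open scoped ComplexConjugate

namespace D8

open RVP (sg t3)

noncomputable section

/-- pairs of lattice points -/
abbrev V4 := (ℤ × ℤ) × (ℤ × ℤ)

/-- the weight `c` of the double sum -/
def cw (a b : ℤ) : ℝ := sg a - 2 * sg a * t3 (a + b) - sg b * t3 b + sg (a + b) * t3 (a - b)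

/-- the weight of the single sum -/
def sw (m : ℤ) : ℝ := 1 / 2 - 3 * t3 m + 3 / 2 * sg m + 1 / 2 * (sg m * t3 m)

/-- the weight `ψ₁ = [2∣m] - 2 [3∣m] + [6∣m]` -/
def ps (m : ℤ) : ℝ := (1 + sg m) * (1 + t3 m) / 2 - 2 * t3 m

/-- the weight `φ` -/
def ph (m : ℤ) : ℝ := -(sg m * (1 - 3 * t3 m))

/-- admissible bases -/
def Good (w : ℂ × ℂ) : Prop := 0 < (w.1 * conj w.2).im

/-- the lattice point `m w1 + n w2` -/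
def pt (w : ℂ × ℂ) (v : ℤ × ℤ) : ℂ := v.1 * w.1 + v.2 * w.2

/-- `1 / p` (`0` at the origin) -/
def iv (w : ℂ × ℂ) (v : ℤ × ℤ) : ℂ := (pt w v)⁻¹

/-- `1 / conj p` (`0` at the origin) -/
def ic (w : ℂ × ℂ) (v : ℤ × ℤ) : ℂ := (conj (pt w v))⁻¹

/-- the row sums `X_ab(m) = Σ_n p^{-a} (conj p)^{-b}` -/
def X (w : ℂ × ℂ) (a b : ℕ) (m : ℤ) : ℂ := ∑' n : ℤ, iv w (m, n) ^ a * ic w (m, n) ^ b

/-- `W_ab = Σ_m ψ₁(m) X_ab(m)` -/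
def W (w : ℂ × ℂ) (a b : ℕ) : ℂ := ∑' m : ℤ, (ps m : ℂ) * X w a b m

/-- `e_2 = Σ_m φ(m) X_20(m)` -/
def e2 (w : ℂ × ℂ) : ℂ := ∑' m : ℤ, (ph m : ℂ) * X w 2 0 m

/-- symmetric partial sums of `G = Σ_m φ(m) X_11(m)` -/
def Gs (w : ℂ × ℂ) (N : ℕ) : ℂ := ∑ m ∈ Finset.Icc (-(N : ℤ)) N, (ph m : ℂ) * X w 1 1 m

/-- `K = 1 / (p² r² p̄ q̄)`, `r = p + q` -/
def KK (w : ℂ × ℂ) (x : V4) : ℂ := iv w x.1 ^ 2 * ic w x.1 * (iv w (x.1 + x.2) ^ 2 * ic w x.2)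

/-- `1 / (p⁴ p̄²)` -/
def K1 (w : ℂ × ℂ) (v : ℤ × ℤ) : ℂ := iv w v ^ 4 * ic w v ^ 2

/-- the double sum -/
def D2 (w : ℂ × ℂ) : ℂ :=
  ∑' x : V4, (cw x.1.1 x.2.1 : ℂ) * KK w x + ∑' v : ℤ × ℤ, (sw v.1 : ℂ) * K1 w v

/-- `1` if `v ≠ 0`, else `0` -/
def nz (v : ℤ × ℤ) : ℂ := if v = 0 then 0 else 1

/-- the part of type (5,1) of `(2/Y²) d/dY (Y³ K)` -/
def E51 (w : ℂ × ℂ) (x : V4) : ℂ :=
  2 * (iv w x.1 ^ 3 * iv w (x.1 + x.2) ^ 2 * ic w x.2)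
    + 2 * (iv w x.1 ^ 2 * iv w (x.1 + x.2) ^ 3 * ic w x.2)
    + 2 * (iv w x.1 ^ 2 * iv w (x.1 + x.2) ^ 3 * ic w x.1 * nz x.2)

/-- the part of type (3,3) of `(2/Y²) d/dY (Y³ K)` -/
def E33 (w : ℂ × ℂ) (x : V4) : ℂ :=
  iv w x.1 * iv w (x.1 + x.2) ^ 2 * ic w x.1 ^ 2 * ic w x.2
    + pt w x.2 * iv w x.1 ^ 2 * iv w (x.1 + x.2) ^ 2 * ic w x.1 * ic w x.2 ^ 2

/-- the (5,1) sum -/
def S51 (w : ℂ × ℂ) : ℂ :=
  ∑' x : V4, (cw x.1.1 x.2.1 : ℂ) * E51 w x +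
    ∑' v : ℤ × ℤ, (sw v.1 : ℂ) * (4 * (iv w v ^ 5 * ic w v))

/-- the (3,3) sum -/
def S33 (w : ℂ × ℂ) : ℂ :=
  ∑' x : V4, (cw x.1.1 x.2.1 : ℂ) * E33 w x +
    ∑' v : ℤ × ℤ, (sw v.1 : ℂ) * (2 * (iv w v ^ 3 * ic w v ^ 3))

/-- the product part of the block `(i,j)` of `E51` -/
def P51 (w : ℂ × ℂ) (u : ℤ × ℤ) : ℂ :=
  2 * X w 2 1 u.2 * (X w 3 0 u.1 + X w 3 0 (u.1 + u.2))
    - 2 * X w 3 1 u.2 * (X w 2 0 u.1 - X w 2 0 (u.1 + u.2))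
    + 2 * X w 2 1 u.1 * X w 3 0 (u.1 + u.2)

/-- the contact part of the block `(i,j)` of `E51` -/
def C51 (w : ℂ × ℂ) (u : ℤ × ℤ) : ℂ :=
  -(if u.1 = 0 then 4 * X w 5 1 u.2 else 0) + (if u.1 + u.2 = 0 then 4 * X w 5 1 u.1 else 0)
    - (if u.2 = 0 then 2 * X w 5 1 u.1 else 0)

/-- the product part of the block `(i,j)` of the real part of `E33` -/
def P33 (w : ℂ × ℂ) (u : ℤ × ℤ) : ℂ :=
  X w 2 1 u.1 * X w 1 2 u.2 + X w 2 1 u.1 * X w 1 2 (u.1 + u.2) + X w 2 1 u.2 * X w 1 2 (u.1 + u.2)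
    + X w 2 2 u.2 * (X w 1 1 (u.1 + u.2) - X w 1 1 u.1)

/-- the contact part of the block `(i,j)` of `E33` -/
def C33 (w : ℂ × ℂ) (u : ℤ × ℤ) : ℂ :=
  -(if u.1 = 0 then 2 * X w 3 3 u.2 else 0) + (if u.1 + u.2 = 0 then 2 * X w 3 3 u.1 else 0)
    - (if u.2 = 0 then X w 3 3 u.1 else 0)

/-! ### the arc -/

/-- the end points of the geodesic `|t - 1/2|² = 1/12` -/
def r1 : ℝ := (3 - Real.sqrt 3) / 6
/-- the end points of the geodesic `|t - 1/2|² = 1/12` -/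
def r2 : ℝ := (3 + Real.sqrt 3) / 6

/-- the lattice basis `(r1 + i Y r2, 1 + i Y)` -/
def wp (Y : ℝ) : ℂ × ℂ := (r1 + Y * r2 * Complex.I, 1 + Y * Complex.I)

/-- the point of the arc -/
def tY (Y : ℝ) : ℂ := (wp Y).1 / (wp Y).2

/-- the parameter of the CM point -/
def Y0 : ℝ := (Real.sqrt 6 - Real.sqrt 2) / 2

/-- the CM point `(2 + √-2)/6` -/
def t0 : ℂ := D8W.pt (1 / 3) D8W.y0

/-- the weight `ψ` of `Psi` -/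
def pf (m : ℤ) : ℝ := 1 + 2 * (1 + sg m) - 9 * t3 m - 18 * ((1 + sg m) * t3 m)

/-- the primitive of `Psi` -/
def Gq (t : ℂ) : ℂ :=
  -t / 2 + 3 / (2 * Real.pi * Complex.I) *
    ∑' x : ℕ × ℕ, ((pf (x.1 + 1) : ℂ) * (x.2 + 1) ^ 2 / (x.1 + 1)) *
      RV15W.qq t ^ ((x.1 + 1) * (x.2 + 1))

/-! ### the canonical kernel -/

/-- `t⁻² t̄⁻¹` -/
def EE (w : ℂ × ℂ) (v : ℤ × ℤ) : ℂ := iv w v ^ 2 * ic w v

/-- the component `2 k2 - k1` of the canonical kernel -/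
def K13 (w : ℂ × ℂ) (x : V4) : ℂ :=
  2 * RVS.k2 (pt w x.1) (pt w x.2) - RVS.k1 (pt w x.1) (pt w x.2)

/-- the products of type `E21 E21`, without degenerate terms -/
def KE (w : ℂ × ℂ) (x : V4) : ℂ :=
  nz x.2 * (EE w x.1 * EE w (x.1 + x.2)) + nz x.1 * (EE w x.2 * EE w (x.1 + x.2))
    + nz (x.1 + x.2) * (EE w x.1 * EE w x.2)

/-- the last term -/
def KJ (w : ℂ × ℂ) (x : V4) : ℂ :=
  iv w x.2 ^ 3 * ic w x.2 * (iv w x.1 * ic w x.1 - iv w (x.1 + x.2) * ic w (x.1 + x.2))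

end

end D8
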