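import Mathlib
import Pool.Agent.D8.Defs

/-!
# D8/Bas: lattice points, norms, absolute convergence, parity of the row sums (general lattice)

PORT of RVP/Bas (there `pt y v` is the special lattice `w = (-1/2 + iy, 1)`).  For `Good w`: `w.2 ≠ 0`, `t = w.1/w.2` has
positive imaginary part (`Im (w1 conj w2) = |w2|² Im t`), `pt w v = w.2 (v.1 t + v.2)`; Mathlib's Eisenstein bounds for `t`
(see RVP/Bas) give the summability.  `|pt w v| ≥ c > 0` for `v ≠ 0`.
-/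

set_option autoImplicit false

open scoped ComplexConjugate
open Filter Topology

namespace D8

variable {w : ℂ × ℂ}

theorem Good.snd_ne (hw : Good w) : w.2 ≠ 0 := by
  intro h
  unfold Good at hw
  rw [h] at hw
  simp at hw

theorem Good.im_pos (hw : Good w) : 0 < (w.1 / w.2).im := by
  have h2 := hw.snd_ne
  have h3 : 0 < Complex.normSq w.2 := Complex.normSq_pos.mpr h2
  have h4 : w.1 / w.2 = w.1 * conj w.2 * ((Complex.normSq w.2)⁻¹ : ℝ) := by
    rw [div_eq_mul_inv, Complex.inv_def, mul_assoc]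
  rw [h4, Complex.im_mul_ofReal]
  exact mul_pos hw (inv_pos.mpr h3)

theorem good_one {t : ℂ} (ht : 0 < t.im) : Good (t, 1) := by
  simpa [Good] using ht

theorem good_smul {w : ℂ × ℂ} (hw : Good w) {c : ℂ} (hc : c ≠ 0) : Good (c * w.1, c * w.2) := by
  have h3 : 0 < Complex.normSq c := Complex.normSq_pos.mpr hc
  have h4 : c * w.1 * conj (c * w.2) = (Complex.normSq c : ℝ) * (w.1 * conj w.2) := by
    rw [map_mul, Complex.normSq_eq_conj_mul_self]
    ring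
  show 0 < (c * w.1 * conj (c * w.2)).im
  rw [h4, Complex.im_ofReal_mul]
  exact mul_pos h3 hw

theorem pt_smul (c : ℂ) (w : ℂ × ℂ) (v : ℤ × ℤ) : pt (c * w.1, c * w.2) v = c * pt w v := by
  simp only [pt]
  ring

theorem pt_add (w : ℂ × ℂ) (v u : ℤ × ℤ) : pt w (v + u) = pt w v + pt w u := by
  simp only [pt, Prod.fst_add, Prod.snd_add, Int.cast_add]
  ring

theorem pt_neg (w : ℂ × ℂ) (v : ℤ × ℤ) : pt w (-v) = -pt w v := by
  simp only [pt, Prod.fst_neg, Prod.snd_neg, Int.cast_neg]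
  ring

theorem conj_iv (w : ℂ × ℂ) (v : ℤ × ℤ) : conj (iv w v) = ic w v := by
  simp [iv, ic]

theorem conj_ic (w : ℂ × ℂ) (v : ℤ × ℤ) : conj (ic w v) = iv w v := by
  simp [iv, ic]

theorem iv_neg (w : ℂ × ℂ) (v : ℤ × ℤ) : iv w (-v) = -iv w v := by
  simp [iv, pt_neg, inv_neg]

theorem ic_neg (w : ℂ × ℂ) (v : ℤ × ℤ) : ic w (-v) = -ic w v := by
  simp [ic, pt_neg, inv_neg]

theorem norm_ic (w : ℂ × ℂ) (v : ℤ × ℤ) : ‖ic w v‖ = ‖iv w v‖ := by
  simp [iv, ic]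

private theorem bas_pt_zero (w : ℂ × ℂ) : pt w 0 = 0 := by
  simp [pt]

theorem iv_zero (w : ℂ × ℂ) : iv w 0 = 0 := by
  simp [iv, bas_pt_zero]

theorem ic_zero (w : ℂ × ℂ) : ic w 0 = 0 := by
  simp [ic, bas_pt_zero]

private theorem bas_pt_eq (hw : Good w) (v : ℤ × ℤ) :
    pt w v = w.2 * ((v.1 : ℂ) * (w.1 / w.2) + (v.2 : ℂ)) := by
  have h := hw.snd_ne
  simp only [pt]
  field_simp

theorem pt_eq_zero (hw : Good w) {v : ℤ × ℤ} : pt w v = 0 ↔ v = 0 := by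
  constructor
  · intro h
    rw [bas_pt_eq hw, mul_eq_zero] at h
    have h0 := h.resolve_left hw.snd_ne
    rw [← Complex.ofReal_intCast, ← Complex.ofReal_intCast] at h0
    have h2 := congrArg Complex.im h0
    have h1 := congrArg Complex.re h0
    rw [Complex.add_im, Complex.im_ofReal_mul, Complex.ofReal_im, add_zero,
      Complex.zero_im] at h2
    rw [Complex.add_re, Complex.re_ofReal_mul, Complex.ofReal_re,
      Complex.zero_re] at h1
    have h3 : (v.1 : ℝ) = 0 := by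
      rcases mul_eq_zero.mp h2 with h | h
      · exact h
      · exact absurd h hw.im_pos.ne'
    rw [h3, zero_mul, zero_add] at h1
    ext
    · exact_mod_cast h3
    · exact_mod_cast h1
  · rintro rfl
    exact bas_pt_zero w

theorem pt_mul_iv (hw : Good w) (v : ℤ × ℤ) : pt w v * iv w v = nz v := by
  unfold nz iv
  split_ifs with h
  · rw [(pt_eq_zero hw).mpr h]; simp
  · exact mul_inv_cancel₀ (fun h' => h ((pt_eq_zero hw).mp h'))

private theorem bas_summable_iv3 (hw : Good w) : Summable fun v : ℤ × ℤ => ‖iv w v‖ ^ 3 := by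
  have h1 := EisensteinSeries.summable_one_div_norm_rpow (k := 3) (by norm_num)
  have h2 : Summable fun v : ℤ × ℤ => ‖((finTwoArrowEquiv ℤ).symm v)‖ ^ (-(3 : ℝ)) :=
    ((finTwoArrowEquiv ℤ).symm.summable_iff (f := fun x : Fin 2 → ℤ => ‖x‖ ^ (-(3 : ℝ)))).mpr h1
  let z : UpperHalfPlane := ⟨w.1 / w.2, hw.im_pos⟩
  refine Summable.of_nonneg_of_le (fun v => by positivity) (fun v => ?_)
    ((h2.mul_left (EisensteinSeries.r z ^ (-(3 : ℝ)))).mul_left (‖w.2‖⁻¹ ^ 3))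
  have h3 := EisensteinSeries.summand_bound z (k := 3) (by norm_num) ((finTwoArrowEquiv ℤ).symm v)
  have h5 : ‖iv w v‖ ^ 3 = ‖w.2‖⁻¹ ^ 3 *
      ‖((((finTwoArrowEquiv ℤ).symm v) 0 : ℤ) : ℂ) * (z : ℂ) +
      ((((finTwoArrowEquiv ℤ).symm v) 1 : ℤ) : ℂ)‖ ^ (-(3 : ℝ)) := by
    have h4 : ((((finTwoArrowEquiv ℤ).symm v) 0 : ℤ) : ℂ) * (z : ℂ) +
        ((((finTwoArrowEquiv ℤ).symm v) 1 : ℤ) : ℂ) = (v.1 : ℂ) * (w.1 / w.2) + (v.2 : ℂ) := rfl
    rw [h4, Real.rpow_neg (norm_nonneg _)]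
    rw [show (3 : ℝ) = ((3 : ℕ) : ℝ) by norm_num, Real.rpow_natCast]
    rw [iv, bas_pt_eq hw, norm_inv, norm_mul, mul_inv, mul_pow, inv_pow, inv_pow]
  rw [h5]
  exact mul_le_mul_of_nonneg_left h3 (by positivity)

theorem norm_iv_le' (hw : Good w) : ∃ C : ℝ, 0 < C ∧ ∀ v : ℤ × ℤ, ‖iv w v‖ ≤ C := by
  have h := bas_summable_iv3 hw
  refine ⟨(∑' v : ℤ × ℤ, ‖iv w v‖ ^ 3) + 1, ?_, fun v => ?_⟩
  · have : 0 ≤ ∑' v : ℤ × ℤ, ‖iv w v‖ ^ 3 := tsum_nonneg fun v => by positivity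
    linarith
  · have h1 : ‖iv w v‖ ^ 3 ≤ ∑' v : ℤ × ℤ, ‖iv w v‖ ^ 3 :=
      h.le_tsum v fun u _ => by positivity
    have h0 := norm_nonneg (iv w v)
    by_cases h2 : ‖iv w v‖ ≤ 1
    · have : 0 ≤ ∑' v : ℤ × ℤ, ‖iv w v‖ ^ 3 := tsum_nonneg fun v => by positivity
      linarith
    · have h3 : 1 ≤ ‖iv w v‖ := (not_le.mp h2).le
      have h4 : ‖iv w v‖ ≤ ‖iv w v‖ ^ 3 := le_self_pow₀ h3 (by norm_num)
      linarith

theorem summable_iv3 (hw : Good w) : Summable fun v : ℤ × ℤ => ‖iv w v‖ ^ 3 :=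
  bas_summable_iv3 hw

theorem summable_iv {k : ℕ} (hw : Good w) (hk : 3 ≤ k) : Summable fun v : ℤ × ℤ => ‖iv w v‖ ^ k := by
  obtain ⟨j, rfl⟩ := Nat.exists_eq_add_of_le hk
  obtain ⟨C, hC, hCv⟩ := norm_iv_le' hw
  refine Summable.of_nonneg_of_le (fun v => by positivity) (fun v => ?_)
    ((summable_iv3 hw).mul_left (C ^ j))
  rw [pow_add, mul_comm]
  exact mul_le_mul_of_nonneg_right
    (pow_le_pow_left₀ (norm_nonneg _) (hCv v) j) (by positivity)

theorem norm_term (w : ℂ × ℂ) (a b : ℕ) (v : ℤ × ℤ) : ‖iv w v ^ a * ic w v ^ b‖ = ‖iv w v‖ ^ (a + b) := by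
  rw [norm_mul, norm_pow, norm_pow, norm_ic, pow_add]

theorem summable_row2 (hw : Good w) (m : ℤ) : Summable fun n : ℤ => ‖iv w (m, n)‖ ^ 2 := by
  have h := EisensteinSeries.linear_right_summable (w.1 / w.2) m (k := 2) le_rfl
  have h2 := h.norm.mul_left (‖w.2‖⁻¹ ^ 2)
  refine h2.congr (fun n => ?_)
  rw [iv, bas_pt_eq hw, norm_inv, norm_inv, norm_mul, mul_inv, mul_pow, norm_zpow, inv_pow,
    inv_pow]
  rfl

theorem summable_row {k : ℕ} (hw : Good w) (hk : 2 ≤ k) (m : ℤ) :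
    Summable fun n : ℤ => ‖iv w (m, n)‖ ^ k := by
  obtain ⟨j, rfl⟩ := Nat.exists_eq_add_of_le hk
  obtain ⟨C, hC, hCv⟩ := norm_iv_le' hw
  refine Summable.of_nonneg_of_le (fun v => by positivity) (fun n => ?_)
    ((summable_row2 hw m).mul_left (C ^ j))
  rw [pow_add, mul_comm]
  exact mul_le_mul_of_nonneg_right
    (pow_le_pow_left₀ (norm_nonneg _) (hCv (m, n)) j) (by positivity)

theorem row_summable {a b : ℕ} (hw : Good w) (h : 2 ≤ a + b) (m : ℤ) :
    Summable fun n : ℤ => iv w (m, n) ^ a * ic w (m, n) ^ b := by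
  refine Summable.of_norm ?_
  simp only [norm_term]
  exact summable_row hw h m

theorem lat_summable {a b : ℕ} (hw : Good w) (h : 3 ≤ a + b) :
    Summable fun v : ℤ × ℤ => iv w v ^ a * ic w v ^ b := by
  refine Summable.of_norm ?_
  simp only [norm_term]
  exact summable_iv hw h

theorem X_neg (w : ℂ × ℂ) (a b : ℕ) (m : ℤ) : X w a b (-m) = (-1) ^ (a + b) * X w a b m := by
  unfold X
  rw [← (Equiv.neg ℤ).tsum_eq, ← tsum_mul_left]
  refine tsum_congr (fun n => ?_)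
  have h1 : ((-m, (Equiv.neg ℤ) n) : ℤ × ℤ) = -(m, n) := rfl
  rw [h1, iv_neg, ic_neg, neg_pow, neg_pow (ic w (m, n)), pow_add]
  ring

theorem X_conj (w : ℂ × ℂ) (a b : ℕ) (m : ℤ) : conj (X w a b m) = X w b a m := by
  unfold X
  rw [Complex.conj_tsum]
  refine tsum_congr (fun n => ?_)
  rw [map_mul, map_pow, map_pow, conj_iv, conj_ic, mul_comm]

theorem norm_X_le {a b : ℕ} (hw : Good w) (h : 2 ≤ a + b) (m : ℤ) :
    ‖X w a b m‖ ≤ ∑' n : ℤ, ‖iv w (m, n)‖ ^ (a + b) := by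
  unfold X
  have h1 : Summable fun n : ℤ => ‖iv w (m, n) ^ a * ic w (m, n) ^ b‖ := by
    simp only [norm_term]
    exact summable_row hw h m
  refine (norm_tsum_le_tsum_norm h1).trans (le_of_eq ?_)
  simp only [norm_term]

theorem X_summable {a b : ℕ} (hw : Good w) (h : 3 ≤ a + b) : Summable fun m : ℤ => ‖X w a b m‖ := by
  have h1 := summable_iv hw h
  have h2 : Summable fun m : ℤ => ∑' n : ℤ, ‖iv w (m, n)‖ ^ (a + b) := h1.prod
  exact Summable.of_nonneg_of_le (fun m => norm_nonneg _)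
    (fun m => norm_X_le hw (le_trans (by norm_num) h) m) h2

/-- weighted lattice sums by rows -/
theorem tsum_rows {a b : ℕ} (hw : Good w) (h : 3 ≤ a + b) (f : ℤ → ℂ) {C : ℝ} (hf : ∀ m, ‖f m‖ ≤ C) :
    ∑' v : ℤ × ℤ, f v.1 * (iv w v ^ a * ic w v ^ b) = ∑' m : ℤ, f m * X w a b m := by
  have h1 : Summable fun v : ℤ × ℤ => f v.1 * (iv w v ^ a * ic w v ^ b) := by
    refine Summable.of_norm_bounded ((summable_iv hw h).mul_left C) (fun v => ?_)
    rw [norm_mul, norm_term]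
    exact mul_le_mul_of_nonneg_right (hf v.1) (by positivity)
  rw [h1.tsum_prod]
  refine tsum_congr (fun m => ?_)
  unfold X
  rw [← tsum_mul_left]

end D8
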