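import Mathlib
import Pool.Agent.D8.Defs
import Pool.Agent.RVP.Wt

/-!
# D8/Wt: identities and bounds for the weights (functions mod 6), PORT of RVP/Wt

Same technique as RVP/Wt (finite check on `ZMod 6`); all identities were checked by computer.  `|cw| ≤ 3`, `|sw| ≤ 9/2`.
-/

set_option autoImplicit false

namespace D8

private def wtSg (x : ZMod 6) : ℤ := if x.val % 2 = 0 then 1 else -1

private def wtT3 (x : ZMod 6) : ℤ := if x.val % 3 = 0 then 1 else 0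

private theorem wt_sg (m : ℤ) : RVP.sg m = (wtSg (m : ZMod 6) : ℝ) := by
  have h : (((m : ZMod 6).val : ℕ) : ℤ) = m % 6 := by
    have := ZMod.val_intCast (n := 6) m
    simpa using this
  unfold RVP.sg wtSg
  by_cases h0 : m % 2 = 0
  · rw [if_pos h0, if_pos (by omega)]
    norm_num
  · rw [if_neg h0, if_neg (by omega)]
    norm_num

private theorem wt_t3 (m : ℤ) : RVP.t3 m = (wtT3 (m : ZMod 6) : ℝ) := by
  have h : (((m : ZMod 6).val : ℕ) : ℤ) = m % 6 := by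
    have := ZMod.val_intCast (n := 6) m
    simpa using this
  unfold RVP.t3 wtT3
  by_cases h0 : m % 3 = 0
  · rw [if_pos h0, if_pos (by omega)]
    norm_num
  · rw [if_neg h0, if_neg (by omega)]
    norm_num

/-- the weight `c` -/
private def wtC (a b : ZMod 6) : ℤ :=
  wtSg a - 2 * wtSg a * wtT3 (a + b) - wtSg b * wtT3 b + wtSg (a + b) * wtT3 (a - b)

/-- two times the weight `w` -/
private def wtW (m : ZMod 6) : ℤ := 1 - 6 * wtT3 m + 3 * wtSg m + wtSg m * wtT3 m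

/-- two times the weight `psi` -/
private def wtPs (m : ZMod 6) : ℤ := (1 + wtSg m) * (1 + wtT3 m) - 4 * wtT3 m

private def wtPh (m : ZMod 6) : ℤ := -(wtSg m * (1 - 3 * wtT3 m))

private def wtPf (m : ZMod 6) : ℤ :=
  1 + 2 * (1 + wtSg m) - 9 * wtT3 m - 18 * ((1 + wtSg m) * wtT3 m)

private theorem wt_cw (a b : ℤ) : cw a b = (wtC (a : ZMod 6) (b : ZMod 6) : ℝ) := by
  unfold cw wtC
  rw [wt_sg a, wt_sg b, wt_sg (a + b), wt_t3 b, wt_t3 (a + b), wt_t3 (a - b)]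
  push_cast
  ring

private theorem wt_sw (a : ℤ) : sw a = (wtW (a : ZMod 6) : ℝ) / 2 := by
  unfold sw wtW
  rw [wt_sg a, wt_t3 a]
  push_cast
  ring

private theorem wt_ps (a : ℤ) : ps a = (wtPs (a : ZMod 6) : ℝ) / 2 := by
  unfold ps wtPs
  rw [wt_sg a, wt_t3 a]
  push_cast
  ring

private theorem wt_ph (a : ℤ) : ph a = (wtPh (a : ZMod 6) : ℝ) := by
  unfold ph wtPh
  rw [wt_sg a, wt_t3 a]
  push_cast
  ring

private theorem wt_pf (a : ℤ) : pf a = (wtPf (a : ZMod 6) : ℝ) := by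
  unfold pf wtPf
  rw [wt_sg a, wt_t3 a]
  push_cast
  ring

theorem ps_neg (m : ℤ) : ps (-m) = ps m := by
  unfold ps
  rw [RVP.sg_neg, RVP.t3_neg]

theorem ph_neg (m : ℤ) : ph (-m) = ph m := by
  unfold ph
  rw [RVP.sg_neg, RVP.t3_neg]

theorem pf_neg (m : ℤ) : pf (-m) = pf m := by
  unfold pf
  rw [RVP.sg_neg, RVP.t3_neg]

theorem sw_neg (m : ℤ) : sw (-m) = sw m := by
  unfold sw
  rw [RVP.sg_neg, RVP.t3_neg]

theorem cw_neg (a b : ℤ) : cw (-a) (-b) = cw a b := by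
  unfold cw
  rw [show -a + -b = -(a + b) by ring, show -a - -b = -(a - b) by ring, RVP.sg_neg, RVP.sg_neg,
    RVP.sg_neg, RVP.t3_neg, RVP.t3_neg, RVP.t3_neg]

/-- `N(j,i) = c(i,j) + c(i-j,j) + c(j,i-j)` is even in `i` -/
theorem wt_even (i j : ℤ) :
    cw i j + cw (i - j) j + cw j (i - j) = cw (-i) j + cw (-i - j) j + cw j (-i - j) := by
  have h : ∀ x y : ZMod 6, wtC x y + wtC (x - y) y + wtC y (x - y) =
      wtC (-x) y + wtC (-x - y) y + wtC y (-x - y) := by decide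
  have h1 : (wtC (i : ZMod 6) (j : ZMod 6) : ℝ) + wtC ((i : ZMod 6) - j) j +
      wtC (j : ZMod 6) ((i : ZMod 6) - j) = wtC (-(i : ZMod 6)) j + wtC (-(i : ZMod 6) - j) j +
      wtC (j : ZMod 6) (-(i : ZMod 6) - j) := by exact_mod_cast h i j
  rw [wt_cw, wt_cw, wt_cw, wt_cw, wt_cw, wt_cw]
  simp only [Int.cast_sub, Int.cast_neg]
  linarith

/-- the weight of `X_b(j) X_a(i)` after symmetrisation in `i` -/
theorem wt_psi (i j : ℤ) :
    (cw (i - j) j - cw i j) + (cw (-i - j) j - cw (-i) j) = -2 * ps j * ph i := by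
  have h : ∀ x y : ZMod 6, (wtC (x - y) y - wtC x y) + (wtC (-x - y) y - wtC (-x) y) =
      -(wtPs y * wtPh x) := by decide
  have h1 : ((wtC ((i : ZMod 6) - j) j : ℝ) - wtC (i : ZMod 6) (j : ZMod 6)) +
      (wtC (-(i : ZMod 6) - j) j - wtC (-(i : ZMod 6)) j) =
      -((wtPs (j : ZMod 6) : ℝ) * wtPh (i : ZMod 6)) := by exact_mod_cast h i j
  rw [wt_cw, wt_cw, wt_cw, wt_cw, wt_ps, wt_ph]
  simp only [Int.cast_sub, Int.cast_neg]
  linarith

theorem wt_single (m : ℤ) : sw m = cw 0 m - cw m (-m) + cw m 0 / 2 := by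
  have h : ∀ x : ZMod 6, wtW x = 2 * wtC 0 x - 2 * wtC x (-x) + wtC x 0 := by decide
  have h1 : (wtW (m : ZMod 6) : ℝ) = 2 * wtC 0 (m : ZMod 6) - 2 * wtC (m : ZMod 6) (-(m : ZMod 6)) +
      wtC (m : ZMod 6) 0 := by exact_mod_cast h m
  rw [wt_sw, wt_cw, wt_cw, wt_cw]
  simp only [Int.cast_zero, Int.cast_neg]
  linarith

theorem ph_zero : ph 0 = 2 := by
  norm_num [ph, RVP.sg, RVP.t3]

theorem cw_abs (a b : ℤ) : |cw a b| ≤ 20 := by
  have h : ∀ x y : ZMod 6, |wtC x y| ≤ 20 := by decide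
  have h1 : |(wtC (a : ZMod 6) (b : ZMod 6) : ℝ)| ≤ 20 := by exact_mod_cast h a b
  rw [wt_cw]
  exact h1

theorem sw_abs (m : ℤ) : |sw m| ≤ 20 := by
  have h : ∀ x : ZMod 6, |wtW x| ≤ 40 := by decide
  have h1 : |(wtW (m : ZMod 6) : ℝ)| ≤ 40 := by exact_mod_cast h m
  rw [wt_sw, abs_div, abs_of_pos (by norm_num : (0 : ℝ) < 2)]
  linarith

theorem ps_abs (m : ℤ) : |ps m| ≤ 16 := by
  have h : ∀ x : ZMod 6, |wtPs x| ≤ 32 := by decide
  have h1 : |(wtPs (m : ZMod 6) : ℝ)| ≤ 32 := by exact_mod_cast h m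
  rw [wt_ps, abs_div, abs_of_pos (by norm_num : (0 : ℝ) < 2)]
  linarith

theorem ph_abs (m : ℤ) : |ph m| ≤ 4 := by
  have h : ∀ x : ZMod 6, |wtPh x| ≤ 4 := by decide
  have h1 : |(wtPh (m : ZMod 6) : ℝ)| ≤ 4 := by exact_mod_cast h m
  rw [wt_ph]
  exact h1

theorem pf_abs (m : ℤ) : |pf m| ≤ 40 := by
  have h : ∀ x : ZMod 6, |wtPf x| ≤ 40 := by decide
  have h1 : |(wtPf (m : ZMod 6) : ℝ)| ≤ 40 := by exact_mod_cast h m
  rw [wt_pf]
  exact h1

end D8
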