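import Mathlib
import Pool.Agent.D8.Defs
import Pool.Agent.D8.Bas
import Pool.Agent.D8.Ker

/-!
# D8/Der: termwise differentiation of `Y³ D2 (wp Y)`

PORT of RVP/Der.  `pt (wp Y) v = b' + i Y b` with the real numbers `b = v.1 r2 + v.2`, `b' = v.1 r1 + v.2`; so
`2 Y d/dY p = p - p̄` and `|pt (wp Y) v|` is increasing in `Y > 0` (this replaces `norm_iv_anti`, `Bd_anti`).  `Good (wp Y)` for
`0 < Y` (`Im (w1 conj w2) = Y (r2 - r1) = Y/√3`).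
-/

set_option autoImplicit false

open scoped ComplexConjugate

namespace D8

theorem good_wp {Y : ℝ} (hY : 0 < Y) : Good (wp Y) := by
  have h : ((wp Y).1 * conj (wp Y).2).im = Y * (Real.sqrt 3 / 3) := by
    simp [wp, r1, r2]
    ring
  unfold Good
  rw [h]
  have h3 : 0 < Real.sqrt 3 := Real.sqrt_pos.mpr (by norm_num)
  positivity

/-- the coefficient `b` -/
private noncomputable def Der_b (v : ℤ × ℤ) : ℝ := v.1 * r2 + v.2

/-- the coefficient `b'` -/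
private noncomputable def Der_b' (v : ℤ × ℤ) : ℝ := v.1 * r1 + v.2

private theorem Der_pt_eq (v : ℤ × ℤ) (t : ℝ) :
    pt (wp t) v = (Der_b' v : ℂ) + (t : ℂ) * (Complex.I * (Der_b v : ℂ)) := by
  simp only [pt, wp, Der_b, Der_b']
  push_cast
  ring

private theorem Der_ptc_eq (v : ℤ × ℤ) (t : ℝ) :
    conj (pt (wp t) v) = (Der_b' v : ℂ) + (t : ℂ) * (-(Complex.I * (Der_b v : ℂ))) := by
  rw [Der_pt_eq]
  simp

variable {Y : ℝ}

private theorem Der_pt (v : ℤ × ℤ) (t : ℝ) :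
    HasDerivAt (fun t : ℝ => pt (wp t) v) (Complex.I * (Der_b v : ℂ)) t := by
  have h : (fun t : ℝ => pt (wp t) v) =
      fun t : ℝ => (Der_b' v : ℂ) + (t : ℂ) * (Complex.I * (Der_b v : ℂ)) := by
    funext t
    exact Der_pt_eq v t
  rw [h]
  have h1 : HasDerivAt (fun t : ℝ => (t : ℂ)) 1 t := Complex.ofRealCLM.hasDerivAt
  have h2 := (h1.mul_const (Complex.I * (Der_b v : ℂ))).const_add (Der_b' v : ℂ)
  rwa [one_mul] at h2

private theorem Der_ptc (v : ℤ × ℤ) (t : ℝ) :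
    HasDerivAt (fun t : ℝ => conj (pt (wp t) v)) (-(Complex.I * (Der_b v : ℂ))) t := by
  have h : (fun t : ℝ => conj (pt (wp t) v)) =
      fun t : ℝ => (Der_b' v : ℂ) + (t : ℂ) * (-(Complex.I * (Der_b v : ℂ))) := by
    funext t
    exact Der_ptc_eq v t
  rw [h]
  have h1 : HasDerivAt (fun t : ℝ => (t : ℂ)) 1 t := Complex.ofRealCLM.hasDerivAt
  have h2 := (h1.mul_const (-(Complex.I * (Der_b v : ℂ)))).const_add (Der_b' v : ℂ)
  rwa [one_mul] at h2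

private theorem Der_iv (hY : 0 < Y) (v : ℤ × ℤ) :
    HasDerivAt (fun t : ℝ => iv (wp t) v) (-(Complex.I * (Der_b v : ℂ)) * iv (wp Y) v ^ 2) Y := by
  by_cases hv : v = 0
  · subst hv
    have h : (fun t : ℝ => iv (wp t) (0 : ℤ × ℤ)) = fun _ => 0 := by
      funext t
      exact iv_zero (wp t)
    rw [h, iv_zero]
    simpa using hasDerivAt_const Y (0 : ℂ)
  · have h0 : pt (wp Y) v ≠ 0 := fun h => hv ((pt_eq_zero (good_wp hY)).mp h)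
    have h1 := (Der_pt v Y).inv h0
    have h2 : -(Complex.I * (Der_b v : ℂ)) / pt (wp Y) v ^ 2 =
        -(Complex.I * (Der_b v : ℂ)) * iv (wp Y) v ^ 2 := by
      rw [iv, inv_pow, div_eq_mul_inv]
    rw [h2] at h1
    exact h1

private theorem Der_ic (hY : 0 < Y) (v : ℤ × ℤ) :
    HasDerivAt (fun t : ℝ => ic (wp t) v) ((Complex.I * (Der_b v : ℂ)) * ic (wp Y) v ^ 2) Y := by
  by_cases hv : v = 0
  · subst hv
    have h : (fun t : ℝ => ic (wp t) (0 : ℤ × ℤ)) = fun _ => 0 := by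
      funext t
      exact ic_zero (wp t)
    rw [h, ic_zero]
    simpa using hasDerivAt_const Y (0 : ℂ)
  · have h0 : conj (pt (wp Y) v) ≠ 0 := by
      intro h
      rw [map_eq_zero] at h
      exact hv ((pt_eq_zero (good_wp hY)).mp h)
    have h1 := (Der_ptc v Y).inv h0
    have h2 : -(-(Complex.I * (Der_b v : ℂ))) / conj (pt (wp Y) v) ^ 2 =
        (Complex.I * (Der_b v : ℂ)) * ic (wp Y) v ^ 2 := by
      rw [ic, inv_pow, div_eq_mul_inv, neg_neg]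
    rw [h2] at h1
    exact h1

private theorem Der_M (Y : ℝ) (v : ℤ × ℤ) :
    2 * (Y : ℂ) * (Complex.I * (Der_b v : ℂ)) = pt (wp Y) v - conj (pt (wp Y) v) := by
  rw [Der_ptc_eq, Der_pt_eq]
  ring

private theorem Der_t3 (y : ℝ) : HasDerivAt (fun t : ℝ => (t : ℂ) ^ 3) (3 * (y : ℂ) ^ 2) y := by
  have h1 : HasDerivAt (fun t : ℝ => (t : ℂ)) 1 y := Complex.ofRealCLM.hasDerivAt
  have h2 := h1.pow 3
  exact h2.congr_deriv (by simp)

private theorem Der_mul_iv (hY : 0 < Y) {v : ℤ × ℤ} (hv : v ≠ 0) :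
    pt (wp Y) v * iv (wp Y) v = 1 := by
  rw [pt_mul_iv (good_wp hY), nz, if_neg hv]

private theorem Der_mul_ic (hY : 0 < Y) {v : ℤ × ℤ} (hv : v ≠ 0) :
    conj (pt (wp Y) v) * ic (wp Y) v = 1 := by
  rw [← conj_iv, ← map_mul, Der_mul_iv hY hv, map_one]

private theorem Der_KK (hY : 0 < Y) (x : (ℤ × ℤ) × (ℤ × ℤ)) :
    HasDerivAt (fun t : ℝ => (t : ℂ) ^ 3 * KK (wp t) x)
      ((Y : ℂ) ^ 2 / 2 * (E51 (wp Y) x + E33 (wp Y) x)) Y := by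
  have d1 := (Der_iv hY x.1).pow 2
  have d2 := Der_ic hY x.1
  have d3 := (Der_iv hY (x.1 + x.2)).pow 2
  have d4 := Der_ic hY x.2
  have d := (Der_t3 Y).mul ((d1.mul d2).mul (d3.mul d4))
  have hfun : (fun t : ℝ => (t : ℂ) ^ 3 * KK (wp t) x) = (fun t : ℝ => (t : ℂ) ^ 3) *
      (((fun t : ℝ => iv (wp t) x.1) ^ 2 * fun t : ℝ => ic (wp t) x.1) *
        ((fun t : ℝ => iv (wp t) (x.1 + x.2)) ^ 2 * fun t : ℝ => ic (wp t) x.2)) := by
    funext t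
    simp [KK]
  rw [hfun]
  refine d.congr_deriv ?_
  simp only [Pi.mul_apply, Pi.pow_apply]
  by_cases hp : x.1 = 0
  · rw [E51, E33, hp]
    simp [iv_zero]
  by_cases hq : x.2 = 0
  · rw [E51, E33, hq]
    simp [ic_zero, nz]
  by_cases hr : x.1 + x.2 = 0
  · rw [E51, E33, hr]
    simp [iv_zero]
  have h1 := Der_M Y x.1
  have h2 := Der_M Y x.2
  have h3 := Der_M Y (x.1 + x.2)
  have h4 := Der_mul_iv hY hp
  have h5 := Der_mul_ic hY hp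
  have h6 := Der_mul_ic hY hq
  have h7 := Der_mul_iv hY hr
  have h8 : conj (pt (wp Y) (x.1 + x.2)) = conj (pt (wp Y) x.1) + conj (pt (wp Y) x.2) := by
    rw [pt_add, map_add]
  rw [E51, E33, nz, if_neg hq]
  generalize iv (wp Y) x.1 = a at *
  generalize ic (wp Y) x.1 = a' at *
  generalize ic (wp Y) x.2 = b' at *
  generalize iv (wp Y) (x.1 + x.2) = c at *
  generalize Complex.I * (Der_b x.1 : ℂ) = Mp at *
  generalize Complex.I * (Der_b x.2 : ℂ) = Mq at *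
  generalize Complex.I * (Der_b (x.1 + x.2) : ℂ) = Mr at *
  generalize conj (pt (wp Y) x.1) = P' at *
  generalize conj (pt (wp Y) x.2) = Q' at *
  generalize conj (pt (wp Y) (x.1 + x.2)) = R' at *
  generalize pt (wp Y) x.1 = P at *
  generalize pt (wp Y) x.2 = Q at *
  generalize pt (wp Y) (x.1 + x.2) = R at *
  norm_num
  linear_combination ((Y : ℂ) ^ 2 / 2 * (-2 * a ^ 3 * a' * c ^ 2 * b' + a ^ 2 * a' ^ 2 * c ^ 2 * b')) * h1
    + ((Y : ℂ) ^ 2 / 2 * (a ^ 2 * a' * c ^ 2 * b' ^ 2)) * h2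
    + ((Y : ℂ) ^ 2 / 2 * (-2 * a ^ 2 * a' * c ^ 3 * b')) * h3
    + ((Y : ℂ) ^ 2 / 2 * (-2 * a ^ 2 * a' * c ^ 2 * b' + a * a' ^ 2 * c ^ 2 * b')) * h4
    + ((Y : ℂ) ^ 2 / 2 * (2 * a ^ 3 * c ^ 2 * b' - a ^ 2 * a' * c ^ 2 * b' + 2 * a ^ 2 * c ^ 3 * b')) * h5
    + ((Y : ℂ) ^ 2 / 2 * (2 * a ^ 2 * a' * c ^ 3 - a ^ 2 * a' * c ^ 2 * b')) * h6
    + ((Y : ℂ) ^ 2 / 2 * (-2 * a ^ 2 * a' * c ^ 2 * b')) * h7
    + ((Y : ℂ) ^ 2 / 2 * (2 * a ^ 2 * a' * c ^ 3 * b')) * h8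

/-- the derivative of `2 Y⁻² Y³ K1` -/
private noncomputable def Der_E1 (w : ℂ × ℂ) (v : ℤ × ℤ) : ℂ :=
  4 * (iv w v ^ 5 * ic w v) + 2 * (iv w v ^ 3 * ic w v ^ 3)

private theorem Der_K1 (hY : 0 < Y) (v : ℤ × ℤ) :
    HasDerivAt (fun t : ℝ => (t : ℂ) ^ 3 * K1 (wp t) v) ((Y : ℂ) ^ 2 / 2 * Der_E1 (wp Y) v) Y := by
  have d1 := (Der_iv hY v).pow 4
  have d2 := (Der_ic hY v).pow 2
  have d := (Der_t3 Y).mul (d1.mul d2)
  have hfun : (fun t : ℝ => (t : ℂ) ^ 3 * K1 (wp t) v) = (fun t : ℝ => (t : ℂ) ^ 3) *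
      ((fun t : ℝ => iv (wp t) v) ^ 4 * (fun t : ℝ => ic (wp t) v) ^ 2) := by
    funext t
    simp [K1]
  rw [hfun]
  refine d.congr_deriv ?_
  simp only [Pi.mul_apply, Pi.pow_apply]
  by_cases hv : v = 0
  · subst hv
    simp [Der_E1, iv_zero, ic_zero]
  have h1 := Der_M Y v
  have h4 := Der_mul_iv hY hv
  have h5 := Der_mul_ic hY hv
  rw [Der_E1]
  generalize iv (wp Y) v = a at *
  generalize ic (wp Y) v = a' at *
  generalize Complex.I * (Der_b v : ℂ) = Mp at *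
  generalize conj (pt (wp Y) v) = P' at *
  generalize pt (wp Y) v = P at *
  norm_num
  linear_combination ((Y : ℂ) ^ 2 / 2 * (-4 * a ^ 5 * a' ^ 2 + 2 * a ^ 4 * a' ^ 3)) * h1
    + ((Y : ℂ) ^ 2 / 2 * (-4 * a ^ 4 * a' ^ 2 + 2 * a ^ 3 * a' ^ 3)) * h4
    + ((Y : ℂ) ^ 2 / 2 * (4 * a ^ 5 * a' - 2 * a ^ 4 * a' ^ 2)) * h5

private theorem Der_sq {t : ℝ} (h0 : 0 < Y) (ht : t ∈ Set.Ioo (Y / 2) (2 * Y)) :
    ‖(t : ℂ) ^ 2 / 2‖ ≤ 2 * Y ^ 2 := by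
  rw [norm_div, norm_pow, Complex.norm_real, Real.norm_eq_abs, sq_abs, Complex.norm_ofNat]
  have h1 : 0 < t := by linarith [ht.1]
  have h2 : t ^ 2 ≤ (2 * Y) ^ 2 := by
    apply pow_le_pow_left₀ h1.le ht.2.le
  linarith

private theorem Der_norm_sq (v : ℤ × ℤ) (t : ℝ) :
    ‖pt (wp t) v‖ ^ 2 = Der_b' v ^ 2 + t ^ 2 * Der_b v ^ 2 := by
  rw [Der_pt_eq, ← Complex.normSq_eq_norm_sq, Complex.normSq_apply]
  simp
  ring

private theorem Der_anti {s t : ℝ} (hs : 0 < s) (hst : s ≤ t) (v : ℤ × ℤ) :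
    ‖iv (wp t) v‖ ≤ ‖iv (wp s) v‖ := by
  by_cases hv : v = 0
  · subst hv
    rw [iv_zero, iv_zero]
  have h0 : pt (wp s) v ≠ 0 := fun h => hv ((pt_eq_zero (good_wp hs)).mp h)
  rw [iv, iv, norm_inv, norm_inv]
  refine inv_anti₀ (norm_pos_iff.mpr h0) ?_
  have h1 := Der_norm_sq v s
  have h2 := Der_norm_sq v t
  have h3 : s ^ 2 ≤ t ^ 2 := pow_le_pow_left₀ hs.le hst 2
  have h4 : s ^ 2 * Der_b v ^ 2 ≤ t ^ 2 * Der_b v ^ 2 :=
    mul_le_mul_of_nonneg_right h3 (sq_nonneg _)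
  have h5 : ‖pt (wp s) v‖ ^ 2 ≤ ‖pt (wp t) v‖ ^ 2 := by linarith
  exact (pow_le_pow_iff_left₀ (norm_nonneg _) (norm_nonneg _) (by norm_num)).mp h5

private theorem Der_Bd {s t : ℝ} (hs : 0 < s) (hst : s ≤ t) (x : (ℤ × ℤ) × (ℤ × ℤ)) :
    Bd (wp t) x ≤ Bd (wp s) x := by
  have h1 := Der_anti hs hst x.1
  have h2 := Der_anti hs hst x.2
  have h3 := Der_anti hs hst (x.1 + x.2)
  have key : ∀ a b c : ℕ, ‖iv (wp t) x.1‖ ^ a * ‖iv (wp t) x.2‖ ^ b * ‖iv (wp t) (x.1 + x.2)‖ ^ c ≤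
      ‖iv (wp s) x.1‖ ^ a * ‖iv (wp s) x.2‖ ^ b * ‖iv (wp s) (x.1 + x.2)‖ ^ c := by
    intro a b c
    have e1 := pow_le_pow_left₀ (norm_nonneg _) h1 a
    have e2 := pow_le_pow_left₀ (norm_nonneg _) h2 b
    have e3 := pow_le_pow_left₀ (norm_nonneg _) h3 c
    exact mul_le_mul (mul_le_mul e1 e2 (by positivity) (by positivity)) e3 (by positivity)
      (by positivity)
  unfold Bd
  have k1 := key 3 1 2
  have k2 := key 2 1 3
  have k3 := key 3 0 3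
  linarith

theorem D2_deriv {Y : ℝ} (hY : 0 < Y) :
    HasDerivAt (fun s : ℝ => (s : ℂ) ^ 3 * D2 (wp s)) ((Y : ℂ) ^ 2 / 2 * (S51 (wp Y) + S33 (wp Y))) Y := by
  have hy2 : 0 < Y / 2 := by positivity
  have hmem : Y ∈ Set.Ioo (Y / 2) (2 * Y) := ⟨by linarith, by linarith⟩
  have hpos : ∀ t ∈ Set.Ioo (Y / 2) (2 * Y), 0 < t := fun t ht => hy2.trans ht.1
  have A : HasDerivAt (fun t : ℝ => ∑' x : V4,
      (cw x.1.1 x.2.1 : ℂ) * ((t : ℂ) ^ 3 * KK (wp t) x))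
      (∑' x : V4,
        (cw x.1.1 x.2.1 : ℂ) * ((Y : ℂ) ^ 2 / 2 * (E51 (wp Y) x + E33 (wp Y) x))) Y := by
    refine hasDerivAt_tsum_of_isPreconnected
      (u := fun x => 20 * (2 * Y ^ 2 * Bd (wp (Y / 2)) x))
      (g := fun (x : V4) (t : ℝ) => (cw x.1.1 x.2.1 : ℂ) * ((t : ℂ) ^ 3 * KK (wp t) x))
      (g' := fun (x : V4) (t : ℝ) =>
        (cw x.1.1 x.2.1 : ℂ) * ((t : ℂ) ^ 2 / 2 * (E51 (wp t) x + E33 (wp t) x)))
      (t := Set.Ioo (Y / 2) (2 * Y)) (y₀ := Y) ?_ isOpen_Ioo isPreconnected_Ioo ?_ ?_ hmem ?_ hmem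
    · exact ((Bd_summable (good_wp hy2)).mul_left _).mul_left _
    · intro x t ht
      exact (Der_KK (hpos t ht) x).const_mul _
    · intro x t ht
      rw [norm_mul, norm_mul, Complex.norm_real, Real.norm_eq_abs]
      have h1 := cw_abs x.1.1 x.2.1
      have h2 := Der_sq hY ht
      have h3 := (E_le (good_wp (hpos t ht)) x).trans (Der_Bd hy2 ht.1.le x)
      have h4 : ‖(t : ℂ) ^ 2 / 2‖ * ‖E51 (wp t) x + E33 (wp t) x‖ ≤
          2 * Y ^ 2 * Bd (wp (Y / 2)) x :=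
        mul_le_mul h2 h3 (norm_nonneg _) (by positivity)
      exact mul_le_mul h1 h4 (by positivity) (by norm_num)
    · have := (cKK_summable (good_wp hY)).mul_left ((Y : ℂ) ^ 3)
      refine this.congr fun x => ?_
      ring
  have B : HasDerivAt (fun t : ℝ => ∑' v : ℤ × ℤ, (sw v.1 : ℂ) * ((t : ℂ) ^ 3 * K1 (wp t) v))
      (∑' v : ℤ × ℤ, (sw v.1 : ℂ) * ((Y : ℂ) ^ 2 / 2 * Der_E1 (wp Y) v)) Y := by
    refine hasDerivAt_tsum_of_isPreconnected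
      (u := fun v => 20 * (2 * Y ^ 2 * (6 * ‖iv (wp (Y / 2)) v‖ ^ 6)))
      (g := fun (v : ℤ × ℤ) (t : ℝ) => (sw v.1 : ℂ) * ((t : ℂ) ^ 3 * K1 (wp t) v))
      (g' := fun (v : ℤ × ℤ) (t : ℝ) => (sw v.1 : ℂ) * ((t : ℂ) ^ 2 / 2 * Der_E1 (wp t) v))
      (t := Set.Ioo (Y / 2) (2 * Y)) (y₀ := Y) ?_ isOpen_Ioo isPreconnected_Ioo ?_ ?_ hmem ?_ hmem
    · exact ((((summable_iv (k := 6) (good_wp hy2) (by norm_num)).mul_left _).mul_left _).mul_left _)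
    · intro v t ht
      exact (Der_K1 (hpos t ht) v).const_mul _
    · intro v t ht
      rw [norm_mul, norm_mul, Complex.norm_real, Real.norm_eq_abs]
      have h1 := sw_abs v.1
      have h2 := Der_sq hY ht
      have h3 : ‖Der_E1 (wp t) v‖ ≤ 6 * ‖iv (wp (Y / 2)) v‖ ^ 6 := by
        have e1 : ‖iv (wp t) v ^ 5 * ic (wp t) v‖ = ‖iv (wp t) v‖ ^ 6 := by
          have := norm_term (wp t) 5 1 v
          simpa using this
        have e2 : ‖iv (wp t) v ^ 3 * ic (wp t) v ^ 3‖ = ‖iv (wp t) v‖ ^ 6 := norm_term (wp t) 3 3 v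
        have e3 : ‖iv (wp t) v‖ ^ 6 ≤ ‖iv (wp (Y / 2)) v‖ ^ 6 :=
          pow_le_pow_left₀ (norm_nonneg _) (Der_anti hy2 ht.1.le v) 6
        have e4 : ‖4 * (iv (wp t) v ^ 5 * ic (wp t) v)‖ = 4 * ‖iv (wp t) v‖ ^ 6 := by
          rw [norm_mul, e1, Complex.norm_ofNat]
        have e5 : ‖2 * (iv (wp t) v ^ 3 * ic (wp t) v ^ 3)‖ = 2 * ‖iv (wp t) v‖ ^ 6 := by
          rw [norm_mul, e2, Complex.norm_ofNat]
        rw [Der_E1]
        refine (norm_add_le _ _).trans ?_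
        rw [e4, e5]
        linarith
      have h4 : ‖(t : ℂ) ^ 2 / 2‖ * ‖Der_E1 (wp t) v‖ ≤
          2 * Y ^ 2 * (6 * ‖iv (wp (Y / 2)) v‖ ^ 6) :=
        mul_le_mul h2 h3 (norm_nonneg _) (by positivity)
      exact mul_le_mul h1 h4 (by positivity) (by norm_num)
    · have := (K1_summable (good_wp hY)).mul_left ((Y : ℂ) ^ 3)
      refine this.congr fun x => ?_
      ring
  have hfun : (fun t : ℝ => (t : ℂ) ^ 3 * D2 (wp t)) = fun t : ℝ =>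
      (∑' x : V4, (cw x.1.1 x.2.1 : ℂ) * ((t : ℂ) ^ 3 * KK (wp t) x)) +
      (∑' v : ℤ × ℤ, (sw v.1 : ℂ) * ((t : ℂ) ^ 3 * K1 (wp t) v)) := by
    funext t
    rw [D2, mul_add, ← tsum_mul_left, ← tsum_mul_left]
    congr 1
    · exact tsum_congr fun x => by ring
    · exact tsum_congr fun x => by ring
  rw [hfun]
  refine (A.add B).congr_deriv ?_
  have s51 := cE51_summable (good_wp hY)
  have s33 := cE33_summable (good_wp hY)
  have t51 : Summable fun v : ℤ × ℤ => (sw v.1 : ℂ) * (4 * (iv (wp Y) v ^ 5 * ic (wp Y) v)) := by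
    have := (sw_summable (good_wp hY) (a := 5) (b := 1) (by norm_num)).mul_left (4 : ℂ)
    refine this.congr fun v => ?_
    ring
  have t33 : Summable fun v : ℤ × ℤ => (sw v.1 : ℂ) * (2 * (iv (wp Y) v ^ 3 * ic (wp Y) v ^ 3)) := by
    have := (sw_summable (good_wp hY) (a := 3) (b := 3) (by norm_num)).mul_left (2 : ℂ)
    refine this.congr fun v => ?_
    ring
  have e1 : ∑' x : V4, (cw x.1.1 x.2.1 : ℂ) * ((Y : ℂ) ^ 2 / 2 * (E51 (wp Y) x + E33 (wp Y) x)) =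
      (Y : ℂ) ^ 2 / 2 * (∑' x : V4, (cw x.1.1 x.2.1 : ℂ) * E51 (wp Y) x +
        ∑' x : V4, (cw x.1.1 x.2.1 : ℂ) * E33 (wp Y) x) := by
    rw [← s51.tsum_add s33, ← tsum_mul_left]
    exact tsum_congr fun x => by ring
  have e2 : ∑' v : ℤ × ℤ, (sw v.1 : ℂ) * ((Y : ℂ) ^ 2 / 2 * Der_E1 (wp Y) v) =
      (Y : ℂ) ^ 2 / 2 * (∑' v : ℤ × ℤ, (sw v.1 : ℂ) * (4 * (iv (wp Y) v ^ 5 * ic (wp Y) v)) +
        ∑' v : ℤ × ℤ, (sw v.1 : ℂ) * (2 * (iv (wp Y) v ^ 3 * ic (wp Y) v ^ 3))) := by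
    rw [← t51.tsum_add t33, ← tsum_mul_left]
    exact tsum_congr fun v => by rw [Der_E1]; ring
  rw [e1, e2, S51, S33]
  ring

end D8
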