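import Mathlib
import Pool.Agent.D8.Defs
import Pool.Agent.D8.Bas

/-!
# D8/RowA: the rows `X_11`

`X (t,1) 1 1 m = (π/(|m| y)) (1 + 2 Re Σ_{k≥1} q^{|m| k})`, `q = exp 2πit`, `y = Im t` (`m ≠ 0`): see RVP/RowA (`RowA_cot`, which is
stated for every `z` with positive imaginary part); `X11_zero`: `π²/3`.  General lattices: `X w 1 1 m = |w2|⁻² X (w1/w2, 1) 1 1 m`.
-/

set_option autoImplicit false

open Filter Topology

namespace D8

private theorem RowA_iv_ic (w : ℂ × ℂ) (v : ℤ × ℤ) : iv w v * ic w v = ((‖iv w v‖ ^ 2 : ℝ) : ℂ) := by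
  rw [← conj_iv, Complex.mul_conj, Complex.normSq_eq_norm_sq]

/-- the sum of the absolute values of a row -/
private theorem RowA_row_abs (w : ℂ × ℂ) (m : ℤ) :
    ((∑' n : ℤ, ‖iv w (m, n)‖ ^ 2 : ℝ) : ℂ) = X w 1 1 m := by
  unfold X
  rw [Complex.ofReal_tsum]
  refine tsum_congr fun n => ?_
  rw [pow_one, pow_one, RowA_iv_ic]

theorem X11_zero (t : ℂ) : X (t, 1) 1 1 0 = ((Real.pi ^ 2 / 3 : ℝ) : ℂ) := by
  rw [← RowA_row_abs]
  congr 1
  have h0 : ∀ n : ℤ, ‖iv (t, 1) (0, n)‖ ^ 2 = 1 / (n : ℝ) ^ 2 := by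
    intro n
    have h1 : pt (t, 1) (0, n) = (n : ℂ) := by
      simp [pt]
    unfold iv
    rw [h1, norm_inv, inv_pow, one_div, Complex.norm_intCast, sq_abs]
  simp only [h0]
  have h1 : HasSum (fun n : ℕ => 1 / (((n : ℤ) : ℝ)) ^ 2) (Real.pi ^ 2 / 6) := by
    simpa using hasSum_zeta_two
  have h2 : HasSum (fun n : ℕ => 1 / (((-((n : ℤ) + 1) : ℤ) : ℝ)) ^ 2) (Real.pi ^ 2 / 6) := by
    have h3 : HasSum (fun n : ℕ => 1 / (((n + 1 : ℕ)) : ℝ) ^ 2) (Real.pi ^ 2 / 6) := by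
      rw [hasSum_nat_add_iff (f := fun n : ℕ => 1 / ((n : ℕ) : ℝ) ^ 2) 1]
      simpa using hasSum_zeta_two
    convert h3 using 3 with n
    push_cast
    ring
  have h3 := (HasSum.of_nat_of_neg_add_one (f := fun n : ℤ => 1 / (n : ℝ) ^ 2) h1 h2).tsum_eq
  rw [h3]
  ring

private theorem RowA_cot {z : ℂ} (hz : 0 < z.im)
    (hf : Summable fun n : ℤ => ‖(z + (n : ℂ))⁻¹‖ ^ 2) :
    z.im * ∑' n : ℤ, ‖(z + (n : ℂ))⁻¹‖ ^ 2 = Real.pi *
      (1 + 2 * (∑' k : ℕ, Complex.exp (2 * Real.pi * Complex.I * z) ^ (k + 1)).re) := by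
  have hzi : z ∈ Complex.integerComplement :=
    UpperHalfPlane.coe_mem_integerComplement ⟨z, hz⟩
  set f : ℤ → ℝ := fun n => ‖(z + (n : ℂ))⁻¹‖ ^ 2 with hfd
  have him : ∀ w : ℂ, (w⁻¹).im = -(w.im * ‖w⁻¹‖ ^ 2) := by
    intro w
    rw [Complex.inv_im, norm_inv, inv_pow, Complex.sq_norm]
    ring
  -- the imaginary part of the cotangent series
  have h1 : HasSum (fun n : ℕ => -(z.im * (f (-((n : ℤ) + 1)) + f ((n : ℤ) + 1))))
      (Real.pi * Complex.cot (Real.pi * z) - 1 / z).im := by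
    have h3 : ∑' n, cotTerm z n = Real.pi * Complex.cot (Real.pi * z) - 1 / z :=
      (cot_series_rep' hzi).symm
    have h2 := Complex.hasSum_im (summable_cotTerm hzi).hasSum
    rw [h3] at h2
    have h12 : (fun n : ℕ => -(z.im * (f (-((n : ℤ) + 1)) + f ((n : ℤ) + 1)))) =
        fun n : ℕ => (cotTerm z n).im := by
      funext n
      symm
      show (1 / (z - ((n : ℂ) + 1)) + 1 / (z + ((n : ℂ) + 1))).im = _
      have h4 : z - ((n : ℂ) + 1) = z + ((-((n : ℤ) + 1) : ℤ) : ℂ) := by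
        push_cast
        ring
      have h5 : z + ((n : ℂ) + 1) = z + (((n : ℤ) + 1 : ℤ) : ℂ) := by
        push_cast
        ring
      rw [h4, h5, one_div, one_div, Complex.add_im, him, him, Complex.add_im, Complex.add_im,
        Complex.intCast_im, Complex.intCast_im, hfd]
      ring
    rw [h12]
    exact h2
  have hp : HasSum (fun n : ℕ => f ((n : ℤ) + 1)) (∑' n : ℕ, f ((n : ℤ) + 1)) := by
    refine Summable.hasSum ?_
    refine hf.comp_injective (i := fun n : ℕ => (n : ℤ) + 1) ?_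
    intro a b h
    simpa using h
  have hn : HasSum (fun n : ℕ => f (-((n : ℤ) + 1))) (∑' n : ℕ, f (-((n : ℤ) + 1))) := by
    refine Summable.hasSum ?_
    refine hf.comp_injective (i := fun n : ℕ => -((n : ℤ) + 1)) ?_
    intro a b h
    simpa using h
  have h0 : HasSum (fun n : ℕ => f (n : ℤ)) (f 0 + ∑' n : ℕ, f ((n : ℤ) + 1)) := by
    have h6 := (hasSum_nat_add_iff (f := fun n : ℕ => f (n : ℤ)) 1).mp
      (by simpa using hp)
    simpa [add_comm] using h6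
  have hS : ∑' n : ℤ, f n = f 0 + ∑' n : ℕ, f ((n : ℤ) + 1) + ∑' n : ℕ, f (-((n : ℤ) + 1)) :=
    (HasSum.of_nat_of_neg_add_one h0 hn).tsum_eq
  have h7 : -(z.im * (∑' n : ℕ, f (-((n : ℤ) + 1)) + ∑' n : ℕ, f ((n : ℤ) + 1))) =
      (Real.pi * Complex.cot (Real.pi * z) - 1 / z).im :=
    (((hn.add hp).mul_left z.im).neg).unique h1
  have h8 : (1 / z).im = -(z.im * f 0) := by
    rw [one_div, him, hfd]
    simp
  have h9 := pi_mul_cot_pi_q_exp ⟨z, hz⟩
  have hQ : ‖Complex.exp (2 * Real.pi * Complex.I * z)‖ < 1 :=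
    UpperHalfPlane.norm_exp_two_pi_I_lt_one ⟨z, hz⟩
  have h10 : ∑' n : ℕ, Complex.exp (2 * Real.pi * Complex.I * z) ^ n =
      1 + ∑' k : ℕ, Complex.exp (2 * Real.pi * Complex.I * z) ^ (k + 1) := by
    have := (summable_geometric_of_norm_lt_one hQ).tsum_eq_zero_add
    simpa using this
  have h11 : (Real.pi * Complex.cot (Real.pi * z)).im =
      -(Real.pi + 2 * Real.pi *
        (∑' k : ℕ, Complex.exp (2 * Real.pi * Complex.I * z) ^ (k + 1)).re) := by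
    have h12 : (Real.pi * Complex.cot (Real.pi * z)) =
      Real.pi * Complex.I - 2 * Real.pi * Complex.I *
        ∑' n : ℕ, Complex.exp (2 * Real.pi * Complex.I * z) ^ n := h9
    rw [h12, h10]
    simp [Complex.mul_im, Complex.mul_re, Complex.add_im]
    ring
  rw [Complex.sub_im, h8, h11] at h7
  rw [hS]
  linear_combination -h7

private theorem RowA_row {t : ℂ} (ht : 0 < t.im) {N : ℕ} (hN : 0 < N) :
    ∑' n : ℤ, ‖iv (t, 1) ((N : ℤ), n)‖ ^ 2 = Real.pi / ((N : ℝ) * t.im) *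
      (1 + 2 * (∑' k : ℕ, RV15W.qq t ^ (N * (k + 1))).re) := by
  set z : ℂ := (N : ℂ) * t with hz
  have hNr : (0 : ℝ) < N := by exact_mod_cast hN
  have hzi : z.im = N * t.im := by
    rw [hz, Complex.mul_im, Complex.natCast_re, Complex.natCast_im]
    ring
  have hz0 : 0 < z.im := by rw [hzi]; positivity
  have hiv : ∀ n : ℤ, iv (t, 1) ((N : ℤ), n) = (z + (n : ℂ))⁻¹ := by
    intro n
    unfold iv
    congr 1
    rw [hz]
    simp [pt]
  have hf : Summable fun n : ℤ => ‖(z + (n : ℂ))⁻¹‖ ^ 2 := by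
    have := summable_row2 (good_one ht) (N : ℤ)
    simpa only [hiv] using this
  have hc := RowA_cot hz0 hf
  have hQ : Complex.exp (2 * Real.pi * Complex.I * z) = RV15W.qq t ^ N := by
    unfold RV15W.qq
    rw [← Complex.exp_nat_mul, hz]
    congr 1
    ring
  have hre : ∑' k : ℕ, Complex.exp (2 * Real.pi * Complex.I * z) ^ (k + 1) =
      ∑' k : ℕ, RV15W.qq t ^ (N * (k + 1)) := by
    refine tsum_congr fun k => ?_
    rw [hQ, pow_mul]
  rw [hre, hzi] at hc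
  simp only [hiv]
  have : (N : ℝ) * t.im ≠ 0 := by positivity
  rw [div_mul_eq_mul_div, eq_div_iff this, ← hc]
  ring

theorem X11_eq {t : ℂ} (ht : 0 < t.im) {m : ℤ} (hm : m ≠ 0) :
    X (t, 1) 1 1 m = ((Real.pi / (|(m : ℝ)| * t.im) *
      (1 + 2 * (∑' k : ℕ, RV15W.qq t ^ (m.natAbs * (k + 1))).re) : ℝ) : ℂ) := by
  have hN : 0 < m.natAbs := Int.natAbs_pos.mpr hm
  have h1 : X (t, 1) 1 1 m = X (t, 1) 1 1 (m.natAbs : ℤ) := by
    rcases Int.natAbs_eq m with h | h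
    · rw [← h]
    · conv_lhs => rw [h]
      rw [X_neg]
      norm_num
  have h2 : |(m : ℝ)| = (m.natAbs : ℝ) := by
    rw [Nat.cast_natAbs, Int.cast_abs]
  rw [h1, ← RowA_row_abs, RowA_row ht hN, h2]

private theorem RowA_qq_lt {t : ℂ} (ht : 0 < t.im) : ‖RV15W.qq t‖ < 1 :=
  UpperHalfPlane.norm_exp_two_pi_I_lt_one ⟨t, ht⟩

private theorem RowA_tail {t : ℂ} (ht : 0 < t.im) {N : ℕ} (hN : 0 < N) :
    |(∑' k : ℕ, RV15W.qq t ^ (N * (k + 1))).re| ≤ ‖RV15W.qq t‖ / (1 - ‖RV15W.qq t‖) := by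
  have h0 := norm_nonneg (RV15W.qq t)
  have h1 := RowA_qq_lt ht
  have hs : HasSum (fun k : ℕ => ‖RV15W.qq t‖ * ‖RV15W.qq t‖ ^ k)
      (‖RV15W.qq t‖ * (1 - ‖RV15W.qq t‖)⁻¹) :=
    (hasSum_geometric_of_lt_one h0 h1).mul_left _
  have hle : ∀ k : ℕ, ‖RV15W.qq t ^ (N * (k + 1))‖ ≤ ‖RV15W.qq t‖ * ‖RV15W.qq t‖ ^ k := by
    intro k
    rw [norm_pow, ← pow_succ']
    exact pow_le_pow_of_le_one h0 h1.le (Nat.le_mul_of_pos_left _ hN)
  have := tsum_of_norm_bounded hs hle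
  refine (Complex.abs_re_le_norm _).trans ?_
  rwa [div_eq_mul_inv]

private theorem RowA_norm_le {t : ℂ} (ht : 0 < t.im) {m : ℤ} (hm : m ≠ 0) :
    ‖X (t, 1) 1 1 m‖ ≤
      Real.pi / (|(m : ℝ)| * t.im) * (1 + 2 * (‖RV15W.qq t‖ / (1 - ‖RV15W.qq t‖))) := by
  have hmr : (0 : ℝ) < |(m : ℝ)| := abs_pos.mpr (by exact_mod_cast hm)
  have hN : 0 < m.natAbs := Int.natAbs_pos.mpr hm
  rw [X11_eq ht hm, Complex.norm_real, norm_mul, Real.norm_eq_abs, Real.norm_eq_abs,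
    abs_of_pos (by have := Real.pi_pos; positivity : 0 < Real.pi / (|(m : ℝ)| * t.im))]
  refine mul_le_mul_of_nonneg_left ?_ (by have := Real.pi_pos; positivity)
  have h1 := RowA_tail ht hN
  have h2 := abs_add_le 1 (2 * (∑' k : ℕ, RV15W.qq t ^ (m.natAbs * (k + 1))).re)
  rw [abs_one, abs_mul, abs_two] at h2
  linarith

private theorem RowA_scale {w : ℂ × ℂ} (hw : Good w) (m : ℤ) :
    X w 1 1 m = (((‖w.2‖ ^ 2)⁻¹ : ℝ) : ℂ) * X (w.1 / w.2, 1) 1 1 m := by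
  have h2 : w.2 ≠ 0 := hw.snd_ne
  rw [← RowA_row_abs, ← RowA_row_abs, ← Complex.ofReal_mul, ← tsum_mul_left]
  congr 1
  refine tsum_congr fun n => ?_
  have h3 : pt w (m, n) = w.2 * pt (w.1 / w.2, 1) (m, n) := by
    unfold pt
    field_simp
  unfold iv
  rw [h3, mul_inv, norm_mul, norm_inv, mul_pow, inv_pow]

theorem X11_tendsto {w : ℂ × ℂ} (hw : Good w) : Tendsto (fun m : ℤ => X w 1 1 m) cofinite (𝓝 0) := by
  have ht := hw.im_pos
  set t : ℂ := w.1 / w.2 with htd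
  set C : ℝ := Real.pi / t.im * (1 + 2 * (‖RV15W.qq t‖ / (1 - ‖RV15W.qq t‖))) with hC
  have h1 : Tendsto (fun m : ℤ => C / |(m : ℝ)|) cofinite (𝓝 0) := by
    have h2 : Tendsto (fun m : ℤ => |(m : ℝ)|) cofinite atTop := by
      rw [Int.cofinite_eq, tendsto_sup]
      exact ⟨tendsto_abs_atBot_atTop.comp (tendsto_intCast_atBot_iff.mpr tendsto_id),
        tendsto_abs_atTop_atTop.comp tendsto_intCast_atTop_atTop⟩
    exact tendsto_const_nhds.div_atTop h2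
  have h4 : Tendsto (fun m : ℤ => X (t, 1) 1 1 m) cofinite (𝓝 0) := by
    refine squeeze_zero_norm' ?_ h1
    have h3 : ∀ᶠ m : ℤ in cofinite, m ≠ 0 := by
      rw [eventually_cofinite]
      simp
    filter_upwards [h3] with m hm
    refine (RowA_norm_le ht hm).trans (le_of_eq ?_)
    rw [hC]
    have hmr : (0 : ℝ) < |(m : ℝ)| := abs_pos.mpr (by exact_mod_cast hm)
    field_simp
  have h5 := h4.const_mul (((‖w.2‖ ^ 2)⁻¹ : ℝ) : ℂ)
  rw [mul_zero] at h5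
  refine h5.congr fun m => ?_
  rw [RowA_scale hw m]

end D8
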