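import Mathlib
import Pool.Agent.D8.Defs
import Pool.Agent.D8.Bas

/-!
# D8/RowB: the holomorphic rows `X_20`, `X_30`

`EisensteinSeries.qExpansion_identity` at `z = m t`, `m ≥ 1`, and `X_neg` (PORT of RVP/RowB to a general `t`).
`X20_summable` for general lattices: `X w 2 0 m = w2⁻² X (w1/w2, 1) 2 0 m`.
-/

set_option autoImplicit false

open Filter Topology

namespace D8

private theorem rowB_norm_qq (t : ℂ) : ‖RV15W.qq t‖ = Real.exp (-(2 * Real.pi * t.im)) := by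
  unfold RV15W.qq
  rw [Complex.norm_exp]
  congr 1
  simp

private theorem rowB_qq_lt {t : ℂ} (ht : 0 < t.im) : ‖RV15W.qq t‖ < 1 := by
  rw [rowB_norm_qq, Real.exp_lt_one_iff]
  have := Real.pi_pos
  have : 0 < 2 * Real.pi * t.im := by positivity
  linarith

private theorem rowB_qqm_lt {t : ℂ} (ht : 0 < t.im) {m : ℕ} (hm : m ≠ 0) : ‖RV15W.qq t ^ m‖ < 1 := by
  rw [norm_pow]
  exact pow_lt_one₀ (norm_nonneg _) (rowB_qq_lt ht) hm

private theorem rowB_exp (t : ℂ) (m : ℕ) :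
    Complex.exp (2 * Real.pi * Complex.I * ((m : ℂ) * t)) = RV15W.qq t ^ m := by
  unfold RV15W.qq
  rw [← Complex.exp_nat_mul]
  congr 1
  ring

private theorem rowB_summ {k : ℕ} {r : ℂ} (hr : ‖r‖ < 1) :
    Summable fun n : ℕ => (n : ℂ) ^ k * r ^ n :=
  summable_pow_mul_geometric_of_norm_lt_one k hr

private theorem rowB_shift {k : ℕ} (hk : k ≠ 0) {r : ℂ} (hr : ‖r‖ < 1) :
    ∑' n : ℕ, (n : ℂ) ^ k * r ^ n = ∑' n : ℕ, ((n : ℂ) + 1) ^ k * r ^ (n + 1) := by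
  rw [(rowB_summ hr).tsum_eq_zero_add]
  simp [hk]

private theorem rowB_pos {t : ℂ} (ht : 0 < t.im) {k : ℕ} (hk : 1 ≤ k) {m : ℕ} (hm : m ≠ 0) :
    X (t, 1) (k + 1) 0 (m : ℤ) = ((-2 * Real.pi * Complex.I) ^ (k + 1) / (Nat.factorial k : ℂ)) *
      ∑' n : ℕ, ((n : ℂ) + 1) ^ k * RV15W.qq t ^ (m * (n + 1)) := by
  have hmp : 0 < (m : ℝ) := by
    have := Nat.pos_of_ne_zero hm
    exact_mod_cast this
  have hz : 0 < ((m : ℂ) * t).im := by
    have : ((m : ℂ) * t).im = (m : ℝ) * t.im := by simp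
    rw [this]
    positivity
  have h := EisensteinSeries.qExpansion_identity hk ⟨(m : ℂ) * t, hz⟩
  have h2 : X (t, 1) (k + 1) 0 (m : ℤ) = ∑' n : ℤ, 1 / ((m : ℂ) * t + n) ^ (k + 1) := by
    unfold X
    refine tsum_congr fun n => ?_
    have h3 : pt (t, 1) ((m : ℤ), n) = (m : ℂ) * t + n := by
      unfold pt
      simp
    simp only [iv, h3, pow_zero, mul_one, inv_pow, one_div]
  rw [h2]
  refine Eq.trans h ?_
  congr 1
  show ∑' n : ℕ, (n : ℂ) ^ k * Complex.exp (2 * Real.pi * Complex.I * ((m : ℂ) * t)) ^ n = _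
  rw [rowB_exp, rowB_shift (by omega) (rowB_qqm_lt ht hm)]
  refine tsum_congr fun n => ?_
  rw [← pow_mul]

theorem X20_zero (t : ℂ) : X (t, 1) 2 0 0 = ((Real.pi ^ 2 / 3 : ℝ) : ℂ) := by
  have h1 : ∀ n : ℤ, iv (t, 1) (0, n) ^ 2 * ic (t, 1) (0, n) ^ 0 = ((1 / (n : ℝ) ^ 2 : ℝ) : ℂ) := by
    intro n
    have h3 : pt (t, 1) ((0 : ℤ), n) = ((n : ℝ) : ℂ) := by
      unfold pt
      simp
    simp only [iv, h3, pow_zero, mul_one]
    push_cast
    rw [inv_pow, one_div]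
  unfold X
  simp_rw [h1]
  have h2 : HasSum (fun n : ℤ => (1 / (n : ℝ) ^ 2 : ℝ)) (Real.pi ^ 2 / 6 + Real.pi ^ 2 / 6) := by
    refine HasSum.of_nat_of_neg_add_one ?_ ?_
    · simpa using hasSum_zeta_two
    · have h4 := (hasSum_nat_add_iff' (f := fun n : ℕ => (1 / (n : ℝ) ^ 2 : ℝ)) 1).mpr hasSum_zeta_two
      have h5 : (fun n : ℕ => (1 / ((n + 1 : ℕ) : ℝ) ^ 2 : ℝ)) =
          fun n : ℕ => (1 / ((-((n : ℤ) + 1) : ℤ) : ℝ) ^ 2 : ℝ) := by
        funext n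
        push_cast
        congr 1
        ring
      rw [h5] at h4
      simpa using h4
  rw [← Complex.ofReal_tsum, h2.tsum_eq]
  congr 1
  ring

private theorem rowB_natAbs {w : ℂ × ℂ} {m : ℤ} {a : ℕ} (ha : Even a) :
    X w a 0 m = X w a 0 (m.natAbs : ℤ) := by
  rcases le_total 0 m with h | h
  · rw [Int.natAbs_of_nonneg h]
  · have h1 : ((m.natAbs : ℕ) : ℤ) = -m := by omega
    rw [h1, X_neg, add_zero, ha.neg_one_pow, one_mul]

theorem X20_eq {t : ℂ} (ht : 0 < t.im) {m : ℤ} (hm : m ≠ 0) :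
    X (t, 1) 2 0 m = -(4 * Real.pi ^ 2) * ∑' k : ℕ, ((k : ℂ) + 1) * RV15W.qq t ^ (m.natAbs * (k + 1)) := by
  rw [rowB_natAbs (by decide), rowB_pos ht (le_refl 1) (by simpa using hm)]
  have h1 : (-2 * Real.pi * Complex.I) ^ (1 + 1) / ((Nat.factorial 1 : ℕ) : ℂ) =
      -(4 * Real.pi ^ 2) := by
    rw [mul_pow, Complex.I_sq]
    norm_num
    ring
  rw [h1]
  simp only [pow_one]

theorem X30_eq {t : ℂ} (ht : 0 < t.im) {m : ℕ} (hm : m ≠ 0) :
    X (t, 1) 3 0 (m : ℤ) =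
      4 * Real.pi ^ 3 * Complex.I * ∑' k : ℕ, ((k : ℂ) + 1) ^ 2 * RV15W.qq t ^ (m * (k + 1)) := by
  rw [rowB_pos ht (k := 2) (by norm_num) hm]
  have h1 : (-2 * Real.pi * Complex.I) ^ (2 + 1) / ((Nat.factorial 2 : ℕ) : ℂ) =
      4 * Real.pi ^ 3 * Complex.I := by
    have h2 : (-2 * Real.pi * Complex.I) ^ (2 + 1) = -8 * Real.pi ^ 3 * (Complex.I ^ 2 * Complex.I) := by
      ring
    rw [h2, Complex.I_sq]
    norm_num [Nat.factorial]
    ring
  rw [h1]

private theorem rowB_scale {w : ℂ × ℂ} (hw : Good w) (m : ℤ) :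
    X w 2 0 m = (w.2⁻¹) ^ 2 * X (w.1 / w.2, 1) 2 0 m := by
  have h2 := hw.snd_ne
  unfold X
  rw [← tsum_mul_left]
  refine tsum_congr fun n => ?_
  have h3 : pt w (m, n) = w.2 * pt (w.1 / w.2, 1) (m, n) := by
    unfold pt
    field_simp
  simp only [iv, h3, mul_inv, mul_pow, pow_zero, mul_one]

theorem X20_summable {w : ℂ × ℂ} (hw : Good w) : Summable fun m : ℤ => ‖X w 2 0 m‖ := by
  set t : ℂ := w.1 / w.2 with htdef
  have ht : 0 < t.im := hw.im_pos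
  set r : ℝ := ‖RV15W.qq t‖ with hrdef
  have hr0 : 0 < r := by
    rw [hrdef, rowB_norm_qq]
    exact Real.exp_pos _
  have hr1 : r < 1 := rowB_qq_lt ht
  have hs0 : Summable fun n : ℕ => ((n : ℝ) + 1) * r ^ n := by
    have h1 : Summable fun n : ℕ => (n : ℝ) ^ 1 * r ^ n :=
      summable_pow_mul_geometric_of_norm_lt_one 1 (by rwa [Real.norm_of_nonneg hr0.le])
    have h2 : Summable fun n : ℕ => r ^ n := summable_geometric_of_lt_one hr0.le hr1
    refine (h1.add h2).congr fun n => ?_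
    ring
  have hs : ∀ m : ℤ, m ≠ 0 → ‖X (t, 1) 2 0 m‖ ≤
      (4 * Real.pi ^ 2 * ∑' n : ℕ, ((n : ℝ) + 1) * r ^ n) * r ^ m.natAbs := by
    intro m hm
    have hm1 : 1 ≤ m.natAbs := Nat.one_le_iff_ne_zero.mpr (by simpa using hm)
    rw [X20_eq ht hm, norm_mul]
    have h1 : ‖-(4 * (Real.pi : ℂ) ^ 2)‖ = 4 * Real.pi ^ 2 := by
      rw [norm_neg, norm_mul, norm_pow, Complex.norm_real, Real.norm_of_nonneg Real.pi_pos.le]
      norm_num
    rw [h1, mul_assoc (4 * Real.pi ^ 2) _ (r ^ m.natAbs)]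
    refine mul_le_mul_of_nonneg_left ?_ (by positivity)
    have hb : ∀ n : ℕ, ‖((n : ℂ) + 1) * RV15W.qq t ^ (m.natAbs * (n + 1))‖ ≤
        ((n : ℝ) + 1) * r ^ n * r ^ m.natAbs := by
      intro n
      rw [norm_mul, norm_pow, ← hrdef, mul_assoc, ← pow_add]
      have h3 : ‖((n : ℂ) + 1)‖ = (n : ℝ) + 1 := by
        have : ((n : ℂ) + 1) = (((n : ℝ) + 1 : ℝ) : ℂ) := by push_cast; rfl
        rw [this, Complex.norm_real, Real.norm_of_nonneg (by positivity)]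
      rw [h3]
      refine mul_le_mul_of_nonneg_left ?_ (by positivity)
      refine pow_le_pow_of_le_one hr0.le hr1.le ?_
      nlinarith
    have h4 := tsum_of_norm_bounded (hs0.mul_right (r ^ m.natAbs)).hasSum hb
    rwa [tsum_mul_right] at h4
  set Cc : ℝ := 4 * Real.pi ^ 2 * ∑' n : ℕ, ((n : ℝ) + 1) * r ^ n with hCc
  have hg : Summable fun n : ℕ => Cc * r ^ n := (summable_geometric_of_lt_one hr0.le hr1).mul_left _
  have hmain : Summable fun m : ℤ => ‖X (t, 1) 2 0 m‖ := by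
    refine Summable.of_nat_of_neg ?_ ?_
    · rw [← summable_nat_add_iff 1]
      refine Summable.of_nonneg_of_le (fun n => norm_nonneg _) (fun n => ?_)
        ((summable_nat_add_iff 1).mpr hg)
      have := hs ((n + 1 : ℕ) : ℤ) (by omega)
      rw [Int.natAbs_natCast] at this
      exact this
    · rw [← summable_nat_add_iff 1]
      refine Summable.of_nonneg_of_le (fun n => norm_nonneg _) (fun n => ?_)
        ((summable_nat_add_iff 1).mpr hg)
      have := hs (-((n + 1 : ℕ) : ℤ)) (by omega)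
      rw [Int.natAbs_neg, Int.natAbs_natCast] at this
      exact this
  refine (hmain.mul_left (‖w.2⁻¹‖ ^ 2)).congr fun m => ?_
  rw [rowB_scale hw m, norm_mul, norm_pow]

end D8
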