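import Mathlib
import Pool.Agent.D8.Defs
import Pool.Agent.D8.Bas
import Pool.Agent.D8.Wt
import Pool.Agent.D8.RowA
import Pool.Agent.D8.RowB
import Pool.Agent.D8W.Lf

/-!
# D8/GG: `Σ φ(m) X_11(m)` and `Σ φ(m) X_20(m)` on the lattice `(t, 1)`

`l = -πit + 6 Σ_{m,k ≥ 1} (φ(m)/m) q^{mk}` (from the definition: `lE(q) = -Σ_{n,k} q^{nk}/k`, and
`φ = 1 - 2·[2∣] - 3·[3∣] + 6·[6∣]`).  `G`: `φ(0) π²/3 + (2π/y) Σ_{m≥1} (φ(m)/m) (1 + 2 Re Σ_k q^{mk})`, `Σ_{m ≤ N} φ(m)/m → 0`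
(`φ(m)/m = (1 - 2·[2∣] ..)`: harmonic numbers `H_N - H_{N/2} - H_{N/3} + H_{N/6} → 0`), total `(2π/(3y)) Re l` (PORT of RVP/GG).
`e2 = φ(0) π²/3 - 8π² Σ φ(m) k q^{mk} = (2πi/3) l'`.
-/

set_option autoImplicit false

open Filter Topology

namespace D8

/-! ### the sum of the weights -/

private lemma GG_sg_nat (m : ℕ) : RVP.sg (m : ℤ) = if m % 2 = 0 then 1 else -1 := by
  unfold RVP.sg
  by_cases h : m % 2 = 0
  · rw [if_pos h, if_pos (by omega)]
  · rw [if_neg h, if_neg (by omega)]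

/-- alternating harmonic sums through harmonic numbers -/
private lemma GG_alt (N : ℕ) : ∑ m ∈ Finset.range N, RVP.sg ((m : ℤ) + 1) / ((m : ℝ) + 1) =
    (harmonic (N / 2) : ℝ) - harmonic N := by
  induction N with
  | zero => simp
  | succ N ih =>
    rw [Finset.sum_range_succ, ih]
    have h1 : RVP.sg ((N : ℤ) + 1) = if (N + 1) % 2 = 0 then 1 else -1 := by
      have := GG_sg_nat (N + 1)
      push_cast at this
      exact this
    rw [h1, harmonic_succ N]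
    have hN : (0 : ℝ) < (N : ℝ) + 1 := by positivity
    by_cases h : (N + 1) % 2 = 0
    · have h2 : (N + 1) / 2 = N / 2 + 1 := by omega
      have h3 : ((N / 2 + 1 : ℕ) : ℝ) = ((N : ℝ) + 1) / 2 := by
        have : 2 * (N / 2 + 1) = N + 1 := by omega
        have h4 : (2 : ℝ) * ((N / 2 + 1 : ℕ) : ℝ) = (N : ℝ) + 1 := by exact_mod_cast this
        linarith
      rw [if_pos h, h2, harmonic_succ]
      push_cast
      push_cast at h3
      rw [h3]
      field_simp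
      ring
    · have h2 : (N + 1) / 2 = N / 2 := by omega
      rw [if_neg h, h2]
      push_cast
      field_simp
      ring

private lemma GG_div_ratio {d : ℕ} (hd : 0 < d) :
    Tendsto (fun N : ℕ => ((N / d : ℕ) : ℝ) / N) atTop (𝓝 (1 / d)) := by
  have h := tendsto_nat_floor_mul_div_atTop (R := ℝ) (a := 1 / d) (by positivity)
  have h2 := h.comp (tendsto_natCast_atTop_atTop (R := ℝ))
  refine h2.congr fun N => ?_
  simp only [Function.comp]
  congr 2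
  have : (1 / (d : ℝ)) * (N : ℝ) = (N : ℝ) / (d : ℝ) := by ring
  rw [this, Nat.floor_div_natCast, Nat.floor_natCast]

private lemma GG_alt_lim : Tendsto (fun N : ℕ => ∑ m ∈ Finset.range N, RVP.sg ((m : ℤ) + 1) / ((m : ℝ) + 1))
    atTop (𝓝 (-Real.log 2)) := by
  simp only [GG_alt]
  have h1 := Real.tendsto_harmonic_sub_log
  have h2 := h1.comp (Nat.tendsto_div_const_atTop (n := 2) (by norm_num))
  have h3 := (GG_div_ratio (d := 2) (by norm_num)).log (by norm_num)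
  have h4 := (h2.add h3).sub h1
  have h5 : Real.eulerMascheroniConstant + Real.log (1 / (2 : ℕ)) - Real.eulerMascheroniConstant =
      -Real.log 2 := by
    rw [one_div, Real.log_inv]
    push_cast
    ring
  rw [h5] at h4
  refine h4.congr' ?_
  filter_upwards [eventually_ge_atTop 2] with N hN
  simp only [Function.comp]
  have h6 : 0 < N / 2 := Nat.div_pos hN (by norm_num)
  have h7 : ((N / 2 : ℕ) : ℝ) ≠ 0 := by positivity
  have h8 : (N : ℝ) ≠ 0 := by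
    have : 0 < N := by omega
    positivity
  rw [Real.log_div h7 h8]
  ring

private lemma GG_split (N : ℕ) : ∑ m ∈ Finset.range N, ph ((m : ℤ) + 1) / ((m : ℝ) + 1) =
    (∑ m ∈ Finset.range (N / 3), RVP.sg ((m : ℤ) + 1) / ((m : ℝ) + 1)) -
      ∑ m ∈ Finset.range N, RVP.sg ((m : ℤ) + 1) / ((m : ℝ) + 1) := by
  induction N with
  | zero => simp
  | succ N ih =>
    rw [Finset.sum_range_succ, Finset.sum_range_succ _ N, ih]
    by_cases h : (N + 1) % 3 = 0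
    · have h2 : (N + 1) / 3 = N / 3 + 1 := by omega
      rw [h2, Finset.sum_range_succ]
      have h3 : ph ((N : ℤ) + 1) = 2 * RVP.sg ((N : ℤ) + 1) := by
        unfold ph RVP.t3
        rw [if_pos (by omega)]
        ring
      have h4 : RVP.sg (((N / 3 : ℕ) : ℤ) + 1) = RVP.sg ((N : ℤ) + 1) := by
        unfold RVP.sg
        by_cases h5 : ((N : ℤ) + 1) % 2 = 0
        · rw [if_pos h5, if_pos (by omega)]
        · rw [if_neg h5, if_neg (by omega)]
      have h6 : (((N / 3 : ℕ) : ℝ) + 1) = ((N : ℝ) + 1) / 3 := by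
        have : 3 * (N / 3 + 1) = N + 1 := by omega
        have h4 : (3 : ℝ) * (((N / 3 : ℕ) : ℝ) + 1) = (N : ℝ) + 1 := by exact_mod_cast this
        linarith
      rw [h3, h4, h6]
      have hN : (0 : ℝ) < (N : ℝ) + 1 := by positivity
      field_simp
      ring
    · have h2 : (N + 1) / 3 = N / 3 := by omega
      have h3 : ph ((N : ℤ) + 1) = -RVP.sg ((N : ℤ) + 1) := by
        unfold ph RVP.t3
        rw [if_neg (by omega)]
        ring
      rw [h2, h3]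
      ring

private lemma GG_ph_sum : Tendsto (fun N : ℕ => ∑ m ∈ Finset.range N, ph ((m : ℤ) + 1) / ((m : ℝ) + 1)) atTop
    (𝓝 0) := by
  have h1 := GG_alt_lim
  have h2 := h1.comp (Nat.tendsto_div_const_atTop (n := 3) (by norm_num))
  have h3 := h2.sub h1
  rw [sub_self] at h3
  refine h3.congr fun N => ?_
  rw [GG_split]
  rfl

private lemma GG_Icc (f : ℤ → ℂ) (hf : ∀ m, f (-m) = f m) (N : ℕ) :
    ∑ m ∈ Finset.Icc (-(N : ℤ)) N, f m = f 0 + 2 * ∑ m ∈ Finset.range N, f ((m : ℤ) + 1) := by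
  induction N with
  | zero => simp
  | succ N ih =>
    have h1 : Finset.Icc (-((N + 1 : ℕ) : ℤ)) ((N + 1 : ℕ) : ℤ) =
        insert (-((N : ℤ) + 1)) (insert ((N : ℤ) + 1) (Finset.Icc (-(N : ℤ)) N)) := by
      ext x
      simp only [Finset.mem_insert, Finset.mem_Icc]
      push_cast
      omega
    rw [h1, Finset.sum_insert, Finset.sum_insert, ih, Finset.sum_range_succ, hf]
    · ring
    · simp
    · simp only [Finset.mem_insert, Finset.mem_Icc]
      omega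

/-! ### absolute convergence of the double series -/

private lemma GG_summ0 {r : ℝ} (h0 : 0 ≤ r) (h1 : r < 1) : Summable fun n : ℕ => ((n : ℝ) + 1) * r ^ n := by
  have h2 : Summable fun n : ℕ => (n : ℝ) ^ 1 * r ^ n :=
    summable_pow_mul_geometric_of_norm_lt_one 1 (by rwa [Real.norm_eq_abs, abs_of_nonneg h0])
  have h3 : Summable fun n : ℕ => r ^ n := summable_geometric_of_lt_one h0 h1
  refine (h2.add h3).congr fun n => ?_
  ring

private lemma GG_pow_le {r : ℝ} (h0 : 0 ≤ r) (h1 : r < 1) (a b : ℕ) :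
    r ^ ((a + 1) * (b + 1)) ≤ r ^ a * r ^ b := by
  rw [← pow_add]
  refine pow_le_pow_of_le_one h0 h1.le ?_
  nlinarith [Nat.zero_le (a * b)]

/-- `Σ (k+1) r^{(m+1)(k+1)}` converges -/
private lemma GG_summ {r : ℝ} (h0 : 0 ≤ r) (h1 : r < 1) : Summable fun x : ℕ × ℕ =>
    ((x.2 : ℝ) + 1) * r ^ ((x.1 + 1) * (x.2 + 1)) := by
  have h2 := Summable.mul_of_nonneg (summable_geometric_of_lt_one h0 h1) (GG_summ0 h0 h1)
    (fun n => by positivity) (fun n => by positivity)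
  refine Summable.of_nonneg_of_le (fun x => by positivity) (fun x => ?_) h2
  have h4 := GG_pow_le h0 h1 x.1 x.2
  calc ((x.2 : ℝ) + 1) * r ^ ((x.1 + 1) * (x.2 + 1)) ≤ ((x.2 : ℝ) + 1) * (r ^ x.1 * r ^ x.2) := by gcongr
    _ = r ^ x.1 * (((x.2 : ℝ) + 1) * r ^ x.2) := by ring

private lemma GG_summ1 {r : ℝ} (h0 : 0 ≤ r) (h1 : r < 1) : Summable fun x : ℕ × ℕ =>
    r ^ ((x.1 + 1) * (x.2 + 1)) := by
  refine Summable.of_nonneg_of_le (fun x => by positivity) (fun x => ?_) (GG_summ h0 h1)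
  have h3 : (0 : ℝ) ≤ (x.2 : ℝ) := by positivity
  have h4 : 0 ≤ r ^ ((x.1 + 1) * (x.2 + 1)) := by positivity
  nlinarith

private lemma GG_norm_cast (n : ℕ) : ‖((n : ℂ) + 1)‖ = (n : ℝ) + 1 := by
  have h : ((n : ℂ) + 1) = (((n : ℝ) + 1 : ℝ) : ℂ) := by push_cast; rfl
  rw [h, Complex.norm_real, Real.norm_of_nonneg (by positivity)]

private lemma GG_summC {q : ℂ} (hq : ‖q‖ < 1) (f : ℕ × ℕ → ℂ) {C : ℝ}
    (hf : ∀ x, ‖f x‖ ≤ C * (((x.2 : ℝ) + 1) * ‖q‖ ^ ((x.1 + 1) * (x.2 + 1)))) : Summable f :=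
  Summable.of_norm_bounded ((GG_summ (norm_nonneg q) hq).mul_left C) hf

/-- sum over the second variable inside -/
private lemma GG_fib {f : ℕ × ℕ → ℂ} {s : ℂ} (hf : HasSum f s) :
    HasSum (fun j : ℕ => ∑' k : ℕ, f (j, k)) s :=
  hf.prod_fiberwise fun j => (hf.summable.prod_factor j).hasSum

/-- sum over the first variable inside -/
private lemma GG_fib' {f : ℕ × ℕ → ℂ} {s : ℂ} (hf : HasSum f s) :
    HasSum (fun k : ℕ => ∑' j : ℕ, f (j, k)) s := by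
  have h1 : HasSum (fun x : ℕ × ℕ => f x.swap) s :=
    ((Equiv.prodComm ℕ ℕ).hasSum_iff (f := f) (a := s)).mpr hf
  exact GG_fib h1

/-- the double series of the logarithm of the Euler product -/
private lemma GG_lE {q : ℂ} (hq : ‖q‖ < 1) :
    HasSum (fun x : ℕ × ℕ => q ^ ((x.1 + 1) * (x.2 + 1)) / ((x.1 : ℂ) + 1)) (-D8W.lE q) := by
  have hs : Summable (fun x : ℕ × ℕ => q ^ ((x.1 + 1) * (x.2 + 1)) / ((x.1 : ℂ) + 1)) := by
    refine GG_summC hq _ (C := 1) fun x => ?_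
    rw [norm_div, norm_pow, GG_norm_cast, one_mul, div_le_iff₀ (by positivity)]
    have h3 : (0 : ℝ) ≤ (x.2 : ℝ) := by positivity
    have h5 : (0 : ℝ) ≤ (x.1 : ℝ) := by positivity
    have h4 : 0 ≤ ‖q‖ ^ ((x.1 + 1) * (x.2 + 1)) := by positivity
    have h6 : (1 : ℝ) ≤ ((x.2 : ℝ) + 1) * ((x.1 : ℝ) + 1) := by nlinarith [mul_nonneg h3 h5]
    nlinarith
  have h1 := GG_fib' hs.hasSum
  have h2 : ∀ k : ℕ, ∑' j : ℕ, q ^ ((j + 1) * (k + 1)) / ((j : ℂ) + 1) = -Complex.log (1 - q ^ (k + 1)) := by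
    intro k
    have hk : ‖q ^ (k + 1)‖ < 1 := by
      rw [norm_pow]
      exact pow_lt_one₀ (norm_nonneg _) hq (Nat.succ_ne_zero k)
    rw [← (Complex.hasSum_taylorSeries_neg_log' hk).tsum_eq]
    refine tsum_congr fun j => ?_
    rw [← pow_mul, Nat.mul_comm (k + 1) (j + 1)]
  simp only [h2] at h1
  have h3 : ∑' k : ℕ, -Complex.log (1 - q ^ (k + 1)) = -D8W.lE q := by
    rw [tsum_neg]
    rfl
  rw [← h3, h1.tsum_eq]
  exact hs.hasSum

/-- the same with `q^d` -/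
private lemma GG_lEd {q : ℂ} (hq : ‖q‖ < 1) {d : ℕ} (hd : 0 < d) :
    HasSum (fun x : ℕ × ℕ => if d ∣ x.1 + 1 then (d : ℂ) * (q ^ ((x.1 + 1) * (x.2 + 1)) / ((x.1 : ℂ) + 1))
      else 0) (-D8W.lE (q ^ d)) := by
  have hqd : ‖q ^ d‖ < 1 := by
    rw [norm_pow]
    exact pow_lt_one₀ (norm_nonneg _) hq (by omega)
  have h1 := GG_lE hqd
  let e : ℕ × ℕ → ℕ × ℕ := fun x => (d * (x.1 + 1) - 1, x.2)
  have hmul : ∀ n : ℕ, d * (n + 1) - 1 + 1 = d * (n + 1) := by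
    intro n
    have : 0 < d * (n + 1) := Nat.mul_pos hd (Nat.succ_pos n)
    omega
  have he : Function.Injective e := by
    rintro ⟨a, b⟩ ⟨a', b'⟩ h
    simp only [e, Prod.mk.injEq] at h
    have h2 : d * (a + 1) = d * (a' + 1) := by
      rw [← hmul a, ← hmul a', h.1]
    have h3 := Nat.eq_of_mul_eq_mul_left hd h2
    simp only [Prod.mk.injEq]
    exact ⟨by omega, h.2⟩
  refine (he.hasSum_iff ?_).mp ?_
  · intro x hx
    refine if_neg ?_
    rintro ⟨c, hc⟩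
    apply hx
    have hc0 : c ≠ 0 := by
      rintro rfl
      simp at hc
    obtain ⟨c', rfl⟩ := Nat.exists_eq_succ_of_ne_zero hc0
    refine ⟨(c', x.2), ?_⟩
    have h2 : d * (c' + 1) - 1 = x.1 := by
      rw [Nat.succ_eq_add_one] at hc
      omega
    simp only [e, h2]
  · have h3 : ((fun x : ℕ × ℕ => if d ∣ x.1 + 1 then
        (d : ℂ) * (q ^ ((x.1 + 1) * (x.2 + 1)) / ((x.1 : ℂ) + 1)) else 0) ∘ e) =
        fun x : ℕ × ℕ => (q ^ d) ^ ((x.1 + 1) * (x.2 + 1)) / ((x.1 : ℂ) + 1) := by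
      funext x
      have h4 : (((d * (x.1 + 1) - 1 : ℕ) : ℂ) + 1) = (d : ℂ) * ((x.1 : ℂ) + 1) := by
        have h5 : (((d * (x.1 + 1) - 1 + 1 : ℕ)) : ℂ) = ((d * (x.1 + 1) : ℕ) : ℂ) := by rw [hmul]
        push_cast at h5
        exact h5
      have h6 : (x.1 : ℂ) + 1 ≠ 0 := Nat.cast_add_one_ne_zero x.1
      have h7 : (d : ℂ) ≠ 0 := by
        have : d ≠ 0 := by omega
        exact_mod_cast this
      simp only [Function.comp, e, hmul, if_pos (Dvd.intro _ rfl : d ∣ d * (x.1 + 1)), h4]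
      rw [← pow_mul, Nat.mul_assoc]
      field_simp
    rw [h3]
    exact h1

private lemma GG_qq_norm (t : ℂ) : ‖RV15W.qq t‖ = Real.exp (-(2 * Real.pi * t.im)) := by
  unfold RV15W.qq
  rw [Complex.norm_exp]
  congr 1
  simp

private lemma GG_qq_lt {t : ℂ} (ht : 0 < t.im) : ‖RV15W.qq t‖ < 1 := by
  rw [GG_qq_norm, Real.exp_lt_one_iff]
  have := mul_pos Real.pi_pos ht
  linarith

private lemma GG_ph (n : ℕ) : (ph ((n : ℤ) + 1) : ℂ) =
    1 - (if 2 ∣ n + 1 then 2 else 0) - (if 3 ∣ n + 1 then 3 else 0) + (if 6 ∣ n + 1 then 6 else 0) := by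
  unfold ph RVP.sg RVP.t3
  by_cases h2 : (n + 1) % 2 = 0
  · by_cases h3 : (n + 1) % 3 = 0
    · rw [if_pos (by omega), if_pos (by omega), if_pos (by omega), if_pos (by omega), if_pos (by omega)]
      push_cast
      norm_num
    · rw [if_pos (by omega), if_neg (by omega), if_pos (by omega), if_neg (by omega), if_neg (by omega)]
      push_cast
      norm_num
  · by_cases h3 : (n + 1) % 3 = 0
    · rw [if_neg (by omega), if_pos (by omega), if_neg (by omega), if_pos (by omega), if_neg (by omega)]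
      push_cast
      norm_num
    · rw [if_neg (by omega), if_neg (by omega), if_neg (by omega), if_neg (by omega), if_neg (by omega)]
      push_cast
      norm_num

theorem l_series {t : ℂ} (ht : 0 < t.im) :
    HasSum (fun x : ℕ × ℕ => 6 * (ph (x.1 + 1) : ℂ) / (x.1 + 1) * RV15W.qq t ^ ((x.1 + 1) * (x.2 + 1)))
      (D8W.l t + Real.pi * Complex.I * t) := by
  have hq := GG_qq_lt ht
  have h1 := GG_lE hq
  have h2 := GG_lEd hq (d := 2) (by norm_num)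
  have h3 := GG_lEd hq (d := 3) (by norm_num)
  have h6 := GG_lEd hq (d := 6) (by norm_num)
  have h := (((h1.sub h2).sub h3).add h6).mul_left 6
  have e1 : 6 * (-D8W.lE (RV15W.qq t) - -D8W.lE (RV15W.qq t ^ 2) - -D8W.lE (RV15W.qq t ^ 3) +
      -D8W.lE (RV15W.qq t ^ 6)) = D8W.l t + Real.pi * Complex.I * t := by
    unfold D8W.l
    ring
  rw [e1] at h
  have e2 : (fun x : ℕ × ℕ => 6 * (RV15W.qq t ^ ((x.1 + 1) * (x.2 + 1)) / ((x.1 : ℂ) + 1) -
      (if 2 ∣ x.1 + 1 then ((2 : ℕ) : ℂ) * (RV15W.qq t ^ ((x.1 + 1) * (x.2 + 1)) / ((x.1 : ℂ) + 1)) else 0) -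
      (if 3 ∣ x.1 + 1 then ((3 : ℕ) : ℂ) * (RV15W.qq t ^ ((x.1 + 1) * (x.2 + 1)) / ((x.1 : ℂ) + 1)) else 0) +
      (if 6 ∣ x.1 + 1 then ((6 : ℕ) : ℂ) * (RV15W.qq t ^ ((x.1 + 1) * (x.2 + 1)) / ((x.1 : ℂ) + 1)) else 0))) =
      fun x : ℕ × ℕ => 6 * (ph ((x.1 : ℤ) + 1) : ℂ) / ((x.1 : ℂ) + 1) *
        RV15W.qq t ^ ((x.1 + 1) * (x.2 + 1)) := by
    funext x
    rw [GG_ph x.1]
    split_ifs <;> push_cast <;> ring
  rw [e2] at h
  exact h

private lemma GG_X11 {t : ℂ} (ht : 0 < t.im) (m : ℕ) :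
    (ph ((m : ℤ) + 1) : ℂ) * X (t, 1) 1 1 ((m : ℤ) + 1) =
      ((Real.pi / t.im * (ph ((m : ℤ) + 1) / ((m : ℝ) + 1)) + Real.pi / (3 * t.im) *
        (∑' k : ℕ, 6 * (ph ((m : ℤ) + 1) : ℂ) / ((m : ℂ) + 1) * RV15W.qq t ^ ((m + 1) * (k + 1))).re : ℝ) : ℂ) := by
  have hm : ((m : ℤ) + 1) ≠ 0 := by omega
  rw [X11_eq ht hm, ← Complex.ofReal_mul]
  congr 1
  have h7 : ((m : ℤ) + 1).natAbs = m + 1 := by omega
  have h8 : |((((m : ℤ) + 1 : ℤ)) : ℝ)| = (m : ℝ) + 1 := by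
    push_cast
    exact abs_of_nonneg (by positivity)
  rw [h7, h8, tsum_mul_left]
  have h9 : (6 * (ph ((m : ℤ) + 1) : ℂ) / ((m : ℂ) + 1)) = ((6 * ph ((m : ℤ) + 1) / ((m : ℝ) + 1) : ℝ) : ℂ) := by
    push_cast
    rfl
  rw [h9, Complex.re_ofReal_mul]
  have hm1 : (m : ℝ) + 1 ≠ 0 := by positivity
  have := ht.ne'
  field_simp
  ring

theorem G_tendsto {t : ℂ} (ht : 0 < t.im) :
    Tendsto (Gs (t, 1)) atTop (𝓝 ((2 * Real.pi / (3 * t.im) * (D8W.l t).re : ℝ) : ℂ)) := by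
  have h1 := (GG_fib (l_series ht)).tendsto_sum_nat
  have h2 := (Complex.continuous_re.tendsto _).comp h1
  have h3 := (((GG_ph_sum.const_mul (2 * Real.pi / t.im)).add
    (h2.const_mul (2 * Real.pi / (3 * t.im)))).const_add (2 * Real.pi ^ 2 / 3))
  have h4 : 2 * Real.pi ^ 2 / 3 + (2 * Real.pi / t.im * 0 + 2 * Real.pi / (3 * t.im) *
      (D8W.l t + Real.pi * Complex.I * t).re) = 2 * Real.pi / (3 * t.im) * (D8W.l t).re := by
    have h5 : (D8W.l t + Real.pi * Complex.I * t).re = (D8W.l t).re - Real.pi * t.im := by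
      simp
      ring
    rw [h5]
    have := ht.ne'
    field_simp
    ring
  rw [h4] at h3
  have h5 := (Complex.continuous_ofReal.tendsto _).comp h3
  refine h5.congr fun N => ?_
  unfold Gs
  rw [GG_Icc (fun m => (ph m : ℂ) * X (t, 1) 1 1 m)
    (fun m => by rw [ph_neg, X_neg]; norm_num) N]
  simp only [Function.comp]
  rw [ph_zero, X11_zero]
  simp only [GG_X11 ht]
  rw [← Complex.ofReal_sum, Finset.sum_add_distrib, ← Finset.mul_sum, ← Finset.mul_sum, Complex.re_sum]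
  push_cast
  ring

/-! ### the derivative -/

private lemma GG_qq_deriv (t : ℂ) : HasDerivAt RV15W.qq (2 * Real.pi * Complex.I * RV15W.qq t) t := by
  unfold RV15W.qq
  have h := ((hasDerivAt_id t).const_mul (2 * (Real.pi : ℂ) * Complex.I)).cexp
  simp only [id, mul_one] at h
  exact h.congr_deriv (by ring)

private lemma GG_deriv {t : ℂ} (ht : 0 < t.im) :
    HasDerivAt D8W.l (-(Real.pi * Complex.I) + ∑' x : ℕ × ℕ, 12 * Real.pi * Complex.I *
      ((ph ((x.1 : ℤ) + 1) : ℂ) * ((x.2 : ℂ) + 1) * RV15W.qq t ^ ((x.1 + 1) * (x.2 + 1)))) t := by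
  obtain ⟨c, hc0, hct⟩ := exists_between ht
  set r : ℝ := Real.exp (-(2 * Real.pi * c)) with hr
  have hr0 : 0 ≤ r := (Real.exp_pos _).le
  have hr1 : r < 1 := by
    rw [hr, Real.exp_lt_one_iff]
    have := mul_pos Real.pi_pos hc0
    linarith
  have hopen : IsOpen {z : ℂ | c < z.im} := isOpen_lt continuous_const Complex.continuous_im
  have hconv : Convex ℝ {z : ℂ | c < z.im} := convex_halfSpace_im_gt c
  have hser := hasDerivAt_tsum_of_isPreconnected (𝕜 := ℂ)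
    (g := fun (x : ℕ × ℕ) (z : ℂ) => 6 * (ph ((x.1 : ℤ) + 1) : ℂ) / ((x.1 : ℂ) + 1) *
      RV15W.qq z ^ ((x.1 + 1) * (x.2 + 1)))
    (g' := fun (x : ℕ × ℕ) (z : ℂ) => 12 * Real.pi * Complex.I *
      ((ph ((x.1 : ℤ) + 1) : ℂ) * ((x.2 : ℂ) + 1) * RV15W.qq z ^ ((x.1 + 1) * (x.2 + 1))))
    (u := fun x : ℕ × ℕ => 48 * Real.pi * (((x.2 : ℝ) + 1) * r ^ ((x.1 + 1) * (x.2 + 1))))
    (t := {z : ℂ | c < z.im}) (y₀ := t) (y := t)
    ((GG_summ hr0 hr1).mul_left _) hopen hconv.isPreconnected ?_ ?_ hct (l_series ht).summable hct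
  · have h1 : HasDerivAt (fun z : ℂ => -(Real.pi * Complex.I * z) +
        ∑' x : ℕ × ℕ, 6 * (ph ((x.1 : ℤ) + 1) : ℂ) / ((x.1 : ℂ) + 1) *
          RV15W.qq z ^ ((x.1 + 1) * (x.2 + 1))) (-(Real.pi * Complex.I * 1) +
        ∑' x : ℕ × ℕ, 12 * Real.pi * Complex.I *
      ((ph ((x.1 : ℤ) + 1) : ℂ) * ((x.2 : ℂ) + 1) * RV15W.qq t ^ ((x.1 + 1) * (x.2 + 1)))) t :=
      ((hasDerivAt_id' t).const_mul _).fun_neg.add hser
    rw [mul_one] at h1
    refine h1.congr_of_eventuallyEq ?_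
    filter_upwards [(isOpen_lt continuous_const Complex.continuous_im).mem_nhds
      (show t ∈ {z : ℂ | 0 < z.im} from ht)] with z hz
    have h2 := (l_series (t := z) hz).tsum_eq
    rw [h2]
    ring
  · intro x z hz
    have h1 := ((GG_qq_deriv z).fun_pow ((x.1 + 1) * (x.2 + 1))).const_mul
      (6 * (ph ((x.1 : ℤ) + 1) : ℂ) / ((x.1 : ℂ) + 1))
    refine h1.congr_deriv ?_
    have h3 : (x.1 : ℂ) + 1 ≠ 0 := Nat.cast_add_one_ne_zero x.1
    have h4 : RV15W.qq z ^ ((x.1 + 1) * (x.2 + 1)) =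
        RV15W.qq z ^ ((x.1 + 1) * (x.2 + 1) - 1) * RV15W.qq z := by
      rw [← pow_succ, Nat.sub_add_cancel (Nat.mul_pos (Nat.succ_pos _) (Nat.succ_pos _))]
    rw [h4]
    push_cast
    field_simp
    ring
  · intro x z hz
    have hz' : c < z.im := hz
    have h1 : ‖RV15W.qq z‖ ≤ r := by
      rw [GG_qq_norm, hr, Real.exp_le_exp]
      have := mul_lt_mul_of_pos_left hz' Real.pi_pos
      linarith
    have h2 := ph_abs ((x.1 : ℤ) + 1)
    have h5 : ‖(12 * Real.pi * Complex.I : ℂ)‖ = 12 * Real.pi := by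
      rw [norm_mul, norm_mul, Complex.norm_I, Complex.norm_real, Real.norm_of_nonneg Real.pi_pos.le]
      norm_num
    rw [norm_mul (12 * (Real.pi : ℂ) * Complex.I), h5, norm_mul, norm_mul, norm_pow, GG_norm_cast, Complex.norm_real,
      Real.norm_eq_abs]
    have h6 : ‖RV15W.qq z‖ ^ ((x.1 + 1) * (x.2 + 1)) ≤ r ^ ((x.1 + 1) * (x.2 + 1)) :=
      pow_le_pow_left₀ (norm_nonneg _) h1 _
    have hpi := Real.pi_pos
    calc 12 * Real.pi * (|ph ((x.1 : ℤ) + 1)| * ((x.2 : ℝ) + 1) * ‖RV15W.qq z‖ ^ ((x.1 + 1) * (x.2 + 1)))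
        ≤ 12 * Real.pi * (4 * ((x.2 : ℝ) + 1) * r ^ ((x.1 + 1) * (x.2 + 1))) := by gcongr
      _ = 48 * Real.pi * (((x.2 : ℝ) + 1) * r ^ ((x.1 + 1) * (x.2 + 1))) := by ring

private lemma GG_e2 {t : ℂ} (ht : 0 < t.im) : e2 (t, 1) = 2 * Real.pi ^ 2 / 3 - 8 * Real.pi ^ 2 *
    ∑' x : ℕ × ℕ, (ph ((x.1 : ℤ) + 1) : ℂ) * ((x.2 : ℂ) + 1) * RV15W.qq t ^ ((x.1 + 1) * (x.2 + 1)) := by
  have hq := GG_qq_lt ht
  have hs : Summable fun m : ℤ => (ph m : ℂ) * X (t, 1) 2 0 m := by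
    refine Summable.of_norm_bounded ((X20_summable (good_one ht)).mul_left 4) fun m => ?_
    rw [norm_mul, Complex.norm_real, Real.norm_eq_abs]
    exact mul_le_mul_of_nonneg_right (ph_abs m) (norm_nonneg _)
  have hsum : Summable fun x : ℕ × ℕ =>
      (ph ((x.1 : ℤ) + 1) : ℂ) * ((x.2 : ℂ) + 1) * RV15W.qq t ^ ((x.1 + 1) * (x.2 + 1)) := by
    refine GG_summC hq _ (C := 4) fun x => ?_
    rw [norm_mul, norm_mul, norm_pow, GG_norm_cast, Complex.norm_real, Real.norm_eq_abs, mul_assoc]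
    exact mul_le_mul_of_nonneg_right (ph_abs _) (by positivity)
  have h1 := (GG_fib hsum.hasSum).tendsto_sum_nat
  have h3 := ((h1.const_mul (-(8 * (Real.pi : ℂ) ^ 2))).const_add (2 * (Real.pi : ℂ) ^ 2 / 3))
  have h6 : Tendsto (fun N : ℕ => ∑ m ∈ Finset.Icc (-(N : ℤ)) N, (ph m : ℂ) * X (t, 1) 2 0 m) atTop
      (𝓝 (e2 (t, 1))) := by
    refine hs.hasSum.comp ?_
    refine tendsto_atTop_finset_of_monotone ?_ ?_
    · intro a b hab
      apply Finset.Icc_subset_Icc <;> omega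
    · intro x
      refine ⟨x.natAbs, ?_⟩
      rw [Finset.mem_Icc]
      omega
  have h8 : e2 (t, 1) = 2 * (Real.pi : ℂ) ^ 2 / 3 + -(8 * (Real.pi : ℂ) ^ 2) *
      ∑' x : ℕ × ℕ, (ph ((x.1 : ℤ) + 1) : ℂ) * ((x.2 : ℂ) + 1) *
        RV15W.qq t ^ ((x.1 + 1) * (x.2 + 1)) := by
    refine tendsto_nhds_unique h6 (h3.congr fun N => ?_)
    rw [GG_Icc (fun m => (ph m : ℂ) * X (t, 1) 2 0 m)
      (fun m => by rw [ph_neg, X_neg]; norm_num) N]
    rw [ph_zero, X20_zero]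
    have h7 : ∀ m : ℕ, (ph ((m : ℤ) + 1) : ℂ) * X (t, 1) 2 0 ((m : ℤ) + 1) =
        -(4 * (Real.pi : ℂ) ^ 2) *
          ∑' k : ℕ, (ph ((m : ℤ) + 1) : ℂ) * ((k : ℂ) + 1) * RV15W.qq t ^ ((m + 1) * (k + 1)) := by
      intro m
      have hm : ((m : ℤ) + 1) ≠ 0 := by omega
      have h7 : ((m : ℤ) + 1).natAbs = m + 1 := by omega
      rw [X20_eq ht hm, h7, mul_left_comm, ← tsum_mul_left]
      congr 1
      refine tsum_congr fun k => ?_
      ring
    simp only [h7]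
    rw [← Finset.mul_sum]
    push_cast
    ring
  rw [h8]
  ring

theorem l_e2 {t : ℂ} (ht : 0 < t.im) :
    HasDerivAt D8W.l (3 / (2 * Real.pi * Complex.I) * e2 (t, 1)) t := by
  refine (GG_deriv ht).congr_deriv ?_
  rw [GG_e2 ht, tsum_mul_left]
  have hpi : (Real.pi : ℂ) ≠ 0 := by exact_mod_cast Real.pi_ne_zero
  have hI : Complex.I ≠ 0 := Complex.I_ne_zero
  have hI2 : Complex.I ^ 2 = -1 := Complex.I_sq
  field_simp
  linear_combination (-2 + 24 * ∑' x : ℕ × ℕ, (ph ((x.1 : ℤ) + 1) : ℂ) * ((x.2 : ℂ) + 1) *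
        RV15W.qq t ^ ((x.1 + 1) * (x.2 + 1))) * hI2

end D8
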