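import Mathlib
import Pool.Agent.D8.Defs
import Pool.Agent.D8.Bas

/-!
# D8/Scal: homogeneity

`pt (c w) v = c pt w v`.  No convergence is needed (`tsum_mul_left`).  `wp Y = ((1+iY) tY, (1+iY) 1)`.
-/

set_option autoImplicit false

open scoped ComplexConjugate

namespace D8

private theorem Scal_pt (c : ℂ) (w : ℂ × ℂ) (v : ℤ × ℤ) :
    pt (c * w.1, c * w.2) v = c * pt w v := by
  unfold pt
  ring

private theorem Scal_iv (c : ℂ) (w : ℂ × ℂ) (v : ℤ × ℤ) :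
    iv (c * w.1, c * w.2) v = c⁻¹ * iv w v := by
  unfold iv
  rw [Scal_pt, mul_inv]

private theorem Scal_ic (c : ℂ) (w : ℂ × ℂ) (v : ℤ × ℤ) :
    ic (c * w.1, c * w.2) v = (conj c)⁻¹ * ic w v := by
  unfold ic
  rw [Scal_pt, map_mul, mul_inv]

theorem X_smul (c : ℂ) (w : ℂ × ℂ) (a b : ℕ) (m : ℤ) :
    X (c * w.1, c * w.2) a b m = c⁻¹ ^ a * (conj c)⁻¹ ^ b * X w a b m := by
  unfold X
  rw [← tsum_mul_left]
  refine tsum_congr fun n => ?_
  rw [Scal_iv, Scal_ic, mul_pow, mul_pow]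
  ring

theorem W_smul (c : ℂ) (w : ℂ × ℂ) (a b : ℕ) :
    W (c * w.1, c * w.2) a b = c⁻¹ ^ a * (conj c)⁻¹ ^ b * W w a b := by
  unfold W
  rw [← tsum_mul_left]
  refine tsum_congr fun n => ?_
  rw [X_smul]
  ring

theorem e2_smul (c : ℂ) (w : ℂ × ℂ) : e2 (c * w.1, c * w.2) = c⁻¹ ^ 2 * e2 w := by
  unfold e2
  rw [← tsum_mul_left]
  refine tsum_congr fun n => ?_
  rw [X_smul]
  ring

theorem Gs_smul (c : ℂ) (w : ℂ × ℂ) (N : ℕ) :
    Gs (c * w.1, c * w.2) N = c⁻¹ * (conj c)⁻¹ * Gs w N := by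
  unfold Gs
  rw [Finset.mul_sum]
  refine Finset.sum_congr rfl fun n _ => ?_
  rw [X_smul]
  ring

theorem D2_smul (c : ℂ) (w : ℂ × ℂ) : D2 (c * w.1, c * w.2) = c⁻¹ ^ 4 * (conj c)⁻¹ ^ 2 * D2 w := by
  unfold D2
  rw [mul_add, ← tsum_mul_left, ← tsum_mul_left]
  congr 1
  · refine tsum_congr fun x => ?_
    unfold KK
    rw [Scal_iv, Scal_ic, Scal_iv, Scal_ic]
    ring
  · refine tsum_congr fun x => ?_
    unfold K1
    rw [Scal_iv, Scal_ic]
    ring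

theorem wp_eq (Y : ℝ) : wp Y = ((1 + Y * Complex.I) * tY Y, (1 + Y * Complex.I) * 1) := by
  have h : (1 : ℂ) + Y * Complex.I ≠ 0 := by
    intro h
    have := congrArg Complex.re h
    simp at this
  apply Prod.ext
  · change (wp Y).1 = (1 + Y * Complex.I) * ((wp Y).1 / (1 + Y * Complex.I))
    rw [mul_div_cancel₀ _ h]
  · change (1 : ℂ) + Y * Complex.I = (1 + Y * Complex.I) * 1
    rw [mul_one]

end D8
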