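import Mathlib
import Pool.Agent.D8.Defs
import Pool.Agent.D8.Bas
import Pool.Agent.D8.Scal
import Pool.Agent.D8.GG
import Pool.Agent.D8.Der
import Pool.Agent.D8W.Lf
import Pool.Agent.RV15W.Fri
import Pool.Agent.D8M.ZC

/-!
# D8/Arc: the function `l` on the arc

`t = tY Y = (r1 + iY r2)/(1 + iY)`, `2t - 1 = (1/√3)(iY - 1)/(iY + 1)`, `3t (2 conj t - 1) = 3 conj t - 1`.
`a = RV15W.ca ∘ qq`: periodic, `a(-conj t) = conj a(t)`, `a(-1/(3t)) = (√3 t/i) a(t)` (RV15W/Fri, complex t), `a(γt) = (3t·.. )`: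
for `γ = (-2,-1;3,1)` and `t' = -conj t`: `-1/(3t) = γ t'`, so `(√3 t/i) a(t) = (1 - 3 conj t) conj a(t)`, and with `2t`:
`(√3 t/i) a(2t) = -(1 - 3 conj t) conj a(2t)` (`γ`-transformations = `ca_fricke` twice and periodicity, as in D8W/Lf).
With `κ = -i√3 (2 conj t - 1)` (`|κ| = 1`): `a(t)² = κ |a(t)|²`, `a(2t)² = -κ |a(2t)|²`, hence
`dl/dY = l'(t) t'(Y)`, `l' = πi (a(t)² - 2 a(2t)²) = πi κ (|a(t)|² + 2|a(2t)|²)`, `t' = i/(√3 (1+iY)²)`, is purely imaginary.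
So `Re l` is constant on the arc, `= 0` as `l(t0) = 0` (`D8W.l_cm`; `tY Y0 = t0`).  At `Y = 1`: `t = 1/2 + iy`,
`l(1/2 + iy) = -πi/2 + real`.
-/

set_option autoImplicit false

open Filter Topology
open scoped ComplexConjugate

namespace D8

private theorem Arc_s3 : ((Real.sqrt 3 : ℝ) : ℂ) ^ 2 = 3 := by
  rw [← Complex.ofReal_pow, Real.sq_sqrt (by norm_num)]
  norm_num

private theorem Arc_s3_pos : 0 < Real.sqrt 3 := Real.sqrt_pos.mpr (by norm_num)

private theorem Arc_s3_ne : ((Real.sqrt 3 : ℝ) : ℂ) ≠ 0 := by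
  exact_mod_cast Arc_s3_pos.ne'

private theorem Arc_r1 : ((r1 : ℝ) : ℂ) = (3 - (Real.sqrt 3 : ℝ)) / 6 := by
  unfold r1
  push_cast
  rfl

private theorem Arc_r2 : ((r2 : ℝ) : ℂ) = (3 + (Real.sqrt 3 : ℝ)) / 6 := by
  unfold r2
  push_cast
  rfl

private theorem Arc_den (Y : ℝ) : (1 : ℂ) + Y * Complex.I ≠ 0 := by
  intro h
  have := congrArg Complex.re h
  simp at this

private theorem Arc_den' (Y : ℝ) : (1 : ℂ) - Y * Complex.I ≠ 0 := by
  intro h
  have := congrArg Complex.re h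
  simp at this

private theorem Arc_t (Y : ℝ) : tY Y = (r1 + Y * r2 * Complex.I) / (1 + Y * Complex.I) := rfl

private theorem Arc_conj (Y : ℝ) :
    conj (tY Y) = (r1 - Y * r2 * Complex.I) / (1 - Y * Complex.I) := by
  rw [Arc_t]
  simp only [map_div₀, map_add, map_mul, Complex.conj_ofReal, Complex.conj_I, map_one]
  congr 1 <;> ring

private theorem Arc_sub (Y : ℝ) :
    1 - 2 * tY Y = (1 - Y * Complex.I) / ((Real.sqrt 3 : ℝ) * (1 + Y * Complex.I)) := by
  have h1 := Arc_den Y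
  have h3 := Arc_s3_ne
  have h4 := Arc_s3
  rw [Arc_t, Arc_r1, Arc_r2]
  generalize ((Real.sqrt 3 : ℝ) : ℂ) = s at *
  field_simp
  linear_combination (2 - 2 * (Y : ℂ) * Complex.I) * h4

private theorem Arc_sub' (Y : ℝ) :
    1 - 2 * conj (tY Y) = (1 + Y * Complex.I) / ((Real.sqrt 3 : ℝ) * (1 - Y * Complex.I)) := by
  have h1 := Arc_den' Y
  have h3 := Arc_s3_ne
  have h4 := Arc_s3
  rw [Arc_conj, Arc_r1, Arc_r2]
  generalize ((Real.sqrt 3 : ℝ) : ℂ) = s at *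
  field_simp
  linear_combination (2 + 2 * (Y : ℂ) * Complex.I) * h4

private theorem Arc_rel (Y : ℝ) : 3 * tY Y * (2 * conj (tY Y) - 1) = 3 * conj (tY Y) - 1 := by
  have h1 := Arc_sub Y
  have h2 := Arc_sub' Y
  have h3 : (1 - 2 * tY Y) * (1 - 2 * conj (tY Y)) = 1 / 3 := by
    rw [h1, h2]
    have h4 := Arc_den Y
    have h5 := Arc_den' Y
    have h6 := Arc_s3_ne
    have h7 := Arc_s3
    generalize ((Real.sqrt 3 : ℝ) : ℂ) = s at *
    field_simp
    linear_combination -h7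
  linear_combination (3 / 2 : ℂ) * h3

theorem tY_im {Y : ℝ} (hY : 0 < Y) : 0 < (tY Y).im := (good_wp hY).im_pos

theorem tY_deriv (Y : ℝ) :
    HasDerivAt (fun s : ℝ => tY s) (Complex.I / (Real.sqrt 3 * (1 + Y * Complex.I) ^ 2)) Y := by
  have h0 : HasDerivAt (fun s : ℝ => (s : ℂ)) 1 Y := by
    simpa using (hasDerivAt_id Y).ofReal_comp
  have h1 : HasDerivAt (fun s : ℝ => (r1 : ℂ) + s * r2 * Complex.I) (1 * r2 * Complex.I) Y :=
    ((h0.mul_const _).mul_const _).const_add _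
  have h2 : HasDerivAt (fun s : ℝ => (1 : ℂ) + s * Complex.I) (1 * Complex.I) Y :=
    (h0.mul_const _).const_add _
  have h3 := h1.fun_div h2 (Arc_den Y)
  refine h3.congr_deriv ?_
  have h4 := Arc_den Y
  have h6 := Arc_s3_ne
  have h7 := Arc_s3
  rw [Arc_r1, Arc_r2]
  generalize ((Real.sqrt 3 : ℝ) : ℂ) = s at *
  rw [div_eq_div_iff (pow_ne_zero 2 h4) (mul_ne_zero h6 (pow_ne_zero 2 h4))]
  linear_combination ((1 + (Y : ℂ) * Complex.I) ^ 2 * Complex.I / 3) * h7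

theorem tY_one : tY 1 = D8W.pt (1 / 2) (Real.sqrt 3 / 6) := by
  have h4 := Arc_den 1
  have h7 := Arc_s3
  rw [Arc_t, Arc_r1, Arc_r2, D8W.pt, div_eq_iff h4]
  push_cast
  generalize ((Real.sqrt 3 : ℝ) : ℂ) = s at *
  linear_combination (-s / 6) * Complex.I_mul_I

private theorem Arc_sq2 : Real.sqrt 2 ^ 2 = 2 := Real.sq_sqrt (by norm_num)

private theorem Arc_sq6 : Real.sqrt 6 = Real.sqrt 2 * Real.sqrt 3 := by
  rw [← Real.sqrt_mul (by norm_num)]
  norm_num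

theorem Y0_pos : 0 < Y0 := by
  unfold Y0
  have : Real.sqrt 2 < Real.sqrt 6 := Real.sqrt_lt_sqrt (by norm_num) (by norm_num)
  linarith

theorem Y0_lt : Y0 < 1 := by
  unfold Y0
  have h1 : Real.sqrt 6 < 5 / 2 := by
    rw [Real.sqrt_lt' (by norm_num)]
    norm_num
  have h2 : (1 : ℝ) < Real.sqrt 2 := by
    rw [Real.lt_sqrt (by norm_num)]
    norm_num
  linarith

theorem tY_Y0 : tY Y0 = t0 := by
  have h4 := Arc_den Y0
  have h7 := Arc_s3
  have h8 : ((Real.sqrt 2 : ℝ) : ℂ) ^ 2 = 2 := by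
    rw [← Complex.ofReal_pow, Arc_sq2]
    norm_num
  have h9 : ((Y0 : ℝ) : ℂ) = ((Real.sqrt 2 : ℝ) : ℂ) * (((Real.sqrt 3 : ℝ) : ℂ) - 1) / 2 := by
    unfold Y0
    rw [Arc_sq6]
    push_cast
    ring
  rw [Arc_t, Arc_r1, Arc_r2, t0, D8W.pt, D8W.y0, div_eq_iff h4, h9]
  push_cast
  generalize ((Real.sqrt 3 : ℝ) : ℂ) = s at *
  generalize ((Real.sqrt 2 : ℝ) : ℂ) = r at *
  linear_combination (r * Complex.I / 12) * h7 - (s - 1) / 12 * Complex.I ^ 2 * h8 -
    (s - 1) / 6 * Complex.I_mul_I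

/-! ### transformations -/

private theorem Arc_ca_conj (q : ℂ) : RV15W.ca (conj q) = conj (RV15W.ca q) := by
  unfold RV15W.ca
  rw [Complex.conj_tsum]
  refine tsum_congr fun v => ?_
  rw [map_zpow₀]

private theorem Arc_qq_conj (t : ℂ) : RV15W.qq (-conj t) = conj (RV15W.qq t) := by
  unfold RV15W.qq
  rw [← Complex.exp_conj]
  congr 1
  simp only [map_mul, Complex.conj_I, Complex.conj_ofReal, map_ofNat]
  ring

private theorem Arc_qq_add (t : ℂ) : RV15W.qq (t + 1) = RV15W.qq t := by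
  unfold RV15W.qq
  rw [mul_add, Complex.exp_add, mul_one, Complex.exp_two_pi_mul_I, mul_one]

private theorem Arc_qq_two (t : ℂ) : RV15W.qq (2 * t) = RV15W.qq t ^ 2 := by
  unfold RV15W.qq
  rw [← Complex.exp_nat_mul]
  congr 1
  push_cast
  ring

private theorem Arc_ne {t : ℂ} (ht : 0 < t.im) : t ≠ 0 := by
  rintro rfl
  simp at ht

private theorem Arc_inv_im {t : ℂ} (ht : 0 < t.im) : 0 < (-1 / (3 * t)).im := by
  have h0 := Arc_ne ht
  have h1 : (-1 / (3 * t) : ℂ) = -(3 * t)⁻¹ := by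
    rw [neg_div, one_div]
  rw [h1, Complex.neg_im, Complex.inv_im]
  have h2 : 0 < (3 * t).im := by simpa using ht
  have h3 : 0 < Complex.normSq (3 * t) := Complex.normSq_pos.mpr (mul_ne_zero (by norm_num) h0)
  rw [neg_div, neg_neg]
  positivity

private theorem Arc_key1 {t : ℂ} (ht : 0 < t.im) (hr : 3 * t * (2 * conj t - 1) = 3 * conj t - 1) :
    conj (RV15W.ca (RV15W.qq t)) =
      (Real.sqrt 3 : ℂ) / Complex.I * (1 - 2 * t) * RV15W.ca (RV15W.qq t) := by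
  have h0 := Arc_ne ht
  have hr' : 3 * conj t * (2 * t - 1) = 3 * t - 1 := by
    have := congrArg conj hr
    simpa only [map_mul, map_sub, map_one, map_ofNat, Complex.conj_conj] using this
  have hn : (1 : ℂ) - 2 * t ≠ 0 := by
    intro h
    have := congrArg Complex.im h
    simp at this
    exact ht.ne' this
  have him : 0 < (-1 / (3 * t) + 1).im := by
    rw [Complex.add_im, Complex.one_im, add_zero]
    exact Arc_inv_im ht
  have h1 := D8M.ca_move him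
  have h2 : (1 : ℂ) - 3 * (-1 / (3 * t) + 1) = (1 - 2 * t) / t := by
    field_simp
    ring
  have h3 : (-1 / (3 * t) + 1) / (1 - 3 * (-1 / (3 * t) + 1)) = -conj t := by
    rw [h2, div_eq_iff (div_ne_zero hn h0)]
    field_simp
    linear_combination -hr'
  rw [h3, h2, Arc_qq_conj, Arc_ca_conj, Arc_qq_add, RV15W.ca_fricke t ht] at h1
  rw [h1]
  have hI := Complex.I_ne_zero
  field_simp

private theorem Arc_key2 {t : ℂ} (ht : 0 < t.im) (hr : 3 * t * (2 * conj t - 1) = 3 * conj t - 1) :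
    conj (RV15W.ca (RV15W.qq t ^ 2)) =
      -((Real.sqrt 3 : ℂ) / Complex.I * (1 - 2 * t) * RV15W.ca (RV15W.qq t ^ 2)) := by
  have h0 := Arc_ne ht
  have hn : (1 : ℂ) - 2 * t ≠ 0 := by
    intro h
    have := congrArg Complex.im h
    simp at this
    exact ht.ne' this
  have hr' : 3 * conj t * (2 * t - 1) = 3 * t - 1 := by
    have := congrArg conj hr
    simpa only [map_mul, map_sub, map_one, map_ofNat, Complex.conj_conj] using this
  have h2t : 0 < (2 * t).im := by simpa using ht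
  have him : 0 < (-conj (2 * t) + 1).im := by
    rw [Complex.add_im, Complex.one_im, add_zero, Complex.neg_im, Complex.conj_im, neg_neg]
    exact h2t
  have h1 := D8M.ca_move him
  have hc : conj (2 * t) = 2 * conj t := by simp only [map_mul, map_ofNat]
  have hd : (1 : ℂ) - 3 * (-conj (2 * t) + 1) ≠ 0 := by
    intro h
    have h4 := congrArg Complex.im h
    rw [hc] at h4
    simp at h4
    exact ht.ne' h4
  have h3 : (-conj (2 * t) + 1) / (1 - 3 * (-conj (2 * t) + 1)) = -1 / (3 * (2 * t)) := by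
    rw [div_eq_div_iff hd (mul_ne_zero three_ne_zero (mul_ne_zero two_ne_zero h0))]
    rw [hc]
    linear_combination -2 * hr
  rw [h3, RV15W.ca_fricke (2 * t) h2t, Arc_qq_add, Arc_qq_conj, Arc_ca_conj, Arc_qq_two, hc] at h1
  have hI := Complex.I_ne_zero
  generalize conj (RV15W.ca (RV15W.qq t ^ 2)) = cb at *
  generalize RV15W.ca (RV15W.qq t ^ 2) = b at *
  have h5 : (Real.sqrt 3 : ℂ) / Complex.I * b = 3 * (2 * conj t - 1) * cb := by
    have h6 : (2 * t) * ((Real.sqrt 3 : ℂ) / Complex.I * b) = (2 * t) * (3 * (2 * conj t - 1) * cb) := by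
      linear_combination h1 - 2 * cb * hr
    exact mul_left_cancel₀ (mul_ne_zero two_ne_zero h0) h6
  linear_combination (1 - 2 * t) * h5 - 2 * cb * hr

/-- the derivative of `l` on the arc is purely imaginary -/
private theorem Arc_dl {Y : ℝ} (hY : 0 < Y) :
    ∃ c : ℝ, HasDerivAt (fun s : ℝ => D8W.l (tY s)) ((c : ℂ) * Complex.I) Y := by
  have ht := tY_im hY
  have hr := Arc_rel Y
  have k1 := Arc_key1 ht hr
  have k2 := Arc_key2 ht hr
  have h1 : HasDerivAt (fun s : ℝ => D8W.l (tY s)) _ Y :=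
    HasDerivAt.comp (h₂ := D8W.l) (h := fun s : ℝ => tY s) Y (D8W.l_deriv ht) (tY_deriv Y)
  refine ⟨-(Real.pi * (Complex.normSq (RV15W.ca (RV15W.qq (tY Y))) +
    2 * Complex.normSq (RV15W.ca (RV15W.qq (tY Y) ^ 2))) / (Real.sqrt 3 * (1 + Y ^ 2))),
    h1.congr_deriv ?_⟩
  have hA := Complex.mul_conj (RV15W.ca (RV15W.qq (tY Y)))
  have hB := Complex.mul_conj (RV15W.ca (RV15W.qq (tY Y) ^ 2))
  rw [k1] at hA
  rw [k2] at hB
  rw [Arc_sub] at hA hB
  push_cast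
  rw [← hA, ← hB]
  have h2 := Arc_den Y
  have h3 := Arc_den' Y
  have h4 := Arc_s3_ne
  have hI := Complex.I_ne_zero
  have h5 : (1 : ℂ) + (Y : ℂ) ^ 2 = (1 + Y * Complex.I) * (1 - Y * Complex.I) := by
    linear_combination ((Y : ℂ) ^ 2) * Complex.I_mul_I
  rw [h5]
  generalize RV15W.ca (RV15W.qq (tY Y) ^ 2) = b at *
  generalize RV15W.ca (RV15W.qq (tY Y)) = a at *
  generalize ((Real.sqrt 3 : ℝ) : ℂ) = s at *
  generalize (1 : ℂ) + Y * Complex.I = D at *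
  generalize (1 : ℂ) - Y * Complex.I = E at *
  field_simp
  linear_combination (a ^ 2 - 2 * b ^ 2) * Complex.I_mul_I

theorem l_arc_re {Y : ℝ} (hY : 0 < Y) : (D8W.l (tY Y)).re = 0 := by
  have hd : ∀ x ∈ Set.Ioi (0 : ℝ), HasDerivAt (fun s : ℝ => (D8W.l (tY s)).re) 0 x := by
    intro x hx
    obtain ⟨c, hc⟩ := Arc_dl hx
    have h1 : HasDerivAt (fun s : ℝ => (D8W.l (tY s)).re) ((c : ℂ) * Complex.I).re x :=
      Complex.reCLM.hasFDerivAt.comp_hasDerivAt x hc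
    simpa using h1
  have h1 := IsOpen.is_const_of_deriv_eq_zero (f := fun s : ℝ => (D8W.l (tY s)).re)
    isOpen_Ioi isPreconnected_Ioi
    (fun x hx => (hd x hx).differentiableAt.differentiableWithinAt)
    (fun x hx => (hd x hx).deriv) (x := Y) (y := Y0) hY Y0_pos
  rw [h1]
  simp only [tY_Y0]
  rw [t0, D8W.l_cm]
  rfl

theorem l_half_im {y : ℝ} (hy : 0 < y) : (D8W.l (D8W.pt (1 / 2) y)).im = -(Real.pi / 2) := by
  have h1 := D8W.l_conj (1 / 2) hy
  have h2 : D8W.l (D8W.pt (1 / 2) y) = D8W.l (D8W.pt (-(1 / 2)) y) - Real.pi * Complex.I := by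
    have h3 : D8W.pt (1 / 2) y = D8W.pt (-(1 / 2)) y + 1 := by
      unfold D8W.pt
      push_cast
      ring
    rw [h3]
    unfold D8W.l
    rw [Arc_qq_add]
    ring
  rw [h1] at h2
  have h4 := congrArg Complex.im h2
  simp at h4
  linarith

/-- the derivative of `l` along the arc in terms of `e2 (wp Y)` -/
theorem l_arc_deriv {Y : ℝ} (hY : 0 < Y) :
    HasDerivAt (fun s : ℝ => D8W.l (tY s)) (Real.sqrt 3 / (2 * Real.pi) * e2 (wp Y)) Y := by
  have ht := tY_im hY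
  have h1 : HasDerivAt (fun s : ℝ => D8W.l (tY s)) _ Y :=
    HasDerivAt.comp (h₂ := D8W.l) (h := fun s : ℝ => tY s) Y (l_e2 ht) (tY_deriv Y)
  refine h1.congr_deriv ?_
  have h9 : e2 ((1 + (Y : ℂ) * Complex.I) * tY Y, (1 + (Y : ℂ) * Complex.I) * 1) =
      (1 + (Y : ℂ) * Complex.I)⁻¹ ^ 2 * e2 (tY Y, 1) := e2_smul (1 + (Y : ℂ) * Complex.I) (tY Y, 1)
  rw [wp_eq Y, h9]
  have h2 := Arc_den Y
  have h4 := Arc_s3_ne
  have h7 := Arc_s3
  have hI := Complex.I_ne_zero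
  have hpi : ((Real.pi : ℝ) : ℂ) ≠ 0 := by exact_mod_cast Real.pi_ne_zero
  generalize ((Real.sqrt 3 : ℝ) : ℂ) = s at *
  generalize e2 (tY Y, 1) = e at *
  generalize (1 : ℂ) + Y * Complex.I = D at *
  field_simp
  linear_combination (-e) * h7

theorem e2_arc_re {Y : ℝ} (hY : 0 < Y) : (e2 (wp Y)).re = 0 := by
  obtain ⟨c, hc⟩ := Arc_dl hY
  have h1 := hc.unique (l_arc_deriv hY)
  have h2 := congrArg Complex.re h1
  have h3 : ((Real.sqrt 3 : ℂ) / (2 * Real.pi)) = ((Real.sqrt 3 / (2 * Real.pi) : ℝ) : ℂ) := by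
    push_cast
    ring
  rw [h3, Complex.re_ofReal_mul, Complex.re_ofReal_mul, Complex.I_re, mul_zero] at h2
  have h4 : (0 : ℝ) < Real.sqrt 3 / (2 * Real.pi) := by
    have := Arc_s3_pos
    have := Real.pi_pos
    positivity
  rcases mul_eq_zero.mp h2.symm with h5 | h5
  · exact absurd h5 h4.ne'
  · exact h5

theorem Gs_arc {Y : ℝ} (hY : 0 < Y) : Tendsto (Gs (wp Y)) atTop (𝓝 0) := by
  have h1 := G_tendsto (tY_im hY)
  rw [l_arc_re hY, mul_zero, Complex.ofReal_zero] at h1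
  have h2 := h1.const_mul ((1 + (Y : ℂ) * Complex.I)⁻¹ * (conj (1 + (Y : ℂ) * Complex.I))⁻¹)
  rw [mul_zero] at h2
  refine h2.congr fun N => ?_
  rw [← Gs_smul, ← wp_eq]

end D8
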