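import Mathlib
import Pool.Agent.D8.Defs
import Pool.Agent.D8.Bas
import Pool.Agent.D8.Wt
import Pool.Agent.D8.RowB

/-!
# D8/AsmA: summation of the (5,1) products, PORT of RVP/AsmA (constant: `wt_psi` has `-2` instead of `-1/3`)
-/

set_option autoImplicit false

namespace D8

variable {w : ℂ × ℂ}

/-- `(i,j) ↦ (i-j,j)` -/
private def AsmA_E1 : ℤ × ℤ ≃ ℤ × ℤ where
  toFun u := (u.1 - u.2, u.2)
  invFun u := (u.1 + u.2, u.2)
  left_inv u := by ext <;> simp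
  right_inv u := by ext <;> simp

/-- `(i,j) ↦ (j,i-j)` -/
private def AsmA_E2 : ℤ × ℤ ≃ ℤ × ℤ where
  toFun u := (u.2, u.1 - u.2)
  invFun u := (u.1 + u.2, u.1)
  left_inv u := by ext <;> simp
  right_inv u := by ext <;> simp

/-- `(i,j) ↦ (-i,j)` -/
private def AsmA_E3 : ℤ × ℤ ≃ ℤ × ℤ where
  toFun u := (-u.1, u.2)
  invFun u := (-u.1, u.2)
  left_inv u := by ext <;> simp
  right_inv u := by ext <;> simp

private lemma AsmA_sum {f g : ℤ → ℂ} (hf : Summable fun m => ‖f m‖) (hg : Summable fun m => ‖g m‖)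
    {K : ℤ × ℤ → ℂ} {C : ℝ} (hK : ∀ u, ‖K u‖ ≤ C) :
    Summable fun u : ℤ × ℤ => K u * (f u.2 * g u.1) := by
  have h1 : Summable fun u : ℤ × ℤ => ‖g u.1‖ * ‖f u.2‖ :=
    hg.mul_of_nonneg hf (fun _ => norm_nonneg _) (fun _ => norm_nonneg _)
  refine Summable.of_norm_bounded (h1.mul_left C) fun u => ?_
  rw [norm_mul, norm_mul, mul_comm ‖f u.2‖]
  exact mul_le_mul_of_nonneg_right (hK u) (by positivity)

private lemma AsmA_cw (a b : ℤ) : ‖(cw a b : ℂ)‖ ≤ 20 := by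
  rw [Complex.norm_real, Real.norm_eq_abs]
  exact cw_abs a b

private lemma AsmA_F1 {f g : ℤ → ℂ} (hf : Summable fun m => ‖f m‖)
    (hg : Summable fun m => ‖g m‖) :
    Summable fun u : ℤ × ℤ => (cw u.1 u.2 : ℂ) * (f u.2 * g u.1) :=
  AsmA_sum hf hg (K := fun u => (cw u.1 u.2 : ℂ)) fun _ => AsmA_cw _ _

private lemma AsmA_F2' {f g : ℤ → ℂ} (hf : Summable fun m => ‖f m‖)
    (hg : Summable fun m => ‖g m‖) :
    Summable fun u : ℤ × ℤ => (cw (u.1 - u.2) u.2 : ℂ) * (f u.2 * g u.1) :=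
  AsmA_sum hf hg (K := fun u => (cw (u.1 - u.2) u.2 : ℂ)) fun _ => AsmA_cw _ _

private lemma AsmA_F3' {f g : ℤ → ℂ} (hf : Summable fun m => ‖f m‖)
    (hg : Summable fun m => ‖g m‖) :
    Summable fun u : ℤ × ℤ => (cw u.2 (u.1 - u.2) : ℂ) * (f u.2 * g u.1) :=
  AsmA_sum hf hg (K := fun u => (cw u.2 (u.1 - u.2) : ℂ)) fun _ => AsmA_cw _ _

private lemma AsmA_e1 (f g : ℤ → ℂ) :
    ((fun u : ℤ × ℤ => (cw u.1 u.2 : ℂ) * (f u.2 * g (u.1 + u.2))) ∘ AsmA_E1) =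
      fun u : ℤ × ℤ => (cw (u.1 - u.2) u.2 : ℂ) * (f u.2 * g u.1) := by
  funext u
  simp [AsmA_E1]

private lemma AsmA_e2 (f g : ℤ → ℂ) :
    ((fun u : ℤ × ℤ => (cw u.1 u.2 : ℂ) * (f u.1 * g (u.1 + u.2))) ∘ AsmA_E2) =
      fun u : ℤ × ℤ => (cw u.2 (u.1 - u.2) : ℂ) * (f u.2 * g u.1) := by
  funext u
  simp [AsmA_E2]

private lemma AsmA_F2 {f g : ℤ → ℂ} (hf : Summable fun m => ‖f m‖)
    (hg : Summable fun m => ‖g m‖) :
    Summable fun u : ℤ × ℤ => (cw u.1 u.2 : ℂ) * (f u.2 * g (u.1 + u.2)) := by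
  rw [← AsmA_E1.summable_iff, AsmA_e1]
  exact AsmA_F2' hf hg

private lemma AsmA_F3 {f g : ℤ → ℂ} (hf : Summable fun m => ‖f m‖)
    (hg : Summable fun m => ‖g m‖) :
    Summable fun u : ℤ × ℤ => (cw u.1 u.2 : ℂ) * (f u.1 * g (u.1 + u.2)) := by
  rw [← AsmA_E2.summable_iff, AsmA_e2]
  exact AsmA_F3' hf hg

private lemma AsmA_t2 (f g : ℤ → ℂ) :
    ∑' u : ℤ × ℤ, (cw u.1 u.2 : ℂ) * (f u.2 * g (u.1 + u.2)) =
      ∑' u : ℤ × ℤ, (cw (u.1 - u.2) u.2 : ℂ) * (f u.2 * g u.1) := by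
  rw [← AsmA_E1.tsum_eq]
  exact tsum_congr fun u => congrFun (AsmA_e1 f g) u

private lemma AsmA_t3 (f g : ℤ → ℂ) :
    ∑' u : ℤ × ℤ, (cw u.1 u.2 : ℂ) * (f u.1 * g (u.1 + u.2)) =
      ∑' u : ℤ × ℤ, (cw u.2 (u.1 - u.2) : ℂ) * (f u.2 * g u.1) := by
  rw [← AsmA_E2.tsum_eq]
  exact tsum_congr fun u => congrFun (AsmA_e2 f g) u

/-- pointwise decomposition -/
private lemma AsmA_dec (w : ℂ × ℂ) (u : ℤ × ℤ) :
    (cw u.1 u.2 : ℂ) * P51 w u =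
      2 * ((cw u.1 u.2 : ℂ) * (X w 2 1 u.2 * X w 3 0 u.1))
      + 2 * ((cw u.1 u.2 : ℂ) * (X w 2 1 u.2 * X w 3 0 (u.1 + u.2)))
      + 2 * ((cw u.1 u.2 : ℂ) * (X w 2 1 u.1 * X w 3 0 (u.1 + u.2)))
      + 2 * ((cw u.1 u.2 : ℂ) * (X w 3 1 u.2 * X w 2 0 (u.1 + u.2)))
      + (-2) * ((cw u.1 u.2 : ℂ) * (X w 3 1 u.2 * X w 2 0 u.1)) := by
  unfold P51
  ring

theorem P51_summable (hw : Good w) :
    Summable fun u : ℤ × ℤ => (cw u.1 u.2 : ℂ) * P51 w u := by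
  have ha : Summable fun m => ‖X w 2 1 m‖ := X_summable hw (by norm_num)
  have hb : Summable fun m => ‖X w 3 0 m‖ := X_summable hw (by norm_num)
  have hc : Summable fun m => ‖X w 3 1 m‖ := X_summable hw (by norm_num)
  have hd : Summable fun m => ‖X w 2 0 m‖ := X20_summable hw
  simp_rw [AsmA_dec]
  exact (((((AsmA_F1 ha hb).mul_left 2).add ((AsmA_F2 ha hb).mul_left 2)).add
    ((AsmA_F3 ha hb).mul_left 2)).add ((AsmA_F2 hc hd).mul_left 2)).add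
    ((AsmA_F1 hc hd).mul_left (-2))

/-- the first sum vanishes -/
private lemma AsmA_zero (w : ℂ × ℂ) :
    ∑' u : ℤ × ℤ, ((cw u.1 u.2 + cw (u.1 - u.2) u.2 + cw u.2 (u.1 - u.2) : ℝ) : ℂ) *
      (X w 2 1 u.2 * X w 3 0 u.1) = 0 := by
  set F : ℤ × ℤ → ℂ := fun u =>
    ((cw u.1 u.2 + cw (u.1 - u.2) u.2 + cw u.2 (u.1 - u.2) : ℝ) : ℂ) *
      (X w 2 1 u.2 * X w 3 0 u.1) with hF
  have h1 : ∑' u, F u = ∑' u, F (AsmA_E3 u) := (AsmA_E3.tsum_eq F).symm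
  have h2 : ∀ u, F (AsmA_E3 u) = -F u := by
    intro u
    simp only [hF, AsmA_E3, Equiv.coe_fn_mk]
    rw [X_neg, ← wt_even u.1 u.2]
    ring
  have h3 : ∑' u, F u = -∑' u, F u := by
    conv_lhs => rw [h1]
    rw [← tsum_neg]
    exact tsum_congr h2
  have h4 : (2 : ℂ) * ∑' u, F u = 0 := by linear_combination h3
  simpa using h4

/-- the second sum -/
private lemma AsmA_half (hw : Good w) :
    ∑' u : ℤ × ℤ, ((cw (u.1 - u.2) u.2 - cw u.1 u.2 : ℝ) : ℂ) *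
      (X w 3 1 u.2 * X w 2 0 u.1) = -1 * W w 3 1 * e2 w := by
  have hc : Summable fun m => ‖X w 3 1 m‖ := X_summable hw (by norm_num)
  have hd : Summable fun m => ‖X w 2 0 m‖ := X20_summable hw
  set F : ℤ × ℤ → ℂ := fun u =>
    ((cw (u.1 - u.2) u.2 - cw u.1 u.2 : ℝ) : ℂ) * (X w 3 1 u.2 * X w 2 0 u.1) with hF
  have hFs : Summable F := by
    have h := (AsmA_F2' hc hd).sub (AsmA_F1 hc hd)
    refine h.congr fun u => ?_
    simp only [hF]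
    push_cast
    ring
  have hFs3 : Summable fun u => F (AsmA_E3 u) := (AsmA_E3.summable_iff (f := F)).mpr hFs
  have h1 : ∑' u, F u = ∑' u, F (AsmA_E3 u) := (AsmA_E3.tsum_eq F).symm
  have h2 : ∀ u, F u + F (AsmA_E3 u) =
      -2 * (((ph u.1 : ℂ) * X w 2 0 u.1) * ((ps u.2 : ℂ) * X w 3 1 u.2)) := by
    intro u
    simp only [hF, AsmA_E3, Equiv.coe_fn_mk]
    rw [X_neg]
    have h := congrArg (fun x : ℝ => (x : ℂ)) (wt_psi u.1 u.2)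
    push_cast at h
    push_cast
    linear_combination (X w 3 1 u.2 * X w 2 0 u.1) * h
  have hsd : Summable fun m : ℤ => ‖(ph m : ℂ) * X w 2 0 m‖ := by
    refine Summable.of_nonneg_of_le (fun _ => norm_nonneg _) (fun m => ?_) (hd.mul_left 4)
    rw [norm_mul, Complex.norm_real, Real.norm_eq_abs]
    exact mul_le_mul_of_nonneg_right (ph_abs m) (norm_nonneg _)
  have hsc : Summable fun m : ℤ => ‖(ps m : ℂ) * X w 3 1 m‖ := by
    refine Summable.of_nonneg_of_le (fun _ => norm_nonneg _) (fun m => ?_) (hc.mul_left 16)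
    rw [norm_mul, Complex.norm_real, Real.norm_eq_abs]
    exact mul_le_mul_of_nonneg_right (ps_abs m) (norm_nonneg _)
  have h3 : ∑' u : ℤ × ℤ, ((ph u.1 : ℂ) * X w 2 0 u.1) * ((ps u.2 : ℂ) * X w 3 1 u.2) =
      e2 w * W w 3 1 := by
    unfold e2 W
    exact (tsum_mul_tsum_of_summable_norm hsd hsc).symm
  have h5 : ∑' u, (F u + F (AsmA_E3 u)) = ∑' u, F u + ∑' u, F (AsmA_E3 u) := hFs.tsum_add hFs3
  have h6 : ∑' u, (F u + F (AsmA_E3 u)) = -2 * (e2 w * W w 3 1) := by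
    rw [← h3, ← tsum_mul_left]
    exact tsum_congr h2
  have h4 : (2 : ℂ) * ∑' u, F u = -2 * (e2 w * W w 3 1) := by
    rw [← h6, h5, ← h1]
    ring
  linear_combination (1 / 2) * h4

theorem sum51 (hw : Good w) :
    ∑' u : ℤ × ℤ, (cw u.1 u.2 : ℂ) * P51 w u = -2 * W w 3 1 * e2 w := by
  have ha : Summable fun m => ‖X w 2 1 m‖ := X_summable hw (by norm_num)
  have hb : Summable fun m => ‖X w 3 0 m‖ := X_summable hw (by norm_num)
  have hc : Summable fun m => ‖X w 3 1 m‖ := X_summable hw (by norm_num)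
  have hd : Summable fun m => ‖X w 2 0 m‖ := X20_summable hw
  have s1 := (AsmA_F1 ha hb).mul_left 2
  have s2 := (AsmA_F2 ha hb).mul_left 2
  have s3 := (AsmA_F3 ha hb).mul_left 2
  have s4 := (AsmA_F2 hc hd).mul_left 2
  have s5 := (AsmA_F1 hc hd).mul_left (-2)
  simp_rw [AsmA_dec]
  rw [(((s1.add s2).add s3).add s4).tsum_add s5, ((s1.add s2).add s3).tsum_add s4,
    (s1.add s2).tsum_add s3, s1.tsum_add s2, tsum_mul_left, tsum_mul_left, tsum_mul_left,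
    tsum_mul_left, tsum_mul_left, AsmA_t2, AsmA_t3, AsmA_t2]
  have hz := AsmA_zero w
  have hh := AsmA_half hw
  have e1 : ∑' u : ℤ × ℤ, ((cw u.1 u.2 + cw (u.1 - u.2) u.2 + cw u.2 (u.1 - u.2) : ℝ) : ℂ) *
      (X w 2 1 u.2 * X w 3 0 u.1) =
      ∑' u : ℤ × ℤ, (cw u.1 u.2 : ℂ) * (X w 2 1 u.2 * X w 3 0 u.1)
      + ∑' u : ℤ × ℤ, (cw (u.1 - u.2) u.2 : ℂ) * (X w 2 1 u.2 * X w 3 0 u.1)
      + ∑' u : ℤ × ℤ, (cw u.2 (u.1 - u.2) : ℂ) * (X w 2 1 u.2 * X w 3 0 u.1) := by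
    rw [← (AsmA_F1 ha hb).tsum_add (AsmA_F2' ha hb),
      ← ((AsmA_F1 ha hb).add (AsmA_F2' ha hb)).tsum_add (AsmA_F3' ha hb)]
    refine tsum_congr fun u => ?_
    push_cast
    ring
  have e2' : ∑' u : ℤ × ℤ, ((cw (u.1 - u.2) u.2 - cw u.1 u.2 : ℝ) : ℂ) *
      (X w 3 1 u.2 * X w 2 0 u.1) =
      ∑' u : ℤ × ℤ, (cw (u.1 - u.2) u.2 : ℂ) * (X w 3 1 u.2 * X w 2 0 u.1)
      - ∑' u : ℤ × ℤ, (cw u.1 u.2 : ℂ) * (X w 3 1 u.2 * X w 2 0 u.1) := by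
    rw [← (AsmA_F2' hc hd).tsum_sub (AsmA_F1 hc hd)]
    refine tsum_congr fun u => ?_
    push_cast
    ring
  rw [e1] at hz
  rw [e2'] at hh
  linear_combination 2 * hz + 2 * hh

end D8
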