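import Mathlib
import Pool.Agent.D8.Defs
import Pool.Agent.D8.Bas
import Pool.Agent.D8.Wt
import Pool.Agent.D8.RowA
import Pool.Agent.RVP.Sh
import Pool.Agent.RVP.Sh

/-!
# D8/AsmB: summation of the (3,3) products (real parts)

As RVP/AsmB.  The three products: with `n(i,j) = c(i,j) + c(i,j-i) + c(j-i,i)` their weighted sum is
`Σ n(i,j) X21(i) conj(X21(j))` (`X12 = conj X21`, `X_conj`).  `n(i,j) = N(i,j) + c(i,j) - c(j,i)`, where
`N(x,y) = c(y,x) + c(y-x,x) + c(x,y-x)` is even in `y` (`wt_even`, `X21` odd: its sum is `0`), and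
`Re Σ (c(i,j) - c(j,i)) X21(i) conj(X21(j)) = 0` (exchange `i, j`).  The other part:
`Σ_j X22(j) Σ_i c(i,j) (X11(i+j) - X11(i)) = -W22 g` as in RVP/AsmB (`X22`, `X11` are real).
-/

set_option autoImplicit false

open Filter Topology

namespace D8

variable {w : ℂ × ℂ}

open scoped ComplexConjugate

/-- reflection of a symmetric partial sum -/
private lemma Icc_refl (f : ℤ → ℂ) (N : ℕ) :
    ∑ i ∈ Finset.Icc (-(N : ℤ)) N, f (-i) = ∑ i ∈ Finset.Icc (-(N : ℤ)) N, f i := by
  refine Finset.sum_nbij' (fun i => -i) (fun i => -i) ?_ ?_ ?_ ?_ ?_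
  · intro i hi
    rw [Finset.mem_Icc] at hi ⊢
    constructor <;> linarith [hi.1, hi.2]
  · intro i hi
    rw [Finset.mem_Icc] at hi ⊢
    constructor <;> linarith [hi.1, hi.2]
  · intro i _
    simp
  · intro i _
    simp
  · intro i _
    simp

/-- the inner sum -/
private lemma inner_tendsto (hw : Good w) {G : ℂ} (hG : Tendsto (Gs w) atTop (𝓝 G)) (j : ℤ) :
    Tendsto (fun N : ℕ => ∑ i ∈ Finset.Icc (-(N : ℤ)) N,
      (cw i j : ℂ) * (X w 1 1 (i + j) - X w 1 1 i)) atTop (𝓝 (-(ps j : ℂ) * G)) := by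
  set g : ℤ → ℂ := fun i => (cw (i - j) j : ℂ) * X w 1 1 i with hg
  have hg0 : Tendsto g cofinite (𝓝 0) := by
    refine squeeze_zero_norm (a := fun i => 20 * ‖X w 1 1 i‖) (fun i => ?_) ?_
    · rw [hg]
      simp only [norm_mul, Complex.norm_real, Real.norm_eq_abs]
      exact mul_le_mul_of_nonneg_right (cw_abs _ _) (norm_nonneg _)
    · have h1 := (X11_tendsto hw).norm.const_mul 20
      simpa using h1
  have h1 := RVP.sum_shift_tendsto hg0 j
  have h2 : Tendsto (fun N : ℕ => ∑ i ∈ Finset.Icc (-(N : ℤ)) N,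
      ((cw (i - j) j : ℂ) - (cw i j : ℂ)) * X w 1 1 i) atTop (𝓝 (-(ps j : ℂ) * G)) := by
    have h3 := hG.const_mul (-(ps j : ℂ))
    refine h3.congr fun N => ?_
    set F : ℤ → ℂ := fun i => ((cw (i - j) j : ℂ) - (cw i j : ℂ)) * X w 1 1 i with hF
    have h4 : ∑ i ∈ Finset.Icc (-(N : ℤ)) N, F i =
        1 / 2 * ∑ i ∈ Finset.Icc (-(N : ℤ)) N, (F i + F (-i)) := by
      rw [Finset.sum_add_distrib, Icc_refl F N]
      ring
    unfold Gs
    rw [h4, Finset.mul_sum, Finset.mul_sum]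
    refine Finset.sum_congr rfl fun i _ => ?_
    have h5 : X w 1 1 (-i) = X w 1 1 i := by
      rw [X_neg]
      norm_num
    have h6 : (((cw (i - j) j - cw i j) + (cw (-i - j) j - cw (-i) j) : ℝ) : ℂ) =
        ((-2 * ps j * ph i : ℝ) : ℂ) := by
      rw [wt_psi]
    push_cast at h6
    rw [hF]
    simp only [h5]
    linear_combination (-(1 / 2) * X w 1 1 i) * h6
  have h3 := h1.add h2
  rw [zero_add] at h3
  refine h3.congr fun N => ?_
  rw [← Finset.sum_add_distrib]
  refine Finset.sum_congr rfl fun i _ => ?_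
  rw [hg]
  simp only [add_sub_cancel_right]
  ring

/-- the three absolutely convergent products -/
private lemma prods (hw : Good w) :
    HasSum (fun u : ℤ × ℤ => cw u.1 u.2 *
      (X w 2 1 u.1 * X w 1 2 u.2 + X w 2 1 u.1 * X w 1 2 (u.1 + u.2)
        + X w 2 1 u.2 * X w 1 2 (u.1 + u.2)).re) 0 := by
  set f : ℤ → ℂ := X w 2 1 with hf
  have h12 : ∀ m, X w 1 2 m = conj (f m) := by
    intro m
    rw [hf, X_conj w 2 1 m]
  have hodd : ∀ m, f (-m) = -f m := by
    intro m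
    rw [hf, X_neg]
    norm_num
  have hs : Summable fun m => ‖f m‖ := X_summable hw (by norm_num)
  have hprod : Summable fun u : ℤ × ℤ => ‖f u.1‖ * ‖f u.2‖ := by
    have := hs.mul_of_nonneg hs (fun _ => norm_nonneg _) (fun _ => norm_nonneg _)
    exact this
  -- the symmetric real kernel
  set q : ℤ × ℤ → ℝ := fun u => (f u.1 * conj (f u.2)).re with hq
  have hqabs : ∀ u, |q u| ≤ ‖f u.1‖ * ‖f u.2‖ := by
    intro u
    rw [hq]
    refine (Complex.abs_re_le_norm _).trans ?_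
    rw [norm_mul, RCLike.norm_conj]
  have hprodk : ∀ k : ℤ × ℤ → ℝ, (∀ u, |k u| ≤ 60) → Summable fun u : ℤ × ℤ => k u * q u := by
    intro k hk
    refine Summable.of_norm_bounded (hprod.mul_left 60) fun u => ?_
    rw [Real.norm_eq_abs, abs_mul]
    exact mul_le_mul (hk u) (hqabs u) (abs_nonneg _) (by norm_num)
  -- the two shears
  let e1 : ℤ × ℤ ≃ ℤ × ℤ :=
    { toFun := fun u => (u.1, u.1 + u.2)
      invFun := fun u => (u.1, u.2 - u.1)
      left_inv := fun u => by simp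
      right_inv := fun u => by simp }
  let e2 : ℤ × ℤ ≃ ℤ × ℤ :=
    { toFun := fun u => (u.2, u.1 + u.2)
      invFun := fun u => (u.2 - u.1, u.1)
      left_inv := fun u => by simp
      right_inv := fun u => by simp }
  have c20 : ∀ a b : ℤ, |cw a b| ≤ 60 := fun a b => (cw_abs a b).trans (by norm_num)
  have hA := hprodk (fun u => cw u.1 u.2) fun u => c20 _ _
  have hB := hprodk (fun u => cw u.1 (u.2 - u.1)) fun u => c20 _ _
  have hC := hprodk (fun u => cw (u.2 - u.1) u.1) fun u => c20 _ _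
  have hD := hprodk (fun u => cw u.2 u.1) fun u => c20 _ _
  have hB' : HasSum (fun u : ℤ × ℤ => cw u.1 u.2 * q (u.1, u.1 + u.2))
      (∑' u : ℤ × ℤ, cw u.1 (u.2 - u.1) * q u) := by
    have h := (e1.hasSum_iff).mpr hB.hasSum
    refine h.congr_fun ?_
    intro u
    simp [e1]
  have hC' : HasSum (fun u : ℤ × ℤ => cw u.1 u.2 * q (u.2, u.1 + u.2))
      (∑' u : ℤ × ℤ, cw (u.2 - u.1) u.1 * q u) := by
    have h := (e2.hasSum_iff).mpr hC.hasSum
    refine h.congr_fun ?_
    intro u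
    simp [e2]
  have hsum := (hA.hasSum.add hB').add hC'
  -- exchange
  have hswap : ∑' u : ℤ × ℤ, cw u.2 u.1 * q u = ∑' u : ℤ × ℤ, cw u.1 u.2 * q u := by
    rw [← (Equiv.prodComm ℤ ℤ).tsum_eq]
    refine tsum_congr fun u => ?_
    simp only [Equiv.prodComm_apply, Prod.swap, hq]
    congr 1
    rw [← Complex.conj_re, map_mul, Complex.conj_conj, mul_comm]
  have htot : ∑' u : ℤ × ℤ, cw u.1 u.2 * q u + ∑' u : ℤ × ℤ, cw u.1 (u.2 - u.1) * q u +
      ∑' u : ℤ × ℤ, cw (u.2 - u.1) u.1 * q u = 0 := by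
    rw [← hswap, ← hD.tsum_add hB, ← (hD.add hB).tsum_add hC]
    set T := ∑' u : ℤ × ℤ, (cw u.2 u.1 * q u + cw u.1 (u.2 - u.1) * q u +
      cw (u.2 - u.1) u.1 * q u) with hT
    have h1 : T = -T := by
      conv_lhs => rw [hT]
      rw [← (Equiv.prodCongr (Equiv.refl ℤ) (Equiv.neg ℤ)).tsum_eq, hT, ← tsum_neg]
      refine tsum_congr fun u => ?_
      have h6 := wt_even u.2 u.1
      have h7 : q (u.1, -u.2) = -q u := by
        rw [hq]
        simp only [hodd, map_neg, mul_neg, Complex.neg_re]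
      simp only [Equiv.prodCongr_apply, Prod.map, Equiv.neg_apply, Equiv.refl_apply]
      rw [h7]
      linear_combination (q u) * h6
    linarith
  rw [htot] at hsum
  refine hsum.congr_fun ?_
  intro u
  simp only [h12, hq, Complex.add_re]
  ring

theorem sum33 (hw : Good w) {g : ℂ} (hg : Tendsto (Gs w) atTop (𝓝 g))
    (h : Summable fun u : ℤ × ℤ => cw u.1 u.2 * (P33 w u).re) :
    ∑' u : ℤ × ℤ, cw u.1 u.2 * (P33 w u).re = -(W w 2 2 * g).re := by
  have hA := prods hw
  set B : ℤ × ℤ → ℂ := fun u => (cw u.1 u.2 : ℂ) * (X w 2 2 u.2 * (X w 1 1 (u.1 + u.2) - X w 1 1 u.1))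
    with hB
  have hreal : ∀ a m, conj (X w a a m) = X w a a m := fun a m => X_conj w a a m
  have hBre : ∀ u, ((B u).re : ℂ) = B u := by
    intro u
    rw [← Complex.conj_eq_iff_re, hB]
    simp only [map_mul, map_sub, Complex.conj_ofReal, hreal]
  have hBr : ∀ u, cw u.1 u.2 * (P33 w u).re - cw u.1 u.2 *
      (X w 2 1 u.1 * X w 1 2 u.2 + X w 2 1 u.1 * X w 1 2 (u.1 + u.2)
        + X w 2 1 u.2 * X w 1 2 (u.1 + u.2)).re = (B u).re := by
    intro u
    rw [hB]
    simp only [P33, Complex.re_ofReal_mul, Complex.add_re]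
    ring
  have hBs' : Summable fun u => (B u).re := (h.sub hA.summable).congr fun u => (hBr u)
  have hBs : Summable B := by
    have h1 := Complex.ofRealCLM.summable hBs'
    refine h1.congr fun u => ?_
    exact hBre u
  have h1 : ∑' u : ℤ × ℤ, cw u.1 u.2 * (P33 w u).re = (∑' u, B u).re := by
    rw [Complex.re_tsum hBs]
    have h2 := hA.add hBs'.hasSum
    rw [zero_add] at h2
    rw [← h2.tsum_eq]
    refine tsum_congr fun u => ?_
    rw [← hBr u]
    ring
  have h2 : ∑' u, B u = -(W w 2 2 * g) := by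
    rw [← (Equiv.prodComm ℤ ℤ).tsum_eq]
    have hBc : Summable fun u : ℤ × ℤ => B ((Equiv.prodComm ℤ ℤ) u) :=
      (Equiv.prodComm ℤ ℤ).summable_iff.mpr hBs
    rw [hBc.tsum_prod]
    have h3 : ∀ j : ℤ, ∑' i : ℤ, B ((Equiv.prodComm ℤ ℤ) (j, i)) =
        (-g) * ((ps j : ℂ) * X w 2 2 j) := by
      intro j
      have h4 := RVP.hasSum_Icc (hBc.prod_factor j).hasSum
      have h5 := (inner_tendsto hw hg j).const_mul (X w 2 2 j)
      have h6 : (fun N : ℕ => ∑ i ∈ Finset.Icc (-(N : ℤ)) N, B ((Equiv.prodComm ℤ ℤ) (j, i))) =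
          fun N : ℕ => X w 2 2 j * ∑ i ∈ Finset.Icc (-(N : ℤ)) N,
            (cw i j : ℂ) * (X w 1 1 (i + j) - X w 1 1 i) := by
        funext N
        rw [Finset.mul_sum]
        refine Finset.sum_congr rfl fun i _ => ?_
        rw [hB]
        simp only [Equiv.prodComm_apply, Prod.swap_prod_mk]
        ring
      rw [h6] at h4
      rw [tendsto_nhds_unique h4 h5]
      ring
    rw [tsum_congr h3, tsum_mul_left, W]
    ring
  rw [h1, h2, Complex.neg_re]

end D8
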