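import Mathlib
import Pool.Agent.D8.Defs
import Pool.Agent.D8.Bas
import Pool.Agent.D8.Ker
import Pool.Agent.RVP.Sh

/-!
# D8/B33: the real parts of the blocks of `E33`

RVP/B33 without the reflection: pointwise (`pt33`, same proof) `M + M̄ = R + R̄ + contact`, `Σ_z R = P33` (`B33_R`), hence
`2 Re Σ_z M = 2 Re P33 + contact`, `contact` real (`X_33` is real: `X_conj`).
-/

set_option autoImplicit false

open scoped ComplexConjugate

namespace D8

variable {w : ℂ × ℂ}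

/-- the pointwise right hand side -/
private noncomputable def B33_R33 (w : ℂ × ℂ) (x : V4) : ℂ :=
  (iv w x.1 ^ 2 * ic w x.1) * (iv w x.2 * ic w x.2 ^ 2)
    - (iv w x.1 * ic w x.1) * (iv w x.2 ^ 2 * ic w x.2 ^ 2)
    + (iv w x.1 ^ 2 * ic w x.1) * (iv w (x.1 + x.2) * ic w (x.1 + x.2) ^ 2)
    + (iv w x.2 ^ 2 * ic w x.2 ^ 2) * (iv w (x.1 + x.2) * ic w (x.1 + x.2))
    + (iv w x.2 ^ 2 * ic w x.2) * (iv w (x.1 + x.2) * ic w (x.1 + x.2) ^ 2)

private theorem B33_gen {p q P Q : ℂ} (hp : p ≠ 0) (hq : q ≠ 0) (hr : p + q ≠ 0)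
    (hP : P ≠ 0) (hQ : Q ≠ 0) (hR : P + Q ≠ 0) :
    p⁻¹ * (p + q)⁻¹ ^ 2 * P⁻¹ ^ 2 * Q⁻¹ + q * p⁻¹ ^ 2 * (p + q)⁻¹ ^ 2 * P⁻¹ * Q⁻¹ ^ 2
      + (P⁻¹ * (P + Q)⁻¹ ^ 2 * p⁻¹ ^ 2 * q⁻¹ + Q * P⁻¹ ^ 2 * (P + Q)⁻¹ ^ 2 * p⁻¹ * q⁻¹ ^ 2)
    = (p⁻¹ ^ 2 * P⁻¹) * (q⁻¹ * Q⁻¹ ^ 2)
    - (p⁻¹ * P⁻¹) * (q⁻¹ ^ 2 * Q⁻¹ ^ 2)
    + (p⁻¹ ^ 2 * P⁻¹) * ((p + q)⁻¹ * (P + Q)⁻¹ ^ 2)
    + (q⁻¹ ^ 2 * Q⁻¹ ^ 2) * ((p + q)⁻¹ * (P + Q)⁻¹)
    + (q⁻¹ ^ 2 * Q⁻¹) * ((p + q)⁻¹ * (P + Q)⁻¹ ^ 2)
    + ((P⁻¹ ^ 2 * p⁻¹) * (Q⁻¹ * q⁻¹ ^ 2)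
    - (P⁻¹ * p⁻¹) * (Q⁻¹ ^ 2 * q⁻¹ ^ 2)
    + (P⁻¹ ^ 2 * p⁻¹) * ((P + Q)⁻¹ * (p + q)⁻¹ ^ 2)
    + (Q⁻¹ ^ 2 * q⁻¹ ^ 2) * ((P + Q)⁻¹ * (p + q)⁻¹)
    + (Q⁻¹ ^ 2 * q⁻¹) * ((P + Q)⁻¹ * (p + q)⁻¹ ^ 2)) := by
  field_simp
  ring

private theorem B33_pt33 (hw : Good w) (x : V4) :
    E33 w x + conj (E33 w x) = B33_R33 w x + conj (B33_R33 w x)
      - (if x.1 = 0 then 4 * (iv w x.2 ^ 3 * ic w x.2 ^ 3) else 0)
      + (if x.1 + x.2 = 0 then 4 * (iv w x.1 ^ 3 * ic w x.1 ^ 3) else 0)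
      - (if x.2 = 0 then 2 * (iv w x.1 ^ 3 * ic w x.1 ^ 3) else 0) := by
  obtain ⟨v, u⟩ := x
  simp only [E33, B33_R33]
  by_cases hv : v = 0
  · subst hv
    simp only [iv_zero, ic_zero, zero_add, if_true]
    by_cases hu : u = 0
    · subst hu
      simp [iv_zero, ic_zero]
    · simp only [hu, if_false]
      simp only [map_add, map_sub, map_mul, map_pow, conj_iv, conj_ic, map_zero]
      ring
  · by_cases hu : u = 0
    · subst hu
      simp only [iv_zero, ic_zero, add_zero, if_true, hv, if_false]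
      simp only [map_add, map_sub, map_mul, map_pow, conj_iv, conj_ic, map_zero]
      ring
    · by_cases hr : v + u = 0
      · have hu' : u = -v := by rw [← add_eq_zero_iff_neg_eq'.mp hr]; simp
        subst hu'
        simp only [add_neg_cancel, iv_zero, ic_zero, if_true, hv, hu, if_false, iv_neg, ic_neg]
        simp only [map_add, map_sub, map_mul, map_pow, map_neg, conj_iv, conj_ic, map_zero]
        ring
      · simp only [hv, hu, hr, if_false]
        simp only [map_add, map_sub, map_mul, map_pow, conj_iv, conj_ic]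
        have hp : pt w v ≠ 0 := fun h => hv ((pt_eq_zero hw).mp h)
        have hq : pt w u ≠ 0 := fun h => hu ((pt_eq_zero hw).mp h)
        have hrr : pt w v + pt w u ≠ 0 := by
          rw [← pt_add]; exact fun h => hr ((pt_eq_zero hw).mp h)
        have hP : conj (pt w v) ≠ 0 := by simpa using hp
        have hQ : conj (pt w u) ≠ 0 := by simpa using hq
        have hR : conj (pt w v) + conj (pt w u) ≠ 0 := by
          rw [← map_add]; exact (map_ne_zero _).mpr hrr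
        have key := B33_gen hp hq hrr hP hQ hR
        simp only [iv, ic, pt_add, map_add] at *
        linear_combination key

/-! ### the block sums -/

private theorem B33_cv {f g : ℤ × ℤ → ℂ} {a b : ℂ} (h : HasSum f a) (e : ∀ z, g z = f z)
    (e' : b = a) : HasSum g b := by
  rw [e', show g = f from funext e]; exact h

private theorem B33_pq {f g : ℤ → ℂ} (hf : Summable f) (hg : Summable g) :
    HasSum (fun z : ℤ × ℤ => f z.1 * g z.2) ((∑' n, f n) * ∑' n, g n) := by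
  have h := RVP.tsum_pq hf hg
  rw [← h.2]; exact h.1.hasSum

private theorem B33_pr {f g : ℤ → ℂ} (hf : Summable f) (hg : Summable g) :
    HasSum (fun z : ℤ × ℤ => f z.1 * g (z.1 + z.2)) ((∑' n, f n) * ∑' n, g n) := by
  have h := RVP.tsum_pr hf hg
  rw [← h.2]; exact h.1.hasSum

private theorem B33_qr {f g : ℤ → ℂ} (hf : Summable f) (hg : Summable g) :
    HasSum (fun z : ℤ × ℤ => f z.2 * g (z.1 + z.2)) ((∑' n, f n) * ∑' n, g n) := by
  have h := RVP.tsum_qr hf hg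
  rw [← h.2]; exact h.1.hasSum

private theorem B33_row (hw : Good w) (a b : ℕ) (h : 2 ≤ a + b) (m : ℤ) :
    Summable (fun n : ℤ => iv w (m, n) ^ a * ic w (m, n) ^ b) := row_summable hw h m

private theorem B33_R (hw : Good w) (i j : ℤ) :
    HasSum (fun z : ℤ × ℤ => B33_R33 w ((i, z.1), (j, z.2))) (P33 w (i, j)) := by
  have h1 := B33_pq (B33_row hw 2 1 (by norm_num) i) (B33_row hw 1 2 (by norm_num) j)
  have h2 := B33_pq (B33_row hw 1 1 (by norm_num) i) (B33_row hw 2 2 (by norm_num) j)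
  have h3 := B33_pr (B33_row hw 2 1 (by norm_num) i) (B33_row hw 1 2 (by norm_num) (i + j))
  have h4 := B33_qr (B33_row hw 2 2 (by norm_num) j) (B33_row hw 1 1 (by norm_num) (i + j))
  have h5 := B33_qr (B33_row hw 2 1 (by norm_num) j) (B33_row hw 1 2 (by norm_num) (i + j))
  have h := (((h1.sub h2).add h3).add h4).add h5
  refine B33_cv h (fun z => ?_) ?_
  · simp only [B33_R33, Prod.mk_add_mk, pow_one]
  · simp only [P33, X, pow_one]
    ring

private theorem B33_ind : HasSum (fun n : ℤ => if n = 0 then (1 : ℂ) else 0) 1 := by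
  exact hasSum_ite_eq 0 1

private theorem B33_A (hw : Good w) (i j : ℤ) :
    HasSum (fun z : ℤ × ℤ => if ((i, z.1) : ℤ × ℤ) = 0 then
      4 * (iv w (j, z.2) ^ 3 * ic w (j, z.2) ^ 3) else 0) (if i = 0 then 4 * X w 3 3 j else 0) := by
  by_cases hi : i = 0
  · have h := (B33_pq B33_ind.summable (B33_row hw 3 3 (by norm_num) j)).mul_left 4
    rw [B33_ind.tsum_eq] at h
    subst hi
    simp only [if_true]
    refine B33_cv h (fun z => ?_) ?_
    · by_cases hz : z.1 = 0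
      · simp [hz]
      · simp [hz]
    · simp only [X]; ring
  · simp only [hi, if_false]
    refine B33_cv hasSum_zero (fun z => ?_) rfl
    simp [hi]

private theorem B33_C (hw : Good w) (i j : ℤ) :
    HasSum (fun z : ℤ × ℤ => if ((j, z.2) : ℤ × ℤ) = 0 then
      2 * (iv w (i, z.1) ^ 3 * ic w (i, z.1) ^ 3) else 0) (if j = 0 then 2 * X w 3 3 i else 0) := by
  by_cases hj : j = 0
  · have h := (B33_pq (B33_row hw 3 3 (by norm_num) i) B33_ind.summable).mul_left 2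
    rw [B33_ind.tsum_eq] at h
    subst hj
    simp only [if_true]
    refine B33_cv h (fun z => ?_) ?_
    · by_cases hz : z.2 = 0
      · simp [hz]
      · simp [hz]
    · simp only [X]; ring
  · simp only [hj, if_false]
    refine B33_cv hasSum_zero (fun z => ?_) rfl
    simp [hj]

private theorem B33_B (hw : Good w) (i j : ℤ) :
    HasSum (fun z : ℤ × ℤ => if ((i, z.1) + (j, z.2) : ℤ × ℤ) = 0 then
      4 * (iv w (i, z.1) ^ 3 * ic w (i, z.1) ^ 3) else 0)
      (if i + j = 0 then 4 * X w 3 3 i else 0) := by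
  by_cases hj : i + j = 0
  · have h := (B33_pr (B33_row hw 3 3 (by norm_num) i) B33_ind.summable).mul_left 4
    rw [B33_ind.tsum_eq] at h
    simp only [hj, if_true, Prod.mk_add_mk]
    refine B33_cv h (fun z => ?_) ?_
    · by_cases hz : z.1 + z.2 = 0
      · simp [hz]
      · simp [hz]
    · simp only [X]; ring
  · simp only [hj, if_false, Prod.mk_add_mk]
    refine B33_cv hasSum_zero (fun z => ?_) rfl
    simp [hj]

theorem blk33 (hw : Good w) (u : ℤ × ℤ) :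
    (∑' z : ℤ × ℤ, E33 w ((u.1, z.1), (u.2, z.2))).re = (P33 w u + C33 w u).re := by
  obtain ⟨i, j⟩ := u
  simp only
  have hMs : Summable (E33 w) :=
    Summable.of_norm (Summable.of_nonneg_of_le (fun _ => norm_nonneg _) (E33_le hw) (Bd_summable hw))
  have hM := (RVP.block_summable hMs (i, j)).hasSum
  simp only at hM
  have hM' := hM.mapL Complex.conjCLE.toContinuousLinearMap
  have hR := B33_R hw i j
  have hR' := hR.mapL Complex.conjCLE.toContinuousLinearMap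
  have h1 := hM.add hM'
  have h2 := (((hR.add hR').sub (B33_A hw i j)).add (B33_B hw i j)).sub (B33_C hw i j)
  have h3 := h1.unique (B33_cv h2 (fun z => B33_pt33 hw ((i, z.1), (j, z.2))) rfl)
  have ea : (if i = 0 then 4 * X w 3 3 j else 0) = 2 * (if i = 0 then 2 * X w 3 3 j else 0) := by
    split_ifs <;> ring
  have eb : (if i + j = 0 then 4 * X w 3 3 i else 0) =
      2 * (if i + j = 0 then 2 * X w 3 3 i else 0) := by
    split_ifs <;> ring
  have ec : (if j = 0 then 2 * X w 3 3 i else 0) = 2 * (if j = 0 then X w 3 3 i else 0) := by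
    split_ifs <;> ring
  rw [ea, eb, ec] at h3
  have h4 := congrArg Complex.re h3
  simp only [C33, Complex.add_re, Complex.sub_re, Complex.neg_re] at h4 ⊢
  have hc : ∀ z : ℂ, (Complex.conjCLE.toContinuousLinearMap z).re = z.re := fun z => by simp
  have h2r : ∀ z : ℂ, (2 * z).re = 2 * z.re := fun z => by simp
  rw [hc, hc, h2r, h2r, h2r] at h4
  linarith

end D8
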