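import Mathlib
import Pool.Agent.D8.Defs
import Pool.Agent.D8.Bas
import Pool.Agent.D8.Ker
import Pool.Agent.RVP.Sh

/-!
# D8/B51: the blocks of `E51`, PORT of RVP/B51 (`y ↦ w`; `RVP/Sh` is generic and can be used as it is)
-/

set_option autoImplicit false

namespace D8

variable {w : ℂ × ℂ}

private theorem B51_field {p q r s : ℂ} (hp : p ≠ 0) (hq : q ≠ 0) (hr : p + q ≠ 0) :
    2 * (p⁻¹ ^ 3 * (p + q)⁻¹ ^ 2 * r) + 2 * (p⁻¹ ^ 2 * (p + q)⁻¹ ^ 3 * r)
      + 2 * (p⁻¹ ^ 2 * (p + q)⁻¹ ^ 3 * s * 1)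
    = 2 * (q⁻¹ ^ 2 * r) * (p⁻¹ ^ 3 + (p + q)⁻¹ ^ 3)
      - 2 * (q⁻¹ ^ 3 * r) * (p⁻¹ ^ 2 - (p + q)⁻¹ ^ 2)
      + 2 * (p⁻¹ ^ 2 * s) * (p + q)⁻¹ ^ 3 - 0 + 0 - 0 := by
  field_simp
  ring

private theorem pt51 (hw : Good w) (x : (ℤ × ℤ) × (ℤ × ℤ)) :
    E51 w x = 2 * (iv w x.2 ^ 2 * ic w x.2) * (iv w x.1 ^ 3 + iv w (x.1 + x.2) ^ 3)
      - 2 * (iv w x.2 ^ 3 * ic w x.2) * (iv w x.1 ^ 2 - iv w (x.1 + x.2) ^ 2)
      + 2 * (iv w x.1 ^ 2 * ic w x.1) * iv w (x.1 + x.2) ^ 3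
      - (if x.1 = 0 then 4 * (iv w x.2 ^ 5 * ic w x.2) else 0)
      + (if x.1 + x.2 = 0 then 4 * (iv w x.1 ^ 5 * ic w x.1) else 0)
      - (if x.2 = 0 then 2 * (iv w x.1 ^ 5 * ic w x.1) else 0) := by
  obtain ⟨v, u⟩ := x
  simp only [E51]
  by_cases h1 : v = 0
  · subst h1
    by_cases h2 : u = 0
    · subst h2
      simp [iv_zero, ic_zero, nz]
    · simp only [iv_zero, ic_zero, zero_add, if_true, if_neg h2]
      ring
  · by_cases h2 : u = 0
    · subst h2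
      simp only [iv_zero, ic_zero, add_zero, if_true, if_neg h1, nz]
      ring
    · by_cases h3 : v + u = 0
      · have hwu : u = -v := (neg_eq_of_add_eq_zero_right h3).symm
        subst hwu
        simp only [if_neg h1, if_neg h2, add_neg_cancel, iv_zero, ic_zero, if_true, iv_neg, ic_neg]
        ring
      · rw [if_neg h1, if_neg h2, if_neg h3, nz, if_neg h2]
        have hp : pt w v ≠ 0 := fun h => h1 ((pt_eq_zero hw).1 h)
        have hq : pt w u ≠ 0 := fun h => h2 ((pt_eq_zero hw).1 h)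
        have hr : pt w v + pt w u ≠ 0 := by
          rw [← pt_add]
          exact fun h => h3 ((pt_eq_zero hw).1 h)
        simp only [iv, pt_add]
        exact B51_field hp hq hr

private theorem B51_row (hw : Good w) (a : ℕ) (ha : 1 ≤ a) (c : ℂ) (j : ℤ) :
    HasSum (fun n : ℤ => c * (iv w (j, n) ^ a * ic w (j, n))) (c * X w a 1 j) := by
  have h := ((row_summable (a := a) (b := 1) hw (by omega) j).hasSum).mul_left c
  simpa only [X, pow_one] using h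

private theorem B51_D (F : ℤ × ℤ → ℂ) (P : ℤ × ℤ → Prop) [DecidablePred P]
    (g : ℤ → ℤ × ℤ) (hg : Function.Injective g) (hP : ∀ z, P z ↔ z ∈ Set.range g) {a : ℂ}
    (h : HasSum (fun n => F (g n)) a) :
    HasSum (fun z : ℤ × ℤ => if P z then F z else 0) a := by
  refine (hg.hasSum_iff ?_).1 ?_
  · intro z hz
    rw [if_neg]
    exact fun h => hz ((hP z).1 h)
  · have e : ((fun z : ℤ × ℤ => if P z then F z else 0) ∘ g) = fun n => F (g n) := by
      funext n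
      exact if_pos ((hP (g n)).2 ⟨n, rfl⟩)
    rw [e]
    exact h

private theorem B51_D1 (hw : Good w) (i j : ℤ) :
    HasSum (fun z : ℤ × ℤ => if ((i, z.1) : ℤ × ℤ) = 0 then
      4 * (iv w (j, z.2) ^ 5 * ic w (j, z.2)) else 0) (if i = 0 then 4 * X w 5 1 j else 0) := by
  by_cases hi : i = 0
  · subst hi
    rw [if_pos rfl]
    refine B51_D (fun z => 4 * (iv w (j, z.2) ^ 5 * ic w (j, z.2)))
      (fun z => ((0, z.1) : ℤ × ℤ) = 0) (fun n => (0, n)) (fun a b h => (Prod.ext_iff.1 h).2)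
      (fun z => ⟨fun h => ⟨z.2, Prod.ext (Prod.ext_iff.1 h).2.symm rfl⟩, ?_⟩)
      (B51_row hw 5 (by norm_num) 4 j)
    rintro ⟨n, rfl⟩
    rfl
  · rw [if_neg hi]
    have : (fun z : ℤ × ℤ => if ((i, z.1) : ℤ × ℤ) = 0 then
      4 * (iv w (j, z.2) ^ 5 * ic w (j, z.2)) else 0) = fun _ => (0 : ℂ) := by
      funext z
      rw [if_neg]
      intro h
      exact hi (Prod.ext_iff.1 h).1
    rw [this]
    exact hasSum_zero

private theorem B51_D2 (hw : Good w) (i j : ℤ) :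
    HasSum (fun z : ℤ × ℤ => if ((i, z.1) + (j, z.2) : ℤ × ℤ) = 0 then
      4 * (iv w (i, z.1) ^ 5 * ic w (i, z.1)) else 0)
      (if i + j = 0 then 4 * X w 5 1 i else 0) := by
  by_cases hi : i + j = 0
  · rw [if_pos hi]
    refine B51_D (fun z => 4 * (iv w (i, z.1) ^ 5 * ic w (i, z.1)))
      (fun z => ((i, z.1) + (j, z.2) : ℤ × ℤ) = 0) (fun n => (n, -n))
      (fun a b h => (Prod.ext_iff.1 h).1)
      (fun z => ⟨fun h => ⟨z.1, Prod.ext rfl ?_⟩, ?_⟩)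
      (B51_row hw 5 (by norm_num) 4 i)
    · have h2 : z.1 + z.2 = 0 := (Prod.ext_iff.1 h).2
      show -z.1 = z.2
      omega
    · rintro ⟨n, rfl⟩
      refine Prod.ext hi ?_
      show n + -n = 0
      omega
  · rw [if_neg hi]
    have : (fun z : ℤ × ℤ => if ((i, z.1) + (j, z.2) : ℤ × ℤ) = 0 then
      4 * (iv w (i, z.1) ^ 5 * ic w (i, z.1)) else 0) = fun _ => (0 : ℂ) := by
      funext z
      rw [if_neg]
      intro h
      exact hi (Prod.ext_iff.1 h).1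
    rw [this]
    exact hasSum_zero

private theorem B51_D3 (hw : Good w) (i j : ℤ) :
    HasSum (fun z : ℤ × ℤ => if ((j, z.2) : ℤ × ℤ) = 0 then
      2 * (iv w (i, z.1) ^ 5 * ic w (i, z.1)) else 0) (if j = 0 then 2 * X w 5 1 i else 0) := by
  by_cases hi : j = 0
  · subst hi
    rw [if_pos rfl]
    refine B51_D (fun z => 2 * (iv w (i, z.1) ^ 5 * ic w (i, z.1)))
      (fun z => ((0, z.2) : ℤ × ℤ) = 0) (fun n => (n, 0)) (fun a b h => (Prod.ext_iff.1 h).1)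
      (fun z => ⟨fun h => ⟨z.1, Prod.ext rfl (Prod.ext_iff.1 h).2.symm⟩, ?_⟩)
      (B51_row hw 5 (by norm_num) 2 i)
    rintro ⟨n, rfl⟩
    rfl
  · rw [if_neg hi]
    have : (fun z : ℤ × ℤ => if ((j, z.2) : ℤ × ℤ) = 0 then
      2 * (iv w (i, z.1) ^ 5 * ic w (i, z.1)) else 0) = fun _ => (0 : ℂ) := by
      funext z
      rw [if_neg]
      intro h
      exact hi (Prod.ext_iff.1 h).1
    rw [this]
    exact hasSum_zero

theorem blk51 (hw : Good w) (u : ℤ × ℤ) :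
    ∑' z : ℤ × ℤ, E51 w ((u.1, z.1), (u.2, z.2)) = P51 w u + C51 w u := by
  obtain ⟨i, j⟩ := u
  have hr : ∀ (a b : ℕ), 2 ≤ a + b → ∀ m, Summable fun n : ℤ => iv w (m, n) ^ a * ic w (m, n) ^ b :=
    fun a b h m => row_summable hw h m
  have pq : ∀ (a b c d : ℕ), 2 ≤ a + b → 2 ≤ c + d →
      HasSum (fun z : ℤ × ℤ => (iv w (i, z.1) ^ a * ic w (i, z.1) ^ b) *
        (iv w (j, z.2) ^ c * ic w (j, z.2) ^ d)) (X w a b i * X w c d j) := by
    intro a b c d h1 h2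
    have h := RVP.tsum_pq (hr a b h1 i) (hr c d h2 j)
    have h' := h.1.hasSum
    rw [h.2] at h'
    exact h'
  have pr : ∀ (a b c d : ℕ), 2 ≤ a + b → 2 ≤ c + d →
      HasSum (fun z : ℤ × ℤ => (iv w (i, z.1) ^ a * ic w (i, z.1) ^ b) *
        (iv w (i + j, z.1 + z.2) ^ c * ic w (i + j, z.1 + z.2) ^ d))
        (X w a b i * X w c d (i + j)) := by
    intro a b c d h1 h2
    have h := RVP.tsum_pr (hr a b h1 i) (hr c d h2 (i + j))
    have h' := h.1.hasSum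
    rw [h.2] at h'
    exact h'
  have qr : ∀ (a b c d : ℕ), 2 ≤ a + b → 2 ≤ c + d →
      HasSum (fun z : ℤ × ℤ => (iv w (j, z.2) ^ a * ic w (j, z.2) ^ b) *
        (iv w (i + j, z.1 + z.2) ^ c * ic w (i + j, z.1 + z.2) ^ d))
        (X w a b j * X w c d (i + j)) := by
    intro a b c d h1 h2
    have h := RVP.tsum_qr (hr a b h1 j) (hr c d h2 (i + j))
    have h' := h.1.hasSum
    rw [h.2] at h'
    exact h'
  have H := (((((((((pq 3 0 2 1 (by norm_num) (by norm_num)).mul_left 2).add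
    ((qr 2 1 3 0 (by norm_num) (by norm_num)).mul_left 2)).sub
    ((pq 2 0 3 1 (by norm_num) (by norm_num)).mul_left 2)).add
    ((qr 3 1 2 0 (by norm_num) (by norm_num)).mul_left 2)).add
    ((pr 2 1 3 0 (by norm_num) (by norm_num)).mul_left 2)).sub (B51_D1 hw i j)).add
    (B51_D2 hw i j)).sub (B51_D3 hw i j))
  have H2 := H.tsum_eq
  simp only [pow_zero, mul_one, pow_one] at H2
  rw [P51, C51]
  show (∑' z : ℤ × ℤ, E51 w ((i, z.1), (j, z.2))) = _
  refine (tsum_congr fun z => ?_).trans (H2.trans ?_)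
  · rw [pt51 hw]
    simp only [Prod.mk_add_mk]
    ring
  · ring

end D8
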