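import Mathlib
import Pool.Agent.D8.Defs
import Pool.Agent.D8.Bas
import Pool.Agent.D8.Wt
import Pool.Agent.D8.Ker
import Pool.Agent.D8.B51
import Pool.Agent.D8.B33
import Pool.Agent.D8.AsmA
import Pool.Agent.D8.AsmB
import Pool.Agent.RVP.Sh

/-!
# D8/Asm: `S51 = -2 W31 e2`, `Re S33 = -Re (W22 g)`

PORT of RVP/Asm; the (5,1) and the (3,3) part separately: contact part `Σ_u c(u) C51(u) = -4 Σ sw X51` cancels the single sum
(`wt_single`), `Σ c C33 = -2 Σ sw X33` (real).  For the (3,3) part take real parts of `tsum_blocks` first.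
-/

set_option autoImplicit false

open Filter Topology

namespace D8

variable {w : ℂ × ℂ}

private theorem Asm_line (e : ℤ → ℤ × ℤ) (he : Function.Injective e) (f : ℤ × ℤ → ℂ)
    (hf : ∀ u, u ∉ Set.range e → f u = 0) (hs : Summable (fun m => f (e m))) :
    Summable f ∧ ∑' u, f u = ∑' m, f (e m) := by
  refine ⟨(he.summable_iff hf).1 hs, ?_⟩
  refine (he.tsum_eq ?_).symm
  intro u hu
  by_contra hn
  exact hu (hf u hn)

private theorem Asm_cw (Y : ℤ → ℂ) (hY : Summable fun m => ‖Y m‖) (a b : ℤ → ℤ) (k : ℂ) :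
    Summable fun m : ℤ => (cw (a m) (b m) : ℂ) * (k * Y m) := by
  refine Summable.of_norm_bounded (g := fun m => 20 * ‖k‖ * ‖Y m‖) (hY.mul_left _) ?_
  intro m
  rw [norm_mul, norm_mul, Complex.norm_real, Real.norm_eq_abs, ← mul_assoc]
  refine mul_le_mul_of_nonneg_right ?_ (norm_nonneg _)
  exact mul_le_mul_of_nonneg_right (cw_abs _ _) (norm_nonneg _)

private theorem Asm_C (Y : ℤ → ℂ) (hY : Summable fun m => ‖Y m‖) (k : ℂ) :
    Summable (fun u : ℤ × ℤ => (cw u.1 u.2 : ℂ) *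
      (-(if u.1 = 0 then 2 * k * Y u.2 else 0) + (if u.1 + u.2 = 0 then 2 * k * Y u.1 else 0)
        - (if u.2 = 0 then k * Y u.1 else 0))) ∧
      ∑' u : ℤ × ℤ, (cw u.1 u.2 : ℂ) *
      (-(if u.1 = 0 then 2 * k * Y u.2 else 0) + (if u.1 + u.2 = 0 then 2 * k * Y u.1 else 0)
        - (if u.2 = 0 then k * Y u.1 else 0)) = -2 * k * ∑' m : ℤ, (sw m : ℂ) * Y m := by
  have h1 := Asm_line (fun m => ((0 : ℤ), m)) (fun a b h => by simpa using h)
    (fun u : ℤ × ℤ => (cw u.1 u.2 : ℂ) * (if u.1 = 0 then 2 * k * Y u.2 else 0))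
    (by
      intro u hu
      have : u.1 ≠ 0 := by
        intro h0
        exact hu ⟨u.2, by ext <;> simp [h0]⟩
      simp [this])
    (by
      have := Asm_cw Y hY (fun _ => 0) (fun m => m) (2 * k)
      simpa using this)
  have h2 := Asm_line (fun m => (m, -m)) (fun a b h => by simpa using h)
    (fun u : ℤ × ℤ => (cw u.1 u.2 : ℂ) * (if u.1 + u.2 = 0 then 2 * k * Y u.1 else 0))
    (by
      intro u hu
      have : u.1 + u.2 ≠ 0 := by
        intro h0
        exact hu ⟨u.1, by ext <;> simp; omega⟩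
      simp [this])
    (by
      have := Asm_cw Y hY (fun m => m) (fun m => -m) (2 * k)
      simpa using this)
  have h3 := Asm_line (fun m => (m, (0 : ℤ))) (fun a b h => by simpa using h)
    (fun u : ℤ × ℤ => (cw u.1 u.2 : ℂ) * (if u.2 = 0 then k * Y u.1 else 0))
    (by
      intro u hu
      have : u.2 ≠ 0 := by
        intro h0
        exact hu ⟨u.1, by ext <;> simp [h0]⟩
      simp [this])
    (by
      have := Asm_cw Y hY (fun m => m) (fun _ => 0) k
      simpa using this)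
  have hfun : (fun u : ℤ × ℤ => (cw u.1 u.2 : ℂ) *
      (-(if u.1 = 0 then 2 * k * Y u.2 else 0) + (if u.1 + u.2 = 0 then 2 * k * Y u.1 else 0)
        - (if u.2 = 0 then k * Y u.1 else 0))) = fun u : ℤ × ℤ =>
      -((cw u.1 u.2 : ℂ) * (if u.1 = 0 then 2 * k * Y u.2 else 0)) +
      ((cw u.1 u.2 : ℂ) * (if u.1 + u.2 = 0 then 2 * k * Y u.1 else 0)) -
      ((cw u.1 u.2 : ℂ) * (if u.2 = 0 then k * Y u.1 else 0)) := by
    funext u
    ring
  rw [hfun]
  refine ⟨(h1.1.neg.add h2.1).sub h3.1, ?_⟩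
  rw [Summable.tsum_sub (h1.1.neg.add h2.1) h3.1, Summable.tsum_add h1.1.neg h2.1, tsum_neg,
    h1.2, h2.2, h3.2]
  have s1 := Asm_cw Y hY (fun _ => 0) (fun m => m) (2 * k)
  have s2 := Asm_cw Y hY (fun m => m) (fun m => -m) (2 * k)
  have s3 := Asm_cw Y hY (fun m => m) (fun _ => 0) k
  simp only [if_true, add_neg_cancel]
  rw [← tsum_neg, ← Summable.tsum_add s1.neg s2, ← Summable.tsum_sub (s1.neg.add s2) s3,
    ← tsum_mul_left]
  refine tsum_congr fun m => ?_
  rw [wt_single m]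
  push_cast
  ring

private theorem C51_sum (hw : Good w) :
    Summable (fun u : ℤ × ℤ => (cw u.1 u.2 : ℂ) * C51 w u) ∧
      ∑' u : ℤ × ℤ, (cw u.1 u.2 : ℂ) * C51 w u = -4 * ∑' m : ℤ, (sw m : ℂ) * X w 5 1 m := by
  have h := Asm_C (X w 5 1) (X_summable hw (by norm_num)) 2
  have e : (2 : ℂ) * 2 = 4 := by norm_num
  have e' : (-2 : ℂ) * 2 = -4 := by norm_num
  rw [e, e'] at h
  exact h

private theorem C33_sum (hw : Good w) :
    Summable (fun u : ℤ × ℤ => (cw u.1 u.2 : ℂ) * C33 w u) ∧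
      ∑' u : ℤ × ℤ, (cw u.1 u.2 : ℂ) * C33 w u = -2 * ∑' m : ℤ, (sw m : ℂ) * X w 3 3 m := by
  have h := Asm_C (X w 3 3) (X_summable hw (by norm_num)) 1
  have e : (2 : ℂ) * 1 = 2 := by norm_num
  have e' : (-2 : ℂ) * 1 = -2 := by norm_num
  rw [e, e'] at h
  simp only [one_mul] at h
  exact h

private theorem Asm_swb (m : ℤ) : ‖(sw m : ℂ)‖ ≤ 20 := by
  rw [Complex.norm_real, Real.norm_eq_abs]
  exact sw_abs m

private theorem E51_single (hw : Good w) :
    ∑' v : ℤ × ℤ, (sw v.1 : ℂ) * (4 * (iv w v ^ 5 * ic w v)) =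
      4 * ∑' m : ℤ, (sw m : ℂ) * X w 5 1 m := by
  have h1 := tsum_rows (a := 5) (b := 1) hw (by norm_num) (fun m => (sw m : ℂ)) Asm_swb
  rw [← h1, ← tsum_mul_left]
  refine tsum_congr fun v => ?_
  rw [pow_one]
  ring

private theorem E33_single (hw : Good w) :
    ∑' v : ℤ × ℤ, (sw v.1 : ℂ) * (2 * (iv w v ^ 3 * ic w v ^ 3)) =
      2 * ∑' m : ℤ, (sw m : ℂ) * X w 3 3 m := by
  have h1 := tsum_rows (a := 3) (b := 3) hw (by norm_num) (fun m => (sw m : ℂ)) Asm_swb
  rw [← h1, ← tsum_mul_left]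
  refine tsum_congr fun v => ?_
  ring

theorem S51_eq (hw : Good w) : S51 w = -2 * W w 3 1 * e2 w := by
  have s51 := cE51_summable hw
  have b51 : ∀ u : ℤ × ℤ, ∑' z : ℤ × ℤ,
      (cw u.1 u.2 : ℂ) * E51 w ((u.1, z.1), (u.2, z.2)) =
      (cw u.1 u.2 : ℂ) * P51 w u + (cw u.1 u.2 : ℂ) * C51 w u := by
    intro u
    rw [tsum_mul_left, blk51 hw u]
    ring
  have t51 := RVP.tsum_blocks s51
  simp only at t51
  rw [tsum_congr b51] at t51
  have p51 := P51_summable hw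
  rw [Summable.tsum_add p51 (C51_sum hw).1, sum51 hw, (C51_sum hw).2] at t51
  rw [S51, t51, E51_single hw]
  ring

theorem S33_re (hw : Good w) {g : ℂ} (hg : Tendsto (Gs w) atTop (𝓝 g)) :
    (S33 w).re = -(W w 2 2 * g).re := by
  have s33 := cE33_summable hw
  have t33 := RVP.tsum_blocks s33
  have u33 := RVP.blocks_summable s33
  simp only at t33 u33
  -- real parts of the blocks
  have b33 : ∀ u : ℤ × ℤ, (∑' z : ℤ × ℤ,
      (cw u.1 u.2 : ℂ) * E33 w ((u.1, z.1), (u.2, z.2))).re =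
      cw u.1 u.2 * (P33 w u).re + ((cw u.1 u.2 : ℂ) * C33 w u).re := by
    intro u
    rw [tsum_mul_left, Complex.re_ofReal_mul, blk33 hw u, Complex.re_ofReal_mul, Complex.add_re]
    ring
  have v33 : Summable fun u : ℤ × ℤ =>
      cw u.1 u.2 * (P33 w u).re + ((cw u.1 u.2 : ℂ) * C33 w u).re := by
    refine (Complex.reCLM.summable u33).congr fun u => ?_
    exact b33 u
  have c33 : Summable fun u : ℤ × ℤ => ((cw u.1 u.2 : ℂ) * C33 w u).re :=
    Complex.reCLM.summable (C33_sum hw).1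
  have p33 : Summable fun u : ℤ × ℤ => cw u.1 u.2 * (P33 w u).re := by
    refine (v33.sub c33).congr fun u => ?_
    ring
  have r33 : (∑' x : V4, (cw x.1.1 x.2.1 : ℂ) * E33 w x).re =
      ∑' u : ℤ × ℤ, (cw u.1 u.2 * (P33 w u).re + ((cw u.1 u.2 : ℂ) * C33 w u).re) := by
    rw [t33, Complex.re_tsum u33]
    exact tsum_congr b33
  rw [Summable.tsum_add p33 c33, sum33 hw hg p33, ← Complex.re_tsum (C33_sum hw).1,
    (C33_sum hw).2] at r33
  rw [S33, Complex.add_re, r33, E33_single hw]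
  simp only [Complex.mul_re, Complex.neg_re, Complex.neg_im, Complex.re_ofNat, Complex.im_ofNat]
  ring

end D8
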