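import Mathlib
import Pool.Agent.D8.Defs
import Pool.Agent.D8.Bas
import Pool.Agent.D8.Wt
import Pool.Agent.D8.RowB

/-!
# D8/PsG: the primitive `Gq` of `Psi` and its lattice sum

`Psi = -1/2 + 3 Σ_{m,k≥1} ψ(m) k³ q^{mk}` (`240/80 = 3`; `σ₃(n) = Σ_{mk=n} k³`, `ψ = 1 + 4·[2∣] - 9·[3∣] - 36·[6∣]`), so `Gq' = Psi`
(termwise).  Lattice `(t,1)`: for `A = 1/p`, `B = 1/p̄`, `B - A = 2 i m y A B`, so
`A³B + A²B² + AB³ = (B³ - A³)/(2imy)` for `m ≠ 0`, hence `y Σ_n (2 Re (A³B) + |A|⁴) = -Im X30(m)/m`; `m = 0`: `3·2ζ(4) y = π⁴y/15`.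
`X30_eq` gives `Im Gq = (3/(16π⁴)) y Σ_v ψ(m) (2 Re (A³B) + |A|⁴)` (absolutely convergent).
-/

set_option autoImplicit false

open Filter Topology
open scoped ArithmeticFunction.sigma ComplexConjugate

namespace D8

private theorem PsG_norm_qq (t : ℂ) : ‖RV15W.qq t‖ = Real.exp (-(2 * Real.pi * t.im)) := by
  unfold RV15W.qq
  rw [Complex.norm_exp]
  congr 1
  simp [Complex.mul_re, Complex.mul_im]

private theorem PsG_qq_lt {t : ℂ} (ht : 0 < t.im) : ‖RV15W.qq t‖ < 1 := by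
  rw [PsG_norm_qq]
  apply Real.exp_lt_one_iff.mpr
  have := mul_pos Real.pi_pos ht
  linarith

/-! ### summability -/

private theorem PsG_sum {r : ℝ} (h0 : 0 ≤ r) (h1 : r < 1) (p : ℕ) :
    Summable fun x : ℕ × ℕ => ((x.2 : ℝ) + 1) ^ p * r ^ ((x.1 + 1) * (x.2 + 1)) := by
  have hA : Summable fun m : ℕ => r ^ m := summable_geometric_of_lt_one h0 h1
  have hB : Summable fun k : ℕ => ((k : ℝ) + 1) ^ p * r ^ (k + 1) := by
    have hs : Summable fun n : ℕ => (n : ℝ) ^ p * r ^ n :=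
      summable_pow_mul_geometric_of_norm_lt_one p (by rw [Real.norm_of_nonneg h0]; exact h1)
    have hs2 := (summable_nat_add_iff 1).mpr hs
    refine hs2.congr fun n => ?_
    push_cast
    rfl
  have hAB := hA.mul_of_nonneg hB (fun m => by positivity) (fun k => by positivity)
  refine Summable.of_nonneg_of_le (fun x => by positivity) (fun x => ?_) hAB
  have h : r ^ ((x.1 + 1) * (x.2 + 1)) ≤ r ^ (x.1 + (x.2 + 1)) := by
    refine pow_le_pow_of_le_one h0 h1.le ?_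
    nlinarith
  calc ((x.2 : ℝ) + 1) ^ p * r ^ ((x.1 + 1) * (x.2 + 1))
      ≤ ((x.2 : ℝ) + 1) ^ p * r ^ (x.1 + (x.2 + 1)) := by gcongr
    _ = r ^ x.1 * (((x.2 : ℝ) + 1) ^ p * r ^ (x.2 + 1)) := by
      rw [pow_add]
      ring

private theorem PsG_sumC {r : ℂ} (h1 : ‖r‖ < 1) (p : ℕ) :
    Summable fun x : ℕ × ℕ => ‖((x.2 : ℂ) + 1) ^ p * r ^ ((x.1 + 1) * (x.2 + 1))‖ := by
  refine (PsG_sum (norm_nonneg r) h1 p).congr fun x => ?_
  rw [norm_mul, norm_pow, norm_pow]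
  congr 2
  have : ((x.2 : ℂ) + 1) = (((x.2 : ℝ) + 1 : ℝ) : ℂ) := by push_cast; rfl
  rw [this, Complex.norm_real, Real.norm_of_nonneg (by positivity)]

/-! ### `Psi` as a double sum -/

private noncomputable def gg (r : ℂ) (d : ℕ+) : ℂ := ∑' c : ℕ+, (c : ℂ) ^ 3 * r ^ ((d : ℕ) * c)

private theorem gg_summable {r : ℂ} (hr : ‖r‖ < 1) : Summable (gg r) :=
  (summable_prod_mul_pow 3 hr).prod

private theorem e4_gg {r : ℂ} (hr : ‖r‖ < 1) : RV15W.e4 r = 1 + 240 * ∑' d, gg r d := by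
  unfold RV15W.e4 gg
  rw [tsum_prod_pow_eq_tsum_sigma 3 hr,
    ← tsum_pnat_eq_tsum_succ (f := fun n : ℕ => (σ 3 n : ℂ) * r ^ n)]

private theorem gg_pow (r : ℂ) (j d : ℕ+) : gg (r ^ (j : ℕ)) d = gg r (j * d) := by
  unfold gg
  refine tsum_congr fun c => ?_
  rw [← pow_mul]
  congr 2
  push_cast
  ring

private theorem tsum_ind (f : ℕ+ → ℂ) (j : ℕ+) :
    ∑' d : ℕ+, (if (j : ℕ) ∣ d then f d else 0) = ∑' d, f (j * d) := by
  have hinj : Function.Injective fun d : ℕ+ => j * d := fun a b h => mul_left_cancel h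
  rw [← hinj.tsum_eq (f := fun d : ℕ+ => if (j : ℕ) ∣ d then f d else 0)]
  · refine tsum_congr fun c => ?_
    have : (j : ℕ) ∣ ((j * c : ℕ+) : ℕ) := by
      rw [PNat.mul_coe]
      exact Dvd.intro _ rfl
    simp only [this, if_true]
  · intro d hd
    have h : (j : ℕ) ∣ d := by
      by_contra h
      simp [h] at hd
    have h2 : j ∣ d := PNat.dvd_iff.mpr h
    obtain ⟨c, hc⟩ := h2
    exact ⟨c, hc.symm⟩

private theorem sum_ind {f : ℕ+ → ℂ} (hf : Summable f) (j : ℕ) :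
    Summable fun d : ℕ+ => (if j ∣ (d : ℕ) then f d else 0) := by
  have h := hf.indicator {d : ℕ+ | j ∣ (d : ℕ)}
  refine h.congr fun d => ?_
  by_cases hd : j ∣ (d : ℕ) <;> simp [Set.indicator, hd]

private theorem pf_ind (d : ℕ+) :
    (pf (d : ℤ) : ℂ) = 1 + 4 * (if 2 ∣ (d : ℕ) then 1 else 0) - 9 * (if 3 ∣ (d : ℕ) then 1 else 0)
      - 36 * (if 6 ∣ (d : ℕ) then 1 else 0) := by
  have h2 : ((d : ℕ) : ℤ) % 2 = 0 ↔ 2 ∣ (d : ℕ) := by omega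
  have h3 : ((d : ℕ) : ℤ) % 3 = 0 ↔ 3 ∣ (d : ℕ) := by omega
  have h6 : 6 ∣ (d : ℕ) ↔ 2 ∣ (d : ℕ) ∧ 3 ∣ (d : ℕ) := by omega
  unfold pf RVP.sg RVP.t3
  simp only [h2, h3, h6]
  by_cases a : 2 ∣ (d : ℕ) <;> by_cases b : 3 ∣ (d : ℕ) <;> simp [a, b] <;> norm_num

private theorem sum_pf {r : ℂ} (hr : ‖r‖ < 1) :
    (RV15W.e4 r + 4 * RV15W.e4 (r ^ 2) - 9 * RV15W.e4 (r ^ 3) - 36 * RV15W.e4 (r ^ 6)) / 80 =
      -1 / 2 + 3 * ∑' d : ℕ+, (pf (d : ℤ) : ℂ) * gg r d := by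
  have hs := gg_summable hr
  have hp : ∀ j : ℕ, j ≠ 0 → ‖r ^ j‖ < 1 := fun j hj => by
    rw [norm_pow]
    exact pow_lt_one₀ (norm_nonneg _) hr hj
  have e : ∀ j : ℕ+, RV15W.e4 (r ^ (j : ℕ)) =
      1 + 240 * ∑' d : ℕ+, (if (j : ℕ) ∣ d then gg r d else 0) := fun j => by
    rw [e4_gg (hp j j.ne_zero), tsum_ind]
    congr 2
    exact tsum_congr fun d => gg_pow r j d
  have e2 := e 2
  have e3 := e 3
  have e6 := e 6
  have e1 := e4_gg hr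
  have hs2 := sum_ind hs 2
  have hs3 := sum_ind hs 3
  have hs6 := sum_ind hs 6
  have key : ∑' d : ℕ+, (pf (d : ℤ) : ℂ) * gg r d =
      ∑' d, gg r d + 4 * ∑' d : ℕ+, (if 2 ∣ (d : ℕ) then gg r d else 0)
        - 9 * ∑' d : ℕ+, (if 3 ∣ (d : ℕ) then gg r d else 0)
        - 36 * ∑' d : ℕ+, (if 6 ∣ (d : ℕ) then gg r d else 0) := by
    rw [← tsum_mul_left (a := (4 : ℂ)), ← tsum_mul_left (a := (9 : ℂ)),
      ← tsum_mul_left (a := (36 : ℂ)), ← hs.tsum_add (hs2.mul_left 4),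
      ← (hs.add (hs2.mul_left 4)).tsum_sub (hs3.mul_left 9),
      ← ((hs.add (hs2.mul_left 4)).sub (hs3.mul_left 9)).tsum_sub (hs6.mul_left 36)]
    refine tsum_congr fun d => ?_
    rw [pf_ind]
    by_cases a : 2 ∣ (d : ℕ) <;> by_cases b : 3 ∣ (d : ℕ) <;> by_cases c : 6 ∣ (d : ℕ) <;>
      simp only [a, b, c, if_true, if_false] <;> ring
  have e2' : RV15W.e4 (r ^ 2) = 1 + 240 * ∑' d : ℕ+, (if 2 ∣ (d : ℕ) then gg r d else 0) := e2
  have e3' : RV15W.e4 (r ^ 3) = 1 + 240 * ∑' d : ℕ+, (if 3 ∣ (d : ℕ) then gg r d else 0) := e3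
  have e6' : RV15W.e4 (r ^ 6) = 1 + 240 * ∑' d : ℕ+, (if 6 ∣ (d : ℕ) then gg r d else 0) := e6
  rw [key, e1, e2', e3', e6']
  ring

private theorem PsG_sumPf {r : ℂ} (h1 : ‖r‖ < 1) (p : ℕ) (a : ℕ → ℂ) (ha : ∀ n, ‖a n‖ ≤ 40) :
    Summable fun x : ℕ × ℕ => a x.1 * (((x.2 : ℂ) + 1) ^ p * r ^ ((x.1 + 1) * (x.2 + 1))) := by
  refine Summable.of_norm_bounded ((PsG_sumC h1 p).mul_left 40) fun x => ?_
  rw [norm_mul]
  exact mul_le_mul_of_nonneg_right (ha _) (norm_nonneg _)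

private theorem PsG_Psi {t : ℂ} (ht : 0 < t.im) :
    D8W.Psi t = -1 / 2 + 3 * ∑' x : ℕ × ℕ, (pf (x.1 + 1) : ℂ) *
      (((x.2 : ℂ) + 1) ^ 3 * RV15W.qq t ^ ((x.1 + 1) * (x.2 + 1))) := by
  have hr := PsG_qq_lt ht
  unfold D8W.Psi
  rw [sum_pf hr, (PsG_sumPf hr 3 (fun n => (pf (n + 1) : ℂ)) (fun n => by
    rw [Complex.norm_real, Real.norm_eq_abs]
    exact pf_abs _)).tsum_prod]
  congr 2
  unfold gg
  rw [tsum_pnat_eq_tsum_succ (f := fun n : ℕ => (pf (n : ℤ) : ℂ) *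
    ∑' c : ℕ+, (c : ℂ) ^ 3 * RV15W.qq t ^ (n * c))]
  refine tsum_congr fun m => ?_
  dsimp only
  rw [tsum_mul_left, tsum_pnat_eq_tsum_succ (f := fun n : ℕ => (n : ℂ) ^ 3 *
    RV15W.qq t ^ ((m + 1) * n))]
  push_cast
  rfl

/-! ### the derivative -/

private noncomputable def FF (x : ℕ × ℕ) (t : ℂ) : ℂ :=
  ((pf (x.1 + 1) : ℂ) * (x.2 + 1) ^ 2 / (x.1 + 1)) * RV15W.qq t ^ ((x.1 + 1) * (x.2 + 1))

private theorem PsG_qqd (t : ℂ) : HasDerivAt RV15W.qq (RV15W.qq t * (2 * Real.pi * Complex.I)) t := by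
  have h : HasDerivAt (fun s : ℂ => 2 * Real.pi * Complex.I * s) (2 * Real.pi * Complex.I) t := by
    simpa using (hasDerivAt_id t).const_mul (2 * Real.pi * Complex.I)
  exact h.cexp

private theorem PsG_FFd (x : ℕ × ℕ) (t : ℂ) :
    HasDerivAt (FF x) (2 * Real.pi * Complex.I * ((pf (x.1 + 1) : ℂ) *
      (((x.2 : ℂ) + 1) ^ 3 * RV15W.qq t ^ ((x.1 + 1) * (x.2 + 1))))) t := by
  have h := (((PsG_qqd t).pow ((x.1 + 1) * (x.2 + 1))).const_mul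
    ((pf (x.1 + 1) : ℂ) * (x.2 + 1) ^ 2 / (x.1 + 1)))
  have h0 : ((x.1 : ℂ) + 1) ≠ 0 := by exact_mod_cast Nat.succ_ne_zero x.1
  refine HasDerivAt.congr_deriv (f := FF x) h ?_
  have hn : (x.1 + 1) * (x.2 + 1) - 1 + 1 = (x.1 + 1) * (x.2 + 1) :=
    Nat.sub_add_cancel (Nat.mul_pos (Nat.succ_pos _) (Nat.succ_pos _))
  have e : RV15W.qq t ^ ((x.1 + 1) * (x.2 + 1)) =
      RV15W.qq t ^ ((x.1 + 1) * (x.2 + 1) - 1) * RV15W.qq t := by
    rw [← pow_succ, hn]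
  rw [e]
  push_cast
  field_simp

private theorem PsG_FFle {c : ℝ} {x : ℕ × ℕ} {t : ℂ} (ht : c ≤ t.im) :
    ‖FF x t‖ ≤ 40 * (((x.2 : ℝ) + 1) ^ 2 * Real.exp (-(2 * Real.pi * c)) ^ ((x.1 + 1) * (x.2 + 1))) := by
  unfold FF
  rw [norm_mul, norm_pow, PsG_norm_qq, norm_div, norm_mul, norm_pow, Complex.norm_real,
    Real.norm_eq_abs]
  have e1 : ‖((x.2 : ℂ) + 1)‖ = (x.2 : ℝ) + 1 := by
    have : ((x.2 : ℂ) + 1) = (((x.2 : ℝ) + 1 : ℝ) : ℂ) := by push_cast; rfl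
    rw [this, Complex.norm_real, Real.norm_of_nonneg (by positivity)]
  have e2 : ‖((x.1 : ℂ) + 1)‖ = (x.1 : ℝ) + 1 := by
    have : ((x.1 : ℂ) + 1) = (((x.1 : ℝ) + 1 : ℝ) : ℂ) := by push_cast; rfl
    rw [this, Complex.norm_real, Real.norm_of_nonneg (by positivity)]
  rw [e1, e2]
  have h1 : |pf (x.1 + 1)| ≤ 40 := pf_abs _
  have h2 : Real.exp (-(2 * Real.pi * t.im)) ≤ Real.exp (-(2 * Real.pi * c)) := by
    apply Real.exp_le_exp.mpr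
    have := mul_le_mul_of_nonneg_left ht (show 0 ≤ 2 * Real.pi by positivity)
    linarith
  have h3 : |pf (x.1 + 1)| * ((x.2 : ℝ) + 1) ^ 2 / ((x.1 : ℝ) + 1) ≤ 40 * ((x.2 : ℝ) + 1) ^ 2 := by
    rw [div_le_iff₀ (by positivity)]
    have h4 : (1 : ℝ) ≤ (x.1 : ℝ) + 1 := by
      have : (0 : ℝ) ≤ x.1 := by positivity
      linarith
    calc |pf (x.1 + 1)| * ((x.2 : ℝ) + 1) ^ 2 ≤ 40 * ((x.2 : ℝ) + 1) ^ 2 := by gcongr
      _ = 40 * ((x.2 : ℝ) + 1) ^ 2 * 1 := by ring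
      _ ≤ 40 * ((x.2 : ℝ) + 1) ^ 2 * ((x.1 : ℝ) + 1) := by gcongr
  calc |pf (x.1 + 1)| * ((x.2 : ℝ) + 1) ^ 2 / ((x.1 : ℝ) + 1) *
        Real.exp (-(2 * Real.pi * t.im)) ^ ((x.1 + 1) * (x.2 + 1))
      ≤ 40 * ((x.2 : ℝ) + 1) ^ 2 * Real.exp (-(2 * Real.pi * c)) ^ ((x.1 + 1) * (x.2 + 1)) := by
        gcongr
    _ = _ := by ring

theorem Gq_deriv {t : ℂ} (ht : 0 < t.im) : HasDerivAt Gq (D8W.Psi t) t := by
  set c : ℝ := t.im / 2 with hc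
  have hc0 : 0 < c := by rw [hc]; linarith
  have hU : IsOpen {s : ℂ | c < s.im} := isOpen_lt continuous_const Complex.continuous_im
  have htU : t ∈ {s : ℂ | c < s.im} := by
    show c < t.im
    rw [hc]
    linarith
  have hr0 : 0 ≤ Real.exp (-(2 * Real.pi * c)) := (Real.exp_pos _).le
  have hr1 : Real.exp (-(2 * Real.pi * c)) < 1 := by
    apply Real.exp_lt_one_iff.mpr
    have := mul_pos Real.pi_pos hc0
    linarith
  have hu := (PsG_sum hr0 hr1 2).mul_left 40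
  have hd : ∀ x : ℕ × ℕ, DifferentiableOn ℂ (FF x) {s : ℂ | c < s.im} := fun x s _ =>
    (PsG_FFd x s).differentiableAt.differentiableWithinAt
  have hle : ∀ (x : ℕ × ℕ) (s : ℂ), s ∈ {s : ℂ | c < s.im} → ‖FF x s‖ ≤
      40 * (((x.2 : ℝ) + 1) ^ 2 * Real.exp (-(2 * Real.pi * c)) ^ ((x.1 + 1) * (x.2 + 1))) :=
    fun x s hs => PsG_FFle (le_of_lt hs)
  have h1 := Complex.hasSum_deriv_of_summable_norm hu hd hU hle htU
  have h2 := (Complex.differentiableOn_tsum_of_summable_norm hu hd hU hle).differentiableAt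
    (hU.mem_nhds htU)
  have h3 := h2.hasDerivAt
  rw [← h1.tsum_eq] at h3
  have h4 : ∑' x : ℕ × ℕ, deriv (FF x) t = 2 * Real.pi * Complex.I *
      ∑' x : ℕ × ℕ, (pf (x.1 + 1) : ℂ) *
        (((x.2 : ℂ) + 1) ^ 3 * RV15W.qq t ^ ((x.1 + 1) * (x.2 + 1))) := by
    rw [← tsum_mul_left]
    exact tsum_congr fun x => (PsG_FFd x t).deriv
  rw [h4] at h3
  have h5 := (((hasDerivAt_id t).neg).div_const 2).add
    (h3.const_mul (3 / (2 * (Real.pi : ℂ) * Complex.I)))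
  have e : Gq = fun s : ℂ => -s / 2 + 3 / (2 * (Real.pi : ℂ) * Complex.I) *
      ∑' x : ℕ × ℕ, FF x s := by
    funext s
    rfl
  rw [e, PsG_Psi ht]
  have hpi : (Real.pi : ℂ) ≠ 0 := by exact_mod_cast Real.pi_ne_zero
  have hI := Complex.I_ne_zero
  refine HasDerivAt.congr_deriv (f := fun s : ℂ => -s / 2 + 3 / (2 * (Real.pi : ℂ) * Complex.I) *
      ∑' x : ℕ × ℕ, FF x s) h5 ?_
  field_simp

/-! ### the lattice sum -/

private theorem PsG_pt (t : ℂ) (m n : ℤ) : pt (t, 1) (m, n) = m * t + n := by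
  unfold pt
  simp

private theorem PsG_zeta : ∑' n : ℤ, ((n : ℂ)⁻¹) ^ 4 = ((Real.pi ^ 4 / 45 : ℝ) : ℂ) := by
  have hS0 : Summable fun n : ℤ => 1 / (n : ℝ) ^ 4 := Real.summable_one_div_int_pow.mpr (by norm_num)
  have hE : Function.Even fun n : ℤ => 1 / (n : ℝ) ^ 4 := by
    intro n
    simp only
    push_cast
    congr 1
    ring
  have h1 := tsum_int_eq_zero_add_two_mul_tsum_pnat hE hS0
  have h2 : ∑' n : ℕ+, 1 / (((n : ℕ) : ℤ) : ℝ) ^ 4 = Real.pi ^ 4 / 90 := by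
    have h3 := tsum_pnat_eq_tsum_succ (f := fun n : ℕ => 1 / (n : ℝ) ^ 4)
    have h4 : ∑' n : ℕ, 1 / (n : ℝ) ^ 4 = Real.pi ^ 4 / 90 := hasSum_zeta_four.tsum_eq
    have h5 := hasSum_zeta_four.summable.tsum_eq_zero_add
    rw [h4] at h5
    have h6 : ∑' n : ℕ+, 1 / (((n : ℕ) : ℤ) : ℝ) ^ 4 = ∑' n : ℕ, 1 / (((n + 1 : ℕ)) : ℝ) ^ 4 := by
      rw [← h3]
      push_cast
      rfl
    rw [h6]
    rw [h5]
    simp
  rw [h2] at h1
  have h7 : ∑' n : ℤ, ((n : ℂ)⁻¹) ^ 4 = ((∑' n : ℤ, 1 / (n : ℝ) ^ 4 : ℝ) : ℂ) := by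
    rw [Complex.ofReal_tsum]
    refine tsum_congr fun n => ?_
    push_cast
    rw [inv_pow, one_div]
  rw [h7, h1]
  congr 1
  rw [nsmul_eq_mul]
  simp
  ring

private theorem PsG_row0 (t : ℂ) : 2 * (X (t, 1) 3 1 0).re + (X (t, 1) 2 2 0).re = Real.pi ^ 4 / 15 := by
  have h : ∀ a b : ℕ, a + b = 4 → X (t, 1) a b 0 = ((Real.pi ^ 4 / 45 : ℝ) : ℂ) := by
    intro a b hab
    rw [← PsG_zeta]
    unfold X
    refine tsum_congr fun n => ?_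
    unfold iv ic
    rw [PsG_pt]
    simp only [Int.cast_zero, zero_mul, zero_add]
    have : conj ((n : ℤ) : ℂ) = (n : ℂ) := map_intCast _ n
    rw [this, ← pow_add, hab]
  rw [h 3 1 rfl, h 2 2 rfl, Complex.ofReal_re]
  ring

private theorem PsG_alg {t : ℂ} (ht : 0 < t.im) {m : ℤ} (hm : m ≠ 0) (n : ℤ) :
    2 * Complex.I * (m * t.im : ℝ) * (iv (t, 1) (m, n) ^ 3 * ic (t, 1) (m, n) ^ 1 +
      iv (t, 1) (m, n) ^ 2 * ic (t, 1) (m, n) ^ 2 + iv (t, 1) (m, n) ^ 1 * ic (t, 1) (m, n) ^ 3) =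
      iv (t, 1) (m, n) ^ 0 * ic (t, 1) (m, n) ^ 3 - iv (t, 1) (m, n) ^ 3 * ic (t, 1) (m, n) ^ 0 := by
  have hg := good_one ht
  have hp : pt (t, 1) (m, n) ≠ 0 := by
    rw [Ne, pt_eq_zero hg]
    intro h
    exact hm (congrArg Prod.fst h)
  have hc : conj (pt (t, 1) (m, n)) ≠ 0 := (map_ne_zero _).mpr hp
  have him : (2 * Complex.I * (m * t.im : ℝ) : ℂ) = pt (t, 1) (m, n) - conj (pt (t, 1) (m, n)) := by
    rw [Complex.sub_conj, PsG_pt]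
    have : (((m : ℂ) * t + n).im : ℝ) = m * t.im := by
      simp [Complex.add_im, Complex.mul_im]
    rw [this]
    push_cast
    ring
  rw [him]
  unfold iv ic
  field_simp
  ring

private theorem PsG_row {t : ℂ} (ht : 0 < t.im) {m : ℤ} (hm : m ≠ 0) :
    (m : ℝ) * (t.im * (2 * (X (t, 1) 3 1 m).re + (X (t, 1) 2 2 m).re)) = -(X (t, 1) 3 0 m).im := by
  have hg := good_one ht
  have s31 := row_summable (a := 3) (b := 1) hg (by norm_num) m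
  have s22 := row_summable (a := 2) (b := 2) hg (by norm_num) m
  have s13 := row_summable (a := 1) (b := 3) hg (by norm_num) m
  have s03 := row_summable (a := 0) (b := 3) hg (by norm_num) m
  have s30 := row_summable (a := 3) (b := 0) hg (by norm_num) m
  have h : 2 * Complex.I * (m * t.im : ℝ) * (X (t, 1) 3 1 m + X (t, 1) 2 2 m + X (t, 1) 1 3 m) =
      X (t, 1) 0 3 m - X (t, 1) 3 0 m := by
    unfold X
    rw [← s31.tsum_add s22, ← (s31.add s22).tsum_add s13, ← tsum_mul_left, ← s03.tsum_sub s30]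
    exact tsum_congr fun n => PsG_alg ht hm n
  rw [← X_conj (t, 1) 3 1 m, ← X_conj (t, 1) 3 0 m] at h
  have h22 : (X (t, 1) 2 2 m).im = 0 := by
    have := X_conj (t, 1) 2 2 m
    exact Complex.conj_eq_iff_im.mp this
  have h' := congrArg Complex.im h
  simp only [Complex.mul_im, Complex.mul_re, Complex.add_re, Complex.add_im, Complex.conj_re,
    Complex.conj_im, Complex.sub_im, Complex.I_re, Complex.I_im, Complex.ofReal_re,
    Complex.ofReal_im, Complex.re_ofNat, Complex.im_ofNat] at h'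
  linarith

private theorem PsG_rowpos {t : ℂ} (ht : 0 < t.im) (m : ℕ) :
    t.im * (2 * (X (t, 1) 3 1 ((m + 1 : ℕ) : ℤ)).re + (X (t, 1) 2 2 ((m + 1 : ℕ) : ℤ)).re) =
      -(4 * Real.pi ^ 3) / (m + 1) *
        (∑' k : ℕ, ((k : ℂ) + 1) ^ 2 * RV15W.qq t ^ ((m + 1) * (k + 1))).re := by
  have hm : (m + 1 : ℕ) ≠ 0 := Nat.succ_ne_zero m
  have hm' : ((m + 1 : ℕ) : ℤ) ≠ 0 := by exact_mod_cast hm
  have h := PsG_row ht hm'
  rw [X30_eq ht hm] at h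
  have e : (4 * (Real.pi : ℂ) ^ 3 * Complex.I *
      ∑' k : ℕ, ((k : ℂ) + 1) ^ 2 * RV15W.qq t ^ ((m + 1) * (k + 1))).im =
      4 * Real.pi ^ 3 * (∑' k : ℕ, ((k : ℂ) + 1) ^ 2 * RV15W.qq t ^ ((m + 1) * (k + 1))).re := by
    have e1 : (4 * (Real.pi : ℂ) ^ 3 * Complex.I) = ((4 * Real.pi ^ 3 : ℝ) : ℂ) * Complex.I := by
      push_cast
      ring
    rw [e1, mul_assoc, Complex.im_ofReal_mul, Complex.I_mul_im]
  rw [e] at h
  have h0 : ((m : ℝ) + 1) ≠ 0 := by positivity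
  push_cast at h
  push_cast
  field_simp
  linarith

private theorem PsG_lat {t : ℂ} (ht : 0 < t.im) :
    ∑' v : ℤ × ℤ, pf v.1 * (2 * (iv (t, 1) v ^ 3 * ic (t, 1) v).re + ‖iv (t, 1) v‖ ^ 4) =
      ∑' m : ℤ, pf m * (2 * (X (t, 1) 3 1 m).re + (X (t, 1) 2 2 m).re) := by
  have hg := good_one ht
  have hb : ∀ m : ℤ, ‖(pf m : ℂ)‖ ≤ 40 := fun m => by
    rw [Complex.norm_real, Real.norm_eq_abs]
    exact pf_abs m
  have hs : ∀ a b : ℕ, 3 ≤ a + b → Summable fun v : ℤ × ℤ =>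
      (pf v.1 : ℂ) * (iv (t, 1) v ^ a * ic (t, 1) v ^ b) := by
    intro a b hab
    refine Summable.of_norm_bounded ((lat_summable hg hab).norm.mul_left 40) fun v => ?_
    rw [norm_mul]
    exact mul_le_mul_of_nonneg_right (hb v.1) (norm_nonneg _)
  have hX : ∀ a b : ℕ, 3 ≤ a + b → Summable fun m : ℤ => (pf m : ℂ) * X (t, 1) a b m := by
    intro a b hab
    refine Summable.of_norm_bounded ((X_summable hg hab).mul_left 40) fun m => ?_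
    rw [norm_mul]
    exact mul_le_mul_of_nonneg_right (hb m) (norm_nonneg _)
  have h31 := tsum_rows (a := 3) (b := 1) hg (by norm_num) (fun m => (pf m : ℂ)) hb
  have h22 := tsum_rows (a := 2) (b := 2) hg (by norm_num) (fun m => (pf m : ℂ)) hb
  have hre : ∀ a b : ℕ, 3 ≤ a + b →
      ∑' v : ℤ × ℤ, pf v.1 * (iv (t, 1) v ^ a * ic (t, 1) v ^ b).re =
        (∑' v : ℤ × ℤ, (pf v.1 : ℂ) * (iv (t, 1) v ^ a * ic (t, 1) v ^ b)).re := by
    intro a b hab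
    rw [Complex.re_tsum (hs a b hab)]
    exact tsum_congr fun v => (Complex.re_ofReal_mul _ _).symm
  have hsre : ∀ a b : ℕ, 3 ≤ a + b →
      Summable fun v : ℤ × ℤ => pf v.1 * (iv (t, 1) v ^ a * ic (t, 1) v ^ b).re := by
    intro a b hab
    exact (Complex.hasSum_re (hs a b hab).hasSum).summable.congr fun v =>
      Complex.re_ofReal_mul _ _
  have hXre : ∀ a b : ℕ, 3 ≤ a + b →
      ∑' m : ℤ, pf m * (X (t, 1) a b m).re = (∑' m : ℤ, (pf m : ℂ) * X (t, 1) a b m).re := by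
    intro a b hab
    rw [Complex.re_tsum (hX a b hab)]
    exact tsum_congr fun m => (Complex.re_ofReal_mul _ _).symm
  have hXsre : ∀ a b : ℕ, 3 ≤ a + b → Summable fun m : ℤ => pf m * (X (t, 1) a b m).re := by
    intro a b hab
    exact (Complex.hasSum_re (hX a b hab).hasSum).summable.congr fun m =>
      Complex.re_ofReal_mul _ _
  have e1 : ∑' v : ℤ × ℤ, pf v.1 * (2 * (iv (t, 1) v ^ 3 * ic (t, 1) v).re + ‖iv (t, 1) v‖ ^ 4) =
      2 * ∑' v : ℤ × ℤ, pf v.1 * (iv (t, 1) v ^ 3 * ic (t, 1) v ^ 1).re +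
        ∑' v : ℤ × ℤ, pf v.1 * (iv (t, 1) v ^ 2 * ic (t, 1) v ^ 2).re := by
    rw [← tsum_mul_left, ← ((hsre 3 1 (by norm_num)).mul_left 2).tsum_add (hsre 2 2 (by norm_num))]
    refine tsum_congr fun v => ?_
    have h4 : (iv (t, 1) v ^ 2 * ic (t, 1) v ^ 2).re = ‖iv (t, 1) v‖ ^ 4 := by
      rw [← conj_iv, ← mul_pow, Complex.mul_conj', ← pow_mul]
      rw [← Complex.ofReal_pow, Complex.ofReal_re]
    rw [h4, pow_one]
    ring
  have e2 : ∑' m : ℤ, pf m * (2 * (X (t, 1) 3 1 m).re + (X (t, 1) 2 2 m).re) =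
      2 * ∑' m : ℤ, pf m * (X (t, 1) 3 1 m).re + ∑' m : ℤ, pf m * (X (t, 1) 2 2 m).re := by
    rw [← tsum_mul_left, ← ((hXsre 3 1 (by norm_num)).mul_left 2).tsum_add (hXsre 2 2 (by norm_num))]
    refine tsum_congr fun m => ?_
    ring
  rw [e1, e2, hre 3 1 (by norm_num), hre 2 2 (by norm_num), h31, h22, hXre 3 1 (by norm_num),
    hXre 2 2 (by norm_num)]

private theorem PsG_latsum {t : ℂ} (ht : 0 < t.im) :
    Summable fun m : ℤ => pf m * (2 * (X (t, 1) 3 1 m).re + (X (t, 1) 2 2 m).re) := by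
  have hg := good_one ht
  have h3 := X_summable (a := 3) (b := 1) hg (by norm_num)
  have h2 := X_summable (a := 2) (b := 2) hg (by norm_num)
  refine Summable.of_norm_bounded (((h3.mul_left 2).add h2).mul_left 40) fun m => ?_
  rw [norm_mul, Real.norm_eq_abs, Real.norm_eq_abs]
  refine mul_le_mul (pf_abs m) ?_ (abs_nonneg _) (by norm_num)
  have k1 := Complex.abs_re_le_norm (X (t, 1) 3 1 m)
  have k2 := Complex.abs_re_le_norm (X (t, 1) 2 2 m)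
  calc |2 * (X (t, 1) 3 1 m).re + (X (t, 1) 2 2 m).re|
      ≤ |2 * (X (t, 1) 3 1 m).re| + |(X (t, 1) 2 2 m).re| := abs_add_le _ _
    _ = 2 * |(X (t, 1) 3 1 m).re| + |(X (t, 1) 2 2 m).re| := by
      rw [abs_mul, abs_of_pos (by norm_num : (0 : ℝ) < 2)]
    _ ≤ _ := by linarith

private theorem PsG_latnat {t : ℂ} (ht : 0 < t.im) :
    t.im * ∑' m : ℤ, pf m * (2 * (X (t, 1) 3 1 m).re + (X (t, 1) 2 2 m).re) =
      -(8 * Real.pi ^ 4 / 3) * t.im - 8 * Real.pi ^ 3 * ∑' m : ℕ, pf (m + 1) / (m + 1) *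
        (∑' k : ℕ, ((k : ℂ) + 1) ^ 2 * RV15W.qq t ^ ((m + 1) * (k + 1))).re := by
  have hE : Function.Even fun m : ℤ => pf m * (2 * (X (t, 1) 3 1 m).re + (X (t, 1) 2 2 m).re) := by
    intro m
    simp only
    rw [pf_neg, X_neg, X_neg]
    norm_num
  rw [tsum_int_eq_zero_add_two_mul_tsum_pnat hE (PsG_latsum ht), PsG_row0,
    tsum_pnat_eq_tsum_succ (f := fun n : ℕ => pf (n : ℤ) *
      (2 * (X (t, 1) 3 1 (n : ℤ)).re + (X (t, 1) 2 2 (n : ℤ)).re))]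
  have h0 : pf 0 = -40 := by
    unfold pf RVP.sg RVP.t3
    norm_num
  have e : t.im * ∑' n : ℕ, pf ((n + 1 : ℕ) : ℤ) *
      (2 * (X (t, 1) 3 1 ((n + 1 : ℕ) : ℤ)).re + (X (t, 1) 2 2 ((n + 1 : ℕ) : ℤ)).re) =
      -(4 * Real.pi ^ 3) * ∑' m : ℕ, pf (m + 1) / (m + 1) *
        (∑' k : ℕ, ((k : ℂ) + 1) ^ 2 * RV15W.qq t ^ ((m + 1) * (k + 1))).re := by
    rw [← tsum_mul_left, ← tsum_mul_left]
    refine tsum_congr fun m => ?_
    have h := PsG_rowpos ht m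
    have h1 : t.im * (pf ((m + 1 : ℕ) : ℤ) *
        (2 * (X (t, 1) 3 1 ((m + 1 : ℕ) : ℤ)).re + (X (t, 1) 2 2 ((m + 1 : ℕ) : ℤ)).re)) =
        pf ((m + 1 : ℕ) : ℤ) * (t.im *
        (2 * (X (t, 1) 3 1 ((m + 1 : ℕ) : ℤ)).re + (X (t, 1) 2 2 ((m + 1 : ℕ) : ℤ)).re)) := by ring
    rw [h1, h]
    push_cast
    ring
  rw [nsmul_eq_mul, mul_add, h0]
  have e3 : t.im * (((2 : ℕ) : ℝ) * ∑' n : ℕ, pf ((n + 1 : ℕ) : ℤ) *
      (2 * (X (t, 1) 3 1 ((n + 1 : ℕ) : ℤ)).re + (X (t, 1) 2 2 ((n + 1 : ℕ) : ℤ)).re)) =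
      2 * (t.im * ∑' n : ℕ, pf ((n + 1 : ℕ) : ℤ) *
      (2 * (X (t, 1) 3 1 ((n + 1 : ℕ) : ℤ)).re + (X (t, 1) 2 2 ((n + 1 : ℕ) : ℤ)).re)) := by
    push_cast
    ring
  rw [e3, e]
  ring

private theorem PsG_im {t : ℂ} (ht : 0 < t.im) :
    (Gq t).im = -(t.im / 2) - 3 / (2 * Real.pi) * ∑' m : ℕ, pf (m + 1) / (m + 1) *
        (∑' k : ℕ, ((k : ℂ) + 1) ^ 2 * RV15W.qq t ^ ((m + 1) * (k + 1))).re := by
  have hr0 : 0 ≤ Real.exp (-(2 * Real.pi * t.im)) := (Real.exp_pos _).le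
  have hr1 : Real.exp (-(2 * Real.pi * t.im)) < 1 := by
    rw [← PsG_norm_qq]
    exact PsG_qq_lt ht
  have hs : Summable fun x : ℕ × ℕ => FF x t :=
    Summable.of_norm_bounded ((PsG_sum hr0 hr1 2).mul_left 40) fun x => PsG_FFle le_rfl
  have hin : ∀ m : ℕ, ∑' k : ℕ, FF (m, k) t = ((pf (m + 1) / (m + 1) : ℝ) : ℂ) *
      ∑' k : ℕ, ((k : ℂ) + 1) ^ 2 * RV15W.qq t ^ ((m + 1) * (k + 1)) := by
    intro m
    rw [← tsum_mul_left]
    refine tsum_congr fun k => ?_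
    unfold FF
    push_cast
    ring
  have hp := hs.prod
  have e1 : ∑' x : ℕ × ℕ, FF x t = ∑' m : ℕ, ((pf (m + 1) / (m + 1) : ℝ) : ℂ) *
      ∑' k : ℕ, ((k : ℂ) + 1) ^ 2 * RV15W.qq t ^ ((m + 1) * (k + 1)) := by
    rw [hs.tsum_prod]
    exact tsum_congr hin
  have hp2 : Summable fun m : ℕ => ((pf (m + 1) / (m + 1) : ℝ) : ℂ) *
      ∑' k : ℕ, ((k : ℂ) + 1) ^ 2 * RV15W.qq t ^ ((m + 1) * (k + 1)) := hp.congr hin
  have e2 : (∑' x : ℕ × ℕ, FF x t).re = ∑' m : ℕ, pf (m + 1) / (m + 1) *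
        (∑' k : ℕ, ((k : ℂ) + 1) ^ 2 * RV15W.qq t ^ ((m + 1) * (k + 1))).re := by
    rw [e1, Complex.re_tsum hp2]
    exact tsum_congr fun m => Complex.re_ofReal_mul _ _
  have e3 : Gq t = -t / 2 + ((-(3 / (2 * Real.pi)) : ℝ) : ℂ) * (Complex.I * ∑' x : ℕ × ℕ, FF x t) := by
    have e4 : Gq t = -t / 2 + 3 / (2 * (Real.pi : ℂ) * Complex.I) * ∑' x : ℕ × ℕ, FF x t := rfl
    rw [e4, ← mul_assoc]
    congr 2
    have hpi : (Real.pi : ℂ) ≠ 0 := by exact_mod_cast Real.pi_ne_zero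
    have hI := Complex.I_ne_zero
    push_cast
    rw [div_eq_iff (by simp [hpi])]
    field_simp
    rw [Complex.I_sq]
    ring
  have e5 : (-t / 2).im = -(t.im / 2) := by
    rw [show (-t / 2) = ((-(1 / 2) : ℝ) : ℂ) * t by push_cast; ring, Complex.im_ofReal_mul]
    ring
  rw [e3, Complex.add_im, Complex.im_ofReal_mul, Complex.I_mul_im, e2, e5]
  ring

theorem Gq_lat {t : ℂ} (ht : 0 < t.im) :
    (Gq t).im = 3 / (16 * Real.pi ^ 4) * t.im *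
      ∑' v : ℤ × ℤ, pf v.1 * (2 * (iv (t, 1) v ^ 3 * ic (t, 1) v).re + ‖iv (t, 1) v‖ ^ 4) := by
  rw [PsG_lat ht, mul_assoc, PsG_latnat ht, PsG_im ht]
  have hpi := Real.pi_ne_zero
  field_simp
  ring

end D8
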