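import Mathlib
import Pool.Agent.D8.Defs
import Pool.Agent.D8.Bas
import Pool.Agent.D8.Wt
import Pool.Agent.D8.Scal
import Pool.Agent.D8.Der
import Pool.Agent.D8.PsG

/-!
# D8/Bij: `Im Gq` on the arc

With `c = 1 + iY`, `π_v = pt (wp Y) v = c (m t + n)`, `Im t = Y/(√3 |c|²)`, `Z = π⁻³ π̄⁻¹`: `Gq_lat` becomes
`Im Gq = (3/(16π⁴)) (Y/√3) Σ ψ(m) (2 Re (c² Z) + |c|² |π|⁻⁴)`.
Bijection `R (m',n') = (3m'+2n', -(m'+n'))` of `ℤ²` (determinant -1): `π_(3m',n') = -√3 conj (π_(R(m',n')))`, and the first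
coordinate of `R(m',n')` is `≡ m' mod 2`.  `ψ(m) = h(m) - 9·[3∣m] h(m)`, `h = 1 + 4·[2∣m]`, so (split off the multiples of 3)
`Σ ψ F = Σ h (2 Re(c²Z) - 2 Re (c² conj Z)) = -8 Y Σ h(m) Im Z`.  Similarly `Σ_{3∣m} g Im Z = -(1/9) Σ g Im Z` for `g` a function
of `m mod 2`, so `Im W31 = Σ ψ₁ Im Z = (2/9) Σ h Im Z`.  Total `Im Gq = -(27/(4√3 π⁴)) Y² Im W31 (wp Y)`.
-/

set_option autoImplicit false

open scoped ComplexConjugate

namespace D8

open RVP (sg t3)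

/-- the bijection `R` -/
private def Bij_R : (ℤ × ℤ) ≃ (ℤ × ℤ) where
  toFun u := (3 * u.1 + 2 * u.2, -(u.1 + u.2))
  invFun v := (v.1 + 2 * v.2, -v.1 - 3 * v.2)
  left_inv u := by ext <;> simp <;> ring
  right_inv u := by ext <;> simp <;> ring

private lemma Bij_three (G H : ℤ × ℤ → ℝ) (h : ∀ u : ℤ × ℤ, G (3 * u.1, u.2) = H (Bij_R u)) :
    ∑' v : ℤ × ℤ, t3 v.1 * G v = ∑' v : ℤ × ℤ, H v := by
  have hinj : Function.Injective (fun u : ℤ × ℤ => ((3 * u.1, u.2) : ℤ × ℤ)) := by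
    intro a b hab
    simp only [Prod.mk.injEq] at hab
    ext
    · omega
    · exact hab.2
  have hs : Function.support (fun v : ℤ × ℤ => t3 v.1 * G v)
      ⊆ Set.range (fun u : ℤ × ℤ => ((3 * u.1, u.2) : ℤ × ℤ)) := by
    intro v hv
    have h3 : t3 v.1 ≠ 0 := by
      intro h0
      exact hv (by simp [h0])
    have h4 : v.1 % 3 = 0 := by
      by_contra h5
      exact h3 (by simp [t3, h5])
    refine ⟨(v.1 / 3, v.2), ?_⟩
    ext
    · simp only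
      omega
    · rfl
  rw [← hinj.tsum_eq hs, ← Bij_R.tsum_eq H]
  refine tsum_congr fun u => ?_
  rw [← h u]
  have : t3 (3 * u.1) = 1 := by
    simp [t3]
  simp [this]

private lemma Bij_sg (u : ℤ × ℤ) : sg (Bij_R u).1 = sg (3 * u.1) := by
  have : (Bij_R u).1 = 3 * u.1 + 2 * u.2 := rfl
  rw [this]
  have e : (3 * u.1 + 2 * u.2) % 2 = (3 * u.1) % 2 := by omega
  simp only [sg, e]

private lemma Bij_sqrt3 : Real.sqrt 3 * Real.sqrt 3 = 3 := Real.mul_self_sqrt (by norm_num)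

private lemma Bij_re (Y : ℝ) (v : ℤ × ℤ) : (pt (wp Y) v).re = v.1 * r1 + v.2 := by
  simp [pt, wp]

private lemma Bij_im (Y : ℝ) (v : ℤ × ℤ) : (pt (wp Y) v).im = Y * (v.1 * r2 + v.2) := by
  simp [pt, wp]
  ring

private lemma Bij_pt (Y : ℝ) (u : ℤ × ℤ) :
    pt (wp Y) (3 * u.1, u.2) = -(Real.sqrt 3 : ℂ) * conj (pt (wp Y) (Bij_R u)) := by
  have h3 := Bij_sqrt3
  have e1 : (Bij_R u).1 = 3 * u.1 + 2 * u.2 := rfl
  have e2 : (Bij_R u).2 = -(u.1 + u.2) := rfl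
  have r1e : r1 = (3 - Real.sqrt 3) / 6 := rfl
  have r2e : r2 = (3 + Real.sqrt 3) / 6 := rfl
  apply Complex.ext
  · have e : (-(Real.sqrt 3 : ℂ) * conj (pt (wp Y) (Bij_R u))).re
        = -Real.sqrt 3 * (pt (wp Y) (Bij_R u)).re := by simp
    rw [e, Bij_re, Bij_re, e1, e2, r1e]
    push_cast
    linear_combination (-(u.1 : ℝ) / 2 - u.2 / 3) * h3
  · have e : (-(Real.sqrt 3 : ℂ) * conj (pt (wp Y) (Bij_R u))).im
        = Real.sqrt 3 * (pt (wp Y) (Bij_R u)).im := by simp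
    rw [e, Bij_im, Bij_im, e1, e2, r2e]
    push_cast
    linear_combination (-(Y * u.1 : ℝ) / 2 - Y * u.2 / 3) * h3

private noncomputable def Bij_Z (Y : ℝ) (v : ℤ × ℤ) : ℂ := iv (wp Y) v ^ 3 * ic (wp Y) v ^ 1

private lemma Bij_iv3 (Y : ℝ) (u : ℤ × ℤ) :
    iv (wp Y) (3 * u.1, u.2) = -(Real.sqrt 3 : ℂ)⁻¹ * ic (wp Y) (Bij_R u) := by
  simp only [iv, ic, Bij_pt, mul_inv, inv_neg]

private lemma Bij_ic3 (Y : ℝ) (u : ℤ × ℤ) :
    ic (wp Y) (3 * u.1, u.2) = -(Real.sqrt 3 : ℂ)⁻¹ * iv (wp Y) (Bij_R u) := by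
  rw [← conj_iv, Bij_iv3]
  simp only [map_mul, map_neg, map_inv₀, Complex.conj_ofReal, conj_ic]

private lemma Bij_s3c : ((Real.sqrt 3 : ℂ))⁻¹ ^ 2 = 1 / 3 := by
  have : ((Real.sqrt 3 : ℂ)) ^ 2 = 3 := by
    rw [← Complex.ofReal_pow, Real.sq_sqrt (by norm_num)]
    norm_num
  rw [inv_pow, this]
  norm_num

private lemma Bij_Z3 (Y : ℝ) (u : ℤ × ℤ) :
    Bij_Z Y (3 * u.1, u.2) = 1 / 9 * conj (Bij_Z Y (Bij_R u)) := by
  have h := Bij_s3c
  simp only [Bij_Z, Bij_iv3, Bij_ic3, map_mul, map_pow, conj_iv, conj_ic]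
  have e : ∀ a b : ℂ, (-(Real.sqrt 3 : ℂ)⁻¹ * a) ^ 3 * (-(Real.sqrt 3 : ℂ)⁻¹ * b) ^ 1
      = (((Real.sqrt 3 : ℂ))⁻¹ ^ 2) ^ 2 * (a ^ 3 * b ^ 1) := fun a b => by ring
  rw [e, h]
  ring

private lemma Bij_N3 (Y : ℝ) (u : ℤ × ℤ) :
    ‖iv (wp Y) (3 * u.1, u.2)‖ ^ 4 = 1 / 9 * ‖iv (wp Y) (Bij_R u)‖ ^ 4 := by
  rw [Bij_iv3, norm_mul, norm_neg, norm_inv, norm_ic, mul_pow]
  congr 1
  rw [Complex.norm_real, Real.norm_of_nonneg (Real.sqrt_nonneg _), inv_pow]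
  have : Real.sqrt 3 ^ 4 = 9 := by
    have := Bij_sqrt3
    calc Real.sqrt 3 ^ 4 = (Real.sqrt 3 * Real.sqrt 3) * (Real.sqrt 3 * Real.sqrt 3) := by ring
      _ = 9 := by rw [this]; norm_num
  rw [this]
  norm_num

private lemma Bij_imt {Y : ℝ} : (tY Y).im = Y / Real.sqrt 3 / (1 + Y ^ 2) := by
  have h3 := Bij_sqrt3
  have hs : Real.sqrt 3 ≠ 0 := by positivity
  have r1e : r1 = (3 - Real.sqrt 3) / 6 := rfl
  have r2e : r2 = (3 + Real.sqrt 3) / 6 := rfl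
  have hY : (1 + Y ^ 2) ≠ 0 := by positivity
  have e1 : (wp Y).1.re = r1 := by simp [wp]
  have e2 : (wp Y).1.im = Y * r2 := by simp [wp]
  have e3 : (wp Y).2.re = 1 := by simp [wp]
  have e4 : (wp Y).2.im = Y := by simp [wp]
  have e5 : Complex.normSq (wp Y).2 = 1 + Y ^ 2 := by rw [Complex.normSq_apply, e3, e4]; ring
  have h6 : Real.sqrt 3 / 3 = 1 / Real.sqrt 3 := by
    rw [div_eq_div_iff (by norm_num) hs]; linarith
  rw [tY, Complex.div_im, e1, e2, e3, e4, e5, r1e, r2e]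
  have : Y / Real.sqrt 3 = Y * (Real.sqrt 3 / 3) := by rw [h6]; ring
  rw [this]
  field_simp
  ring

private noncomputable def Bij_h (m : ℤ) : ℝ := 1 + 2 * (1 + sg m)

private lemma Bij_sg_abs (m : ℤ) : |sg m| ≤ 1 := by
  simp only [sg]
  split <;> norm_num

private lemma Bij_t3_abs (m : ℤ) : |t3 m| ≤ 1 := by
  simp only [t3]
  split <;> norm_num

private lemma Bij_summ {F : ℤ × ℤ → ℝ} (hF : Summable fun v => |F v|) {g : ℤ × ℤ → ℝ} {C : ℝ}
    (hg : ∀ v, |g v| ≤ C) : Summable fun v => g v * F v := by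
  refine Summable.of_norm_bounded (g := fun v => C * |F v|) (hF.mul_left C) fun v => ?_
  rw [Real.norm_eq_abs, abs_mul]
  exact mul_le_mul_of_nonneg_right (hg v) (abs_nonneg _)

theorem Gq_arc {Y : ℝ} (hY : 0 < Y) :
    (Gq (tY Y)).im = -(27 / (4 * Real.sqrt 3 * Real.pi ^ 4)) * Y ^ 2 * (W (wp Y) 3 1).im := by
  have hw := good_wp hY
  set c : ℂ := 1 + Y * Complex.I with hcdef
  have hc : c ≠ 0 := by
    intro h
    have := congrArg Complex.re h
    simp [hcdef] at this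
  have hpt : ∀ v, pt (wp Y) v = c * pt (tY Y, 1) v := by
    intro v
    rw [wp_eq]
    exact pt_smul c (tY Y, 1) v
  have hiv : ∀ v, iv (tY Y, 1) v = c * iv (wp Y) v := by
    intro v
    simp only [iv, hpt, mul_inv]
    rw [mul_inv_cancel_left₀ hc]
  have hic : ∀ v, ic (tY Y, 1) v = conj c * ic (wp Y) v := by
    intro v
    rw [← conj_iv, hiv, map_mul, conj_iv]
  have him : (tY Y).im = Y / Real.sqrt 3 / (1 + Y ^ 2) := Bij_imt
  have hpos : 0 < (tY Y).im := by rw [him]; positivity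
  have hcc : c * conj c = ((1 + Y ^ 2 : ℝ) : ℂ) := by
    rw [Complex.mul_conj]
    congr 1
    rw [Complex.normSq_apply]
    simp [hcdef]
    ring
  have hcn : ‖c‖ ^ 4 = (1 + Y ^ 2) ^ 2 := by
    have : ‖c‖ ^ 2 = 1 + Y ^ 2 := by
      rw [← Complex.normSq_eq_norm_sq, Complex.normSq_apply]
      simp [hcdef]
      ring
    calc ‖c‖ ^ 4 = (‖c‖ ^ 2) ^ 2 := by ring
      _ = _ := by rw [this]
  set Z := Bij_Z Y with hZ
  set N : ℤ × ℤ → ℝ := fun v => ‖iv (wp Y) v‖ ^ 4 with hN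
  set F : ℤ × ℤ → ℝ := fun v => 2 * (c ^ 2 * Z v).re + (1 + Y ^ 2) * N v with hF
  set F' : ℤ × ℤ → ℝ := fun v => 2 * (c ^ 2 * conj (Z v)).re + (1 + Y ^ 2) * N v with hF'
  have hterm : ∀ v, 2 * (iv (tY Y, 1) v ^ 3 * ic (tY Y, 1) v).re + ‖iv (tY Y, 1) v‖ ^ 4
      = (1 + Y ^ 2) * F v := by
    intro v
    have e1 : iv (tY Y, 1) v ^ 3 * ic (tY Y, 1) v = ((1 + Y ^ 2 : ℝ) : ℂ) * (c ^ 2 * Z v) := by
      rw [hiv, hic, ← hcc, hZ, Bij_Z]
      ring
    rw [e1, Complex.re_ofReal_mul, hiv, norm_mul, mul_pow, hcn]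
    simp only [hF, hN]
    ring
  -- summability
  have sZ : Summable fun v => ‖Z v‖ := (lat_summable hw (a := 3) (b := 1) (by norm_num)).norm
  have sN : Summable N := summable_iv hw (by norm_num)
  have sI : Summable fun v => |(Z v).im| :=
    Summable.of_nonneg_of_le (fun v => abs_nonneg _) (fun v => Complex.abs_im_le_norm _) sZ
  have sF : Summable fun v => |F v| := by
    refine Summable.of_nonneg_of_le (fun v => abs_nonneg _) (fun v => ?_)
      ((sZ.mul_left (2 * ‖c ^ 2‖)).add (sN.mul_left (1 + Y ^ 2)))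
    have h1 : |(c ^ 2 * Z v).re| ≤ ‖c ^ 2‖ * ‖Z v‖ := by
      rw [← norm_mul]
      exact Complex.abs_re_le_norm _
    have h2 : 0 ≤ (1 + Y ^ 2) * N v := by
      simp only [hN]
      positivity
    simp only [hF]
    calc |2 * (c ^ 2 * Z v).re + (1 + Y ^ 2) * N v|
        ≤ |2 * (c ^ 2 * Z v).re| + |(1 + Y ^ 2) * N v| := abs_add_le _ _
      _ = 2 * |(c ^ 2 * Z v).re| + (1 + Y ^ 2) * N v := by
          rw [abs_mul, abs_of_nonneg h2]; norm_num
      _ ≤ _ := by linarith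
  have sF' : Summable fun v => |F' v| := by
    refine Summable.of_nonneg_of_le (fun v => abs_nonneg _) (fun v => ?_)
      ((sZ.mul_left (2 * ‖c ^ 2‖)).add (sN.mul_left (1 + Y ^ 2)))
    have h1 : |(c ^ 2 * conj (Z v)).re| ≤ ‖c ^ 2‖ * ‖Z v‖ := by
      rw [← Complex.norm_conj (Z v), ← norm_mul]
      exact Complex.abs_re_le_norm _
    have h2 : 0 ≤ (1 + Y ^ 2) * N v := by
      simp only [hN]
      positivity
    simp only [hF']
    calc |2 * (c ^ 2 * conj (Z v)).re + (1 + Y ^ 2) * N v|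
        ≤ |2 * (c ^ 2 * conj (Z v)).re| + |(1 + Y ^ 2) * N v| := abs_add_le _ _
      _ = 2 * |(c ^ 2 * conj (Z v)).re| + (1 + Y ^ 2) * N v := by
          rw [abs_mul, abs_of_nonneg h2]; norm_num
      _ ≤ _ := by linarith
  have hhabs : ∀ v : ℤ × ℤ, |Bij_h v.1| ≤ 5 := by
    intro v
    have := abs_le.mp (Bij_sg_abs v.1)
    rw [Bij_h, abs_le]
    constructor <;> linarith [this.1, this.2]
  -- the three sums
  have k1 : ∑' v : ℤ × ℤ, t3 v.1 * (Bij_h v.1 * F v) = ∑' v : ℤ × ℤ, 1 / 9 * (Bij_h v.1 * F' v) := by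
    refine Bij_three _ _ fun u => ?_
    have e1 : Bij_h (3 * u.1) = Bij_h (Bij_R u).1 := by simp only [Bij_h, Bij_sg]
    have e2 : F (3 * u.1, u.2) = 1 / 9 * F' (Bij_R u) := by
      simp only [hF, hF', hZ, hN]
      rw [Bij_Z3, Bij_N3]
      have : c ^ 2 * (1 / 9 * conj (Bij_Z Y (Bij_R u))) = ((1 / 9 : ℝ) : ℂ) * (c ^ 2 * conj (Bij_Z Y (Bij_R u))) := by
        push_cast
        ring
      rw [this, Complex.re_ofReal_mul]
      ring
    simp only
    rw [e1, e2]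
    ring
  have hp : ∀ v : ℤ × ℤ, pf v.1 * F v = Bij_h v.1 * F v - 9 * (t3 v.1 * (Bij_h v.1 * F v)) := by
    intro v
    simp only [pf, Bij_h]
    ring
  have sum1 : ∑' v : ℤ × ℤ, pf v.1 * F v = -(8 * Y) * ∑' v : ℤ × ℤ, Bij_h v.1 * (Z v).im := by
    have s1 : Summable fun v : ℤ × ℤ => Bij_h v.1 * F v := Bij_summ sF hhabs
    have s2 : Summable fun v : ℤ × ℤ => t3 v.1 * (Bij_h v.1 * F v) := by
      have : (fun v : ℤ × ℤ => t3 v.1 * (Bij_h v.1 * F v)) = fun v => (t3 v.1 * Bij_h v.1) * F v := by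
        ext v; ring
      rw [this]
      refine Bij_summ (C := 5) sF fun v => ?_
      rw [abs_mul]
      calc |t3 v.1| * |Bij_h v.1| ≤ 1 * 5 :=
            mul_le_mul (Bij_t3_abs _) (hhabs v) (abs_nonneg _) (by norm_num)
        _ = 5 := by norm_num
    have s3 : Summable fun v : ℤ × ℤ => Bij_h v.1 * F' v := Bij_summ sF' hhabs
    calc ∑' v : ℤ × ℤ, pf v.1 * F v
        = ∑' v : ℤ × ℤ, (Bij_h v.1 * F v - 9 * (t3 v.1 * (Bij_h v.1 * F v))) := tsum_congr hp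
      _ = ∑' v : ℤ × ℤ, Bij_h v.1 * F v - 9 * ∑' v : ℤ × ℤ, t3 v.1 * (Bij_h v.1 * F v) := by
          rw [s1.tsum_sub (s2.mul_left 9), tsum_mul_left]
      _ = ∑' v : ℤ × ℤ, Bij_h v.1 * F v - ∑' v : ℤ × ℤ, Bij_h v.1 * F' v := by
          rw [k1, tsum_mul_left]; ring
      _ = ∑' v : ℤ × ℤ, (Bij_h v.1 * F v - Bij_h v.1 * F' v) := (s1.tsum_sub s3).symm
      _ = ∑' v : ℤ × ℤ, -(8 * Y) * (Bij_h v.1 * (Z v).im) := by
          refine tsum_congr fun v => ?_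
          have e : (c ^ 2 * Z v).re - (c ^ 2 * conj (Z v)).re = -(4 * Y) * (Z v).im := by
            have e3 : (c ^ 2).im = 2 * Y := by
              rw [hcdef, pow_two, Complex.mul_im]
              simp
              ring
            rw [Complex.mul_re, Complex.mul_re, Complex.conj_re, Complex.conj_im, e3]
            ring
          simp only [hF, hF']
          linear_combination 2 * Bij_h v.1 * e
      _ = _ := tsum_mul_left
  have k2 : ∑' v : ℤ × ℤ, t3 v.1 * (((1 + sg v.1) / 2 - 2) * (Z v).im)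
      = ∑' v : ℤ × ℤ, -(1 / 9) * (((1 + sg v.1) / 2 - 2) * (Z v).im) := by
    refine Bij_three _ _ fun u => ?_
    have e2 : (Z (3 * u.1, u.2)).im = -(1 / 9) * (Z (Bij_R u)).im := by
      simp only [hZ]
      rw [Bij_Z3]
      have : (1 / 9 * conj (Bij_Z Y (Bij_R u)) : ℂ) = ((1 / 9 : ℝ) : ℂ) * conj (Bij_Z Y (Bij_R u)) := by
        push_cast
        ring
      rw [this, Complex.im_ofReal_mul, Complex.conj_im]
      ring
    simp only
    rw [e2, Bij_sg]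
    ring
  have hWr : W (wp Y) 3 1 = ∑' v : ℤ × ℤ, (ps v.1 : ℂ) * Z v := by
    rw [W]
    refine (tsum_rows hw (by norm_num) (fun m => (ps m : ℂ)) (C := 16) fun m => ?_).symm
    rw [Complex.norm_real]
    exact ps_abs m
  have psabs : ∀ v : ℤ × ℤ, |ps v.1| ≤ 16 := fun v => ps_abs v.1
  have sPZ : Summable fun v : ℤ × ℤ => (ps v.1 : ℂ) * Z v := by
    refine Summable.of_norm_bounded (g := fun v => 16 * ‖Z v‖) (sZ.mul_left 16) fun v => ?_
    rw [norm_mul, Complex.norm_real]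
    exact mul_le_mul_of_nonneg_right (psabs v) (norm_nonneg _)
  have hW : (W (wp Y) 3 1).im = 2 / 9 * ∑' v : ℤ × ℤ, Bij_h v.1 * (Z v).im := by
    have e0 : (W (wp Y) 3 1).im = ∑' v : ℤ × ℤ, ps v.1 * (Z v).im := by
      rw [hWr, Complex.im_tsum sPZ]
      refine tsum_congr fun v => ?_
      rw [Complex.im_ofReal_mul]
    have s1 : Summable fun v : ℤ × ℤ => ((1 + sg v.1) / 2) * (Z v).im := by
      refine Bij_summ (C := 1) (F := fun v => (Z v).im) sI (g := fun v => (1 + sg v.1) / 2) fun v => ?_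
      have := abs_le.mp (Bij_sg_abs v.1)
      rw [abs_le]
      constructor <;> linarith [this.1, this.2]
    have s2 : Summable fun v : ℤ × ℤ => t3 v.1 * (((1 + sg v.1) / 2 - 2) * (Z v).im) := by
      have : (fun v : ℤ × ℤ => t3 v.1 * (((1 + sg v.1) / 2 - 2) * (Z v).im))
          = fun v => (t3 v.1 * ((1 + sg v.1) / 2 - 2)) * (Z v).im := by
        ext v; ring
      rw [this]
      refine Bij_summ (C := 2) (F := fun v => (Z v).im) sI
        (g := fun v => (t3 v.1 * ((1 + sg v.1) / 2 - 2))) fun v => ?_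
      have := abs_le.mp (Bij_sg_abs v.1)
      rw [abs_mul]
      calc |t3 v.1| * |(1 + sg v.1) / 2 - 2| ≤ 1 * 2 := by
            refine mul_le_mul (Bij_t3_abs _) ?_ (abs_nonneg _) (by norm_num)
            rw [abs_le]
            constructor <;> linarith [this.1, this.2]
        _ = 2 := by norm_num
    have s3 : Summable fun v : ℤ × ℤ => -(1 / 9) * (((1 + sg v.1) / 2 - 2) * (Z v).im) := by
      refine Summable.mul_left _ ?_
      refine Bij_summ (C := 2) (F := fun v => (Z v).im) sI (g := fun v => (1 + sg v.1) / 2 - 2) fun v => ?_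
      have := abs_le.mp (Bij_sg_abs v.1)
      rw [abs_le]
      constructor <;> linarith [this.1, this.2]
    calc (W (wp Y) 3 1).im = ∑' v : ℤ × ℤ, ps v.1 * (Z v).im := e0
      _ = ∑' v : ℤ × ℤ, (((1 + sg v.1) / 2) * (Z v).im
            + t3 v.1 * (((1 + sg v.1) / 2 - 2) * (Z v).im)) := by
          refine tsum_congr fun v => ?_
          simp only [ps]
          ring
      _ = ∑' v : ℤ × ℤ, ((1 + sg v.1) / 2) * (Z v).im
            + ∑' v : ℤ × ℤ, t3 v.1 * (((1 + sg v.1) / 2 - 2) * (Z v).im) := s1.tsum_add s2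
      _ = ∑' v : ℤ × ℤ, ((1 + sg v.1) / 2) * (Z v).im
            + ∑' v : ℤ × ℤ, -(1 / 9) * (((1 + sg v.1) / 2 - 2) * (Z v).im) := by rw [k2]
      _ = ∑' v : ℤ × ℤ, (((1 + sg v.1) / 2) * (Z v).im
            + -(1 / 9) * (((1 + sg v.1) / 2 - 2) * (Z v).im)) := (s1.tsum_add s3).symm
      _ = ∑' v : ℤ × ℤ, 2 / 9 * (Bij_h v.1 * (Z v).im) := by
          refine tsum_congr fun v => ?_
          simp only [Bij_h]
          ring
      _ = _ := tsum_mul_left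
  have hG := Gq_lat hpos
  have e3 : ∑' v : ℤ × ℤ, pf v.1 * (2 * (iv (tY Y, 1) v ^ 3 * ic (tY Y, 1) v).re + ‖iv (tY Y, 1) v‖ ^ 4)
      = (1 + Y ^ 2) * ∑' v : ℤ × ℤ, pf v.1 * F v := by
    rw [← tsum_mul_left]
    refine tsum_congr fun v => ?_
    rw [hterm v]
    ring
  rw [hG, e3, sum1, hW, him]
  have hs : Real.sqrt 3 ≠ 0 := by positivity
  have hp4 : Real.pi ≠ 0 := Real.pi_ne_zero
  have hY2 : (1 + Y ^ 2) ≠ 0 := by positivity
  field_simp
  ring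

end D8
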