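import Mathlib
import Pool.Agent.D8.Defs
import Pool.Agent.D8.PsG
import Pool.Agent.D8W.Lf

/-!
# D8/Hor: the function `2 Re ∫_0^x l Psi (s + iy) ds`

`h = l Psi` is holomorphic on the upper half plane, `h(iy)` is real, `h(-conj t) = conj h(t)` (`D8W.l_conj`, `D8W.Psi_conj`).
`hr_deriv`: differentiate under the integral; `∂_y Re ∫_0^x h = Re (i (h(x+iy) - h(iy))) = Re (i h(x+iy))`.
`hr_half`: `d/dy hr(1/2,y) = 2 Re (i h(1/2+iy)) = -2 Im h = π Psi(1/2+iy)` (`l(1/2+iy) = -πi/2 + real`, `Psi(1/2+iy)` real), the same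
as `d/dy (π Im Gq(1/2+iy))`; both sides are `-πy/2 + O(y e^{-2πy})` as `y → ∞` (`l = -πit + O(q)`, `Psi = -1/2 + O(q)`).
-/

set_option autoImplicit false

open MeasureTheory

namespace D8

/-- `2 Re ∫_0^x l Psi (s + iy) ds` -/
noncomputable def hr (x y : ℝ) : ℝ :=
  ∫ s in (0:ℝ)..x, 2 * (D8W.l (D8W.pt s y) * D8W.Psi (D8W.pt s y)).re

/-! ### the function `h = l Psi` -/

/-- `h = l Psi` -/
private noncomputable def Hor_h (t : ℂ) : ℂ := D8W.l t * D8W.Psi t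

private theorem Hor_pt_re (x y : ℝ) : (D8W.pt x y).re = x := by
  simp [D8W.pt]

private theorem Hor_pt_im (x y : ℝ) : (D8W.pt x y).im = y := by
  simp [D8W.pt]

private theorem Hor_qq_deriv (τ : ℂ) :
    HasDerivAt RV15W.qq (2 * Real.pi * Complex.I * RV15W.qq τ) τ := by
  unfold RV15W.qq
  have h := ((hasDerivAt_id τ).const_mul (2 * (Real.pi : ℂ) * Complex.I)).cexp
  simp only [id, mul_one] at h
  exact h.congr_deriv (by ring)

private theorem Hor_e4_diff {t : ℂ} (ht : 0 < t.im) (n : ℕ) (hn : n ≠ 0) :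
    DifferentiableAt ℂ (fun z => RV15W.e4 (RV15W.qq z ^ n)) t := by
  have hq : ‖RV15W.qq t ^ n‖ < 1 := D8M.LX_pow (D8M.LX_lt ht) hn
  have h1 : DifferentiableAt ℂ RV15W.e4 (RV15W.qq t ^ n) :=
    RV15W.e4_diff.differentiableAt (Metric.isOpen_ball.mem_nhds (by simpa using hq))
  have h2 : DifferentiableAt ℂ (fun z => RV15W.qq z ^ n) t :=
    ((Hor_qq_deriv t).differentiableAt).fun_pow n
  exact DifferentiableAt.comp (g := RV15W.e4) (f := fun z => RV15W.qq z ^ n) t h1 h2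

private theorem Hor_Psi_diff {t : ℂ} (ht : 0 < t.im) : DifferentiableAt ℂ D8W.Psi t := by
  have h1 := Hor_e4_diff ht 1 (by norm_num)
  have h2 := Hor_e4_diff ht 2 (by norm_num)
  have h3 := Hor_e4_diff ht 3 (by norm_num)
  have h6 := Hor_e4_diff ht 6 (by norm_num)
  simp only [pow_one] at h1
  unfold D8W.Psi
  exact (((h1.add (h2.const_mul 4)).sub (h3.const_mul 9)).sub (h6.const_mul 36)).div_const 80

private theorem Hor_h_diff {t : ℂ} (ht : 0 < t.im) : DifferentiableAt ℂ Hor_h t := by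
  unfold Hor_h
  exact (D8W.l_deriv ht).differentiableAt.mul (Hor_Psi_diff ht)

private theorem Hor_conj (x : ℝ) {y : ℝ} (hy : 0 < y) :
    Hor_h (D8W.pt (-x) y) = starRingEnd ℂ (Hor_h (D8W.pt x y)) := by
  unfold Hor_h
  rw [D8W.l_conj x hy, D8W.Psi_conj x hy, map_mul]

private theorem Hor_zero {y : ℝ} (hy : 0 < y) : (Hor_h (D8W.pt 0 y)).im = 0 := by
  have h := Hor_conj 0 hy
  rw [neg_zero] at h
  exact Complex.conj_eq_iff_im.mp h.symm

private theorem Hor_pt_deriv (x y : ℝ → ℝ) {x' y' Y : ℝ} (hx : HasDerivAt x x' Y)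
    (hy : HasDerivAt y y' Y) :
    HasDerivAt (fun s => D8W.pt (x s) (y s)) (x' + y' * Complex.I) Y := by
  unfold D8W.pt
  exact hx.ofReal_comp.add (hy.ofReal_comp.mul_const Complex.I)

private theorem Hor_pt_cont (y : ℝ) : Continuous fun s : ℝ => D8W.pt s y := by
  unfold D8W.pt
  fun_prop

private theorem Hor_h_cont {y : ℝ} (hy : 0 < y) : Continuous fun s : ℝ => Hor_h (D8W.pt s y) := by
  rw [continuous_iff_continuousAt]
  intro s
  have h1 : ContinuousAt Hor_h (D8W.pt s y) :=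
    (Hor_h_diff (t := D8W.pt s y) (by rw [Hor_pt_im]; exact hy)).continuousAt
  exact ContinuousAt.comp (f := fun s : ℝ => D8W.pt s y) h1 (Hor_pt_cont y).continuousAt

private theorem Hor_re_comp {f : ℝ → ℂ} {f' : ℂ} {s : ℝ} (h : HasDerivAt f f' s) :
    HasDerivAt (fun s => (f s).re) f'.re s :=
  Complex.reCLM.hasFDerivAt.comp_hasDerivAt s h

private theorem Hor_im_comp {f : ℝ → ℂ} {f' : ℂ} {s : ℝ} (h : HasDerivAt f f' s) :
    HasDerivAt (fun s => (f s).im) f'.im s :=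
  Complex.imCLM.hasFDerivAt.comp_hasDerivAt s h

/-! ### the ball `|t - iR| < R` -/

private theorem Hor_ball (R : ℝ) (hR : 0 < R) (s y : ℝ) :
    D8W.pt s y ∈ Metric.ball (D8W.pt 0 R) R ↔ s ^ 2 + y ^ 2 < 2 * R * y := by
  rw [Metric.mem_ball, dist_eq_norm]
  have h1 : ‖D8W.pt s y - D8W.pt 0 R‖ ^ 2 = s ^ 2 + (y - R) ^ 2 := by
    rw [← Complex.normSq_eq_norm_sq, Complex.normSq_apply, Complex.sub_re, Complex.sub_im,
      Hor_pt_re, Hor_pt_re, Hor_pt_im, Hor_pt_im]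
    ring
  constructor
  · intro h
    have h2 : ‖D8W.pt s y - D8W.pt 0 R‖ ^ 2 < R ^ 2 :=
      pow_lt_pow_left₀ h (norm_nonneg _) (by norm_num)
    rw [h1] at h2
    nlinarith
  · intro h
    have h2 : ‖D8W.pt s y - D8W.pt 0 R‖ ^ 2 < R ^ 2 := by
      rw [h1]
      nlinarith
    exact lt_of_pow_lt_pow_left₀ 2 hR.le h2

private theorem Hor_ball_im {R : ℝ} {z : ℂ} (hz : z ∈ Metric.ball (D8W.pt 0 R) R) : 0 < z.im := by
  rw [Metric.mem_ball, dist_eq_norm] at hz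
  have h1 := Complex.abs_im_le_norm (z - D8W.pt 0 R)
  rw [Complex.sub_im, Hor_pt_im] at h1
  have h2 := (abs_le.mp h1).1
  linarith

private theorem Hor_prim (R : ℝ) :
    ∃ H : ℂ → ℂ, ∀ z ∈ Metric.ball (D8W.pt 0 R) R, HasDerivAt H (Hor_h z) z := by
  have h : DifferentiableOn ℂ Hor_h (Metric.ball (D8W.pt 0 R) R) := by
    intro z hz
    exact (Hor_h_diff (Hor_ball_im hz)).differentiableWithinAt
  exact h.isExactOn_ball

private theorem Hor_ftc {R : ℝ} (hR : 0 < R) {H : ℂ → ℂ}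
    (hH : ∀ z ∈ Metric.ball (D8W.pt 0 R) R, HasDerivAt H (Hor_h z) z) {x y : ℝ} (hy : 0 < y)
    (hb : x ^ 2 + y ^ 2 < 2 * R * y) :
    hr x y = 2 * (H (D8W.pt x y) - H (D8W.pt 0 y)).re := by
  have h1 : ∀ s ∈ Set.uIcc 0 x, HasDerivAt (fun s : ℝ => 2 * (H (D8W.pt s y)).re)
      (2 * (Hor_h (D8W.pt s y)).re) s := by
    intro s hs
    have hs2 : s ^ 2 ≤ x ^ 2 := by
      rcases Set.mem_uIcc.mp hs with h | h
      · nlinarith [h.1, h.2]
      · nlinarith [h.1, h.2]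
    have hm : D8W.pt s y ∈ Metric.ball (D8W.pt 0 R) R := by
      rw [Hor_ball R hR]
      linarith
    have h2 : HasDerivAt (fun s : ℝ => D8W.pt s y) (1 + 0 * Complex.I) s := by
      have := Hor_pt_deriv (fun s => s) (fun _ => y) (hasDerivAt_id' s) (hasDerivAt_const s y)
      simpa using this
    have h3 : HasDerivAt (fun s : ℝ => H (D8W.pt s y)) (Hor_h (D8W.pt s y) * (1 + 0 * Complex.I)) s :=
      HasDerivAt.comp s (hH _ hm) h2
    have h4 := (Hor_re_comp h3).const_mul 2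
    simpa using h4
  have h5 : IntervalIntegrable (fun s : ℝ => 2 * (Hor_h (D8W.pt s y)).re) volume 0 x :=
    ((Complex.continuous_re.comp (Hor_h_cont hy)).const_mul 2 |>.intervalIntegrable 0 x)
  have h6 := intervalIntegral.integral_eq_sub_of_hasDerivAt h1 h5
  unfold hr
  rw [show (∫ s in (0:ℝ)..x, 2 * (D8W.l (D8W.pt s y) * D8W.Psi (D8W.pt s y)).re) =
    ∫ s in (0:ℝ)..x, 2 * (Hor_h (D8W.pt s y)).re from rfl, h6, Complex.sub_re]
  ring

theorem hr_deriv {x y : ℝ → ℝ} {x' y' Y : ℝ} (hx : HasDerivAt x x' Y) (hy : HasDerivAt y y' Y)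
    (h0 : 0 < y Y) :
    HasDerivAt (fun s => hr (x s) (y s))
      (2 * (D8W.l (D8W.pt (x Y) (y Y)) * D8W.Psi (D8W.pt (x Y) (y Y)) * (x' + y' * Complex.I)).re) Y := by
  obtain ⟨R, hR, hb⟩ : ∃ R : ℝ, 0 < R ∧ x Y ^ 2 + y Y ^ 2 < 2 * R * y Y := by
    refine ⟨(x Y ^ 2 + y Y ^ 2 + 1) / (2 * y Y), by positivity, ?_⟩
    have : 2 * ((x Y ^ 2 + y Y ^ 2 + 1) / (2 * y Y)) * y Y = x Y ^ 2 + y Y ^ 2 + 1 := by
      field_simp
    rw [this]
    linarith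
  obtain ⟨H, hH⟩ := Hor_prim R
  have e1 : ∀ᶠ s in nhds Y, 0 < y s := hy.continuousAt.eventually (lt_mem_nhds h0)
  have e2 : ∀ᶠ s in nhds Y, x s ^ 2 + y s ^ 2 < 2 * R * y s := by
    have c1 : ContinuousAt (fun s => x s ^ 2 + y s ^ 2) Y :=
      (hx.continuousAt.pow 2).add (hy.continuousAt.pow 2)
    have c2 : ContinuousAt (fun s => 2 * R * y s) Y := hy.continuousAt.const_mul (2 * R)
    exact c1.eventually_lt c2 hb
  have e3 : ∀ᶠ s in nhds Y, hr (x s) (y s) =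
      2 * (H (D8W.pt (x s) (y s)) - H (D8W.pt 0 (y s))).re := by
    filter_upwards [e1, e2] with s h1 h2
    exact Hor_ftc hR hH h1 h2
  have m1 : D8W.pt (x Y) (y Y) ∈ Metric.ball (D8W.pt 0 R) R := (Hor_ball R hR _ _).mpr hb
  have m2 : D8W.pt 0 (y Y) ∈ Metric.ball (D8W.pt 0 R) R := by
    rw [Hor_ball R hR]
    nlinarith [sq_nonneg (x Y)]
  have d1 : HasDerivAt (fun s => H (D8W.pt (x s) (y s)))
      (Hor_h (D8W.pt (x Y) (y Y)) * (x' + y' * Complex.I)) Y :=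
    HasDerivAt.comp Y (hH _ m1) (Hor_pt_deriv x y hx hy)
  have d2 : HasDerivAt (fun s => H (D8W.pt 0 (y s)))
      (Hor_h (D8W.pt 0 (y Y)) * ((0 : ℝ) + y' * Complex.I)) Y :=
    HasDerivAt.comp Y (hH _ m2) (Hor_pt_deriv (fun _ => 0) y (hasDerivAt_const Y 0) hy)
  have d3 := (Hor_re_comp (d1.sub d2)).const_mul 2
  have d4 : HasDerivAt (fun s => hr (x s) (y s))
      (2 * (Hor_h (D8W.pt (x Y) (y Y)) * (x' + y' * Complex.I) -
        Hor_h (D8W.pt 0 (y Y)) * ((0 : ℝ) + y' * Complex.I)).re) Y :=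
    d3.congr_of_eventuallyEq e3
  refine d4.congr_deriv ?_
  have z := Hor_zero h0
  rw [Complex.sub_re]
  have z2 : (Hor_h (D8W.pt 0 (y Y)) * ((0 : ℝ) + y' * Complex.I)).re = 0 := by
    rw [Complex.mul_re, z]
    simp
  rw [z2, sub_zero]
  rfl

/-! ### the line `Re t = 1/2` -/

private theorem Hor_qq_half (y : ℝ) : RV15W.qq (D8W.pt (-(1 / 2)) y) = RV15W.qq (D8W.pt (1 / 2) y) := by
  unfold RV15W.qq
  have h : 2 * (Real.pi : ℂ) * Complex.I * D8W.pt (1 / 2) y =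
      2 * (Real.pi : ℂ) * Complex.I * D8W.pt (-(1 / 2)) y + 2 * (Real.pi : ℂ) * Complex.I := by
    unfold D8W.pt
    push_cast
    ring
  rw [h, Complex.exp_add, Complex.exp_two_pi_mul_I, mul_one]

private theorem Hor_l_half {y : ℝ} (hy : 0 < y) : (D8W.l (D8W.pt (1 / 2) y)).im = -(Real.pi / 2) := by
  have h1 := D8W.l_conj (1 / 2) hy
  have h2 : D8W.l (D8W.pt (-(1 / 2)) y) = D8W.l (D8W.pt (1 / 2) y) + Real.pi * Complex.I := by
    unfold D8W.l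
    rw [Hor_qq_half]
    unfold D8W.pt
    push_cast
    ring
  rw [h2] at h1
  have h3 := congrArg Complex.im h1
  simp only [Complex.add_im, Complex.conj_im, Complex.mul_im, Complex.ofReal_re, Complex.ofReal_im,
    Complex.I_re, Complex.I_im, mul_one, mul_zero, add_zero] at h3
  linarith

private theorem Hor_Psi_half {y : ℝ} (hy : 0 < y) : (D8W.Psi (D8W.pt (1 / 2) y)).im = 0 := by
  have h1 := D8W.Psi_conj (1 / 2) hy
  have h2 : D8W.Psi (D8W.pt (-(1 / 2)) y) = D8W.Psi (D8W.pt (1 / 2) y) := by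
    unfold D8W.Psi
    rw [Hor_qq_half]
  rw [h2] at h1
  exact Complex.conj_eq_iff_im.mp h1.symm

/-- the derivative of the difference vanishes -/
private theorem Hor_diff_deriv {y : ℝ} (hy : 0 < y) :
    HasDerivAt (fun y => hr (1 / 2) y - Real.pi * (Gq (D8W.pt (1 / 2) y)).im) 0 y := by
  have h1 := hr_deriv (x := fun _ => (1 / 2 : ℝ)) (y := fun s => s) (hasDerivAt_const y (1 / 2 : ℝ))
    (hasDerivAt_id' y) hy
  have h2 : HasDerivAt (fun s => Gq (D8W.pt (1 / 2) s))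
      (D8W.Psi (D8W.pt (1 / 2) y) * ((0 : ℝ) + (1 : ℝ) * Complex.I)) y :=
    HasDerivAt.comp y (Gq_deriv (by rw [Hor_pt_im]; exact hy))
      (Hor_pt_deriv (fun _ => 1 / 2) (fun s => s) (hasDerivAt_const y (1 / 2 : ℝ)) (hasDerivAt_id' y))
  have h3 := (Hor_im_comp h2).const_mul Real.pi
  have h4 := h1.sub h3
  refine h4.congr_deriv ?_
  have a1 := Hor_l_half hy
  have a2 := Hor_Psi_half hy
  simp only [Complex.mul_re, Complex.mul_im, Complex.add_re, Complex.add_im, Complex.ofReal_re,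
    Complex.ofReal_im, Complex.I_re, Complex.I_im, a1, a2]
  ring

/-! ### the behaviour at `i ∞` -/

private theorem Hor_e4_zero : RV15W.e4 0 = 1 := by
  unfold RV15W.e4
  have h : ∀ n : ℕ, (ArithmeticFunction.sigma 3 (n + 1) : ℂ) * (0 : ℂ) ^ (n + 1) = 0 := by
    intro n
    rw [zero_pow (Nat.succ_ne_zero n), mul_zero]
  simp only [h, tsum_zero, mul_zero, add_zero]

private theorem Hor_e4_bound : ∃ C δ : ℝ, 0 ≤ C ∧ 0 < δ ∧ δ ≤ 1 / 2 ∧
    ∀ q : ℂ, ‖q‖ < δ → ‖RV15W.e4 q - 1‖ ≤ C * ‖q‖ := by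
  have h1 : DifferentiableAt ℂ RV15W.e4 0 :=
    RV15W.e4_diff.differentiableAt (Metric.isOpen_ball.mem_nhds (by simp))
  obtain ⟨C, hC, h2⟩ := h1.isBigO_sub.exists_nonneg
  rw [Asymptotics.isBigOWith_iff, Metric.eventually_nhds_iff] at h2
  obtain ⟨ε, hε, h3⟩ := h2
  refine ⟨C, min ε (1 / 2), hC, lt_min hε (by norm_num), min_le_right _ _, ?_⟩
  intro q hq
  have h4 := h3 (y := q) (by rw [dist_zero_right]; exact lt_of_lt_of_le hq (min_le_left _ _))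
  rw [Hor_e4_zero, sub_zero] at h4
  exact h4

private theorem Hor_pow_le {q : ℂ} (hq : ‖q‖ ≤ 1) {n : ℕ} (hn : n ≠ 0) : ‖q ^ n‖ ≤ ‖q‖ := by
  rw [norm_pow]
  exact pow_le_of_le_one (norm_nonneg _) hq hn

private theorem Hor_Psi_bound : ∃ C δ : ℝ, 0 ≤ C ∧ 0 < δ ∧ δ ≤ 1 / 2 ∧
    ∀ t : ℂ, ‖RV15W.qq t‖ < δ → ‖D8W.Psi t + 1 / 2‖ ≤ C * ‖RV15W.qq t‖ := by
  obtain ⟨C, δ, hC, hδ, hδ2, h⟩ := Hor_e4_bound
  refine ⟨C, δ, hC, hδ, hδ2, ?_⟩
  intro t ht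
  have hq1 : ‖RV15W.qq t‖ ≤ 1 := by linarith
  have hk : ∀ n : ℕ, n ≠ 0 → ‖RV15W.e4 (RV15W.qq t ^ n) - 1‖ ≤ C * ‖RV15W.qq t‖ := by
    intro n hn
    have h1 := Hor_pow_le hq1 hn
    exact (h _ (lt_of_le_of_lt h1 ht)).trans (mul_le_mul_of_nonneg_left h1 hC)
  have k1 := h _ ht
  have k2 := hk 2 (by norm_num)
  have k3 := hk 3 (by norm_num)
  have k6 := hk 6 (by norm_num)
  have e : D8W.Psi t + 1 / 2 = ((RV15W.e4 (RV15W.qq t) - 1) + 4 * (RV15W.e4 (RV15W.qq t ^ 2) - 1) -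
      9 * (RV15W.e4 (RV15W.qq t ^ 3) - 1) - 36 * (RV15W.e4 (RV15W.qq t ^ 6) - 1)) / 80 := by
    unfold D8W.Psi
    ring
  rw [e, norm_div]
  have n1 : ‖(RV15W.e4 (RV15W.qq t) - 1) + 4 * (RV15W.e4 (RV15W.qq t ^ 2) - 1) -
      9 * (RV15W.e4 (RV15W.qq t ^ 3) - 1) - 36 * (RV15W.e4 (RV15W.qq t ^ 6) - 1)‖ ≤
      50 * (C * ‖RV15W.qq t‖) := by
    have a1 := norm_sub_le ((RV15W.e4 (RV15W.qq t) - 1) + 4 * (RV15W.e4 (RV15W.qq t ^ 2) - 1) -
      9 * (RV15W.e4 (RV15W.qq t ^ 3) - 1)) (36 * (RV15W.e4 (RV15W.qq t ^ 6) - 1))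
    have a2 := norm_sub_le ((RV15W.e4 (RV15W.qq t) - 1) + 4 * (RV15W.e4 (RV15W.qq t ^ 2) - 1))
      (9 * (RV15W.e4 (RV15W.qq t ^ 3) - 1))
    have a3 := norm_add_le (RV15W.e4 (RV15W.qq t) - 1) (4 * (RV15W.e4 (RV15W.qq t ^ 2) - 1))
    have b1 : ‖36 * (RV15W.e4 (RV15W.qq t ^ 6) - 1)‖ = 36 * ‖RV15W.e4 (RV15W.qq t ^ 6) - 1‖ := by
      rw [norm_mul]; norm_num
    have b2 : ‖9 * (RV15W.e4 (RV15W.qq t ^ 3) - 1)‖ = 9 * ‖RV15W.e4 (RV15W.qq t ^ 3) - 1‖ := by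
      rw [norm_mul]; norm_num
    have b3 : ‖4 * (RV15W.e4 (RV15W.qq t ^ 2) - 1)‖ = 4 * ‖RV15W.e4 (RV15W.qq t ^ 2) - 1‖ := by
      rw [norm_mul]; norm_num
    linarith
  have n2 : ‖(80 : ℂ)‖ = 80 := by norm_num
  rw [n2, div_le_iff₀ (by norm_num)]
  have n3 : 0 ≤ C * ‖RV15W.qq t‖ := mul_nonneg hC (norm_nonneg _)
  linarith

private theorem Hor_l_bound {t : ℂ} (ht : ‖RV15W.qq t‖ < 1 / 2) :
    ‖D8W.l t + Real.pi * Complex.I * t‖ ≤ 96 * ‖RV15W.qq t‖ := by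
  have hq1 : ‖RV15W.qq t‖ ≤ 1 := by linarith
  have hb : ∀ q : ℂ, ‖q‖ ≤ ‖RV15W.qq t‖ → ‖D8W.lE q‖ ≤ 4 * ‖RV15W.qq t‖ := by
    intro q hq
    have h1 := D8M.lE_bound (q := q) (by linarith)
    refine h1.trans ?_
    have h2 : (1 / 4 : ℝ) ≤ (1 - ‖q‖) ^ 2 := by nlinarith [norm_nonneg q]
    rw [div_le_iff₀ (by linarith)]
    have h3 : 0 ≤ ‖RV15W.qq t‖ := norm_nonneg _
    nlinarith
  have k1 := hb _ le_rfl
  have k2 := hb _ (Hor_pow_le hq1 (n := 2) (by norm_num))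
  have k3 := hb _ (Hor_pow_le hq1 (n := 3) (by norm_num))
  have k6 := hb _ (Hor_pow_le hq1 (n := 6) (by norm_num))
  have e : D8W.l t + Real.pi * Complex.I * t = 6 * (D8W.lE (RV15W.qq t ^ 2) +
      D8W.lE (RV15W.qq t ^ 3) - D8W.lE (RV15W.qq t) - D8W.lE (RV15W.qq t ^ 6)) := by
    unfold D8W.l
    ring
  rw [e, norm_mul]
  have n6 : ‖(6 : ℂ)‖ = 6 := by norm_num
  rw [n6]
  have a1 := norm_sub_le (D8W.lE (RV15W.qq t ^ 2) + D8W.lE (RV15W.qq t ^ 3) -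
    D8W.lE (RV15W.qq t)) (D8W.lE (RV15W.qq t ^ 6))
  have a2 := norm_sub_le (D8W.lE (RV15W.qq t ^ 2) + D8W.lE (RV15W.qq t ^ 3))
    (D8W.lE (RV15W.qq t))
  have a3 := norm_add_le (D8W.lE (RV15W.qq t ^ 2)) (D8W.lE (RV15W.qq t ^ 3))
  linarith

private theorem Hor_h_bound : ∃ K δ : ℝ, 0 ≤ K ∧ 0 < δ ∧ δ ≤ 1 / 2 ∧
    ∀ s y : ℝ, |s| ≤ 1 / 2 → 1 ≤ y → ‖RV15W.qq (D8W.pt s y)‖ < δ →
      |2 * (D8W.l (D8W.pt s y) * D8W.Psi (D8W.pt s y)).re + Real.pi * y| ≤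
        K * (y * ‖RV15W.qq (D8W.pt s y)‖) := by
  obtain ⟨C, δ, hC, hδ, hδ2, h⟩ := Hor_Psi_bound
  refine ⟨96 + 208 * C, δ, by positivity, hδ, hδ2, ?_⟩
  intro s y hs hy hq
  have p1 := h _ hq
  have p2 := Hor_l_bound (lt_of_lt_of_le hq hδ2)
  obtain ⟨r, hr⟩ : ∃ r, r = ‖RV15W.qq (D8W.pt s y)‖ := ⟨_, rfl⟩
  have hr0 : 0 ≤ r := by rw [hr]; exact norm_nonneg _
  rw [← hr] at p1 p2 hq ⊢
  have hr1 : r ≤ 1 := by linarith
  obtain ⟨A, hA⟩ : ∃ A, A = D8W.l (D8W.pt s y) + Real.pi * Complex.I * D8W.pt s y := ⟨_, rfl⟩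
  obtain ⟨B, hB⟩ : ∃ B, B = D8W.Psi (D8W.pt s y) + 1 / 2 := ⟨_, rfl⟩
  rw [← hA] at p2
  rw [← hB] at p1
  have e : 2 * (D8W.l (D8W.pt s y) * D8W.Psi (D8W.pt s y)) + Real.pi * y =
      2 * (A * B) - A - 2 * (Real.pi * Complex.I * D8W.pt s y * B) + Real.pi * s * Complex.I := by
    rw [hA, hB]
    have : D8W.pt s y = s + y * Complex.I := rfl
    generalize D8W.l (D8W.pt s y) = u
    generalize D8W.Psi (D8W.pt s y) = v
    rw [this]
    ring_nf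
    rw [Complex.I_sq]
    ring
  have e2 : 2 * (D8W.l (D8W.pt s y) * D8W.Psi (D8W.pt s y)).re + Real.pi * y =
      (2 * (A * B) - A - 2 * (Real.pi * Complex.I * D8W.pt s y * B)).re := by
    have := congrArg Complex.re e
    rw [Complex.add_re, Complex.add_re] at this
    have e3 : (2 * (D8W.l (D8W.pt s y) * D8W.Psi (D8W.pt s y))).re =
        2 * (D8W.l (D8W.pt s y) * D8W.Psi (D8W.pt s y)).re := by simp
    have e4 : ((Real.pi : ℂ) * (y : ℂ)).re = Real.pi * y := by simp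
    have e5 : ((Real.pi : ℂ) * (s : ℂ) * Complex.I).re = 0 := by simp
    rw [e3, e4, e5, add_zero] at this
    exact this
  rw [e2]
  refine (Complex.abs_re_le_norm _).trans ?_
  have hpt : ‖D8W.pt s y‖ ≤ 2 * y := by
    have h1 : ‖D8W.pt s y‖ ≤ |s| + |y| := by
      unfold D8W.pt
      refine (norm_add_le _ _).trans ?_
      rw [norm_mul, Complex.norm_I, mul_one, Complex.norm_real, Complex.norm_real, Real.norm_eq_abs,
        Real.norm_eq_abs]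
    rw [abs_of_nonneg (by linarith : (0:ℝ) ≤ y)] at h1
    linarith
  have n1 := norm_sub_le (2 * (A * B) - A) (2 * (Real.pi * Complex.I * D8W.pt s y * B))
  have n2 := norm_sub_le (2 * (A * B)) A
  have m1 : ‖2 * (A * B)‖ ≤ 2 * (96 * r * (C * r)) := by
    rw [norm_mul, norm_mul]
    have : ‖(2 : ℂ)‖ = 2 := by norm_num
    rw [this]
    have := mul_le_mul p2 p1 (norm_nonneg _) (by positivity)
    linarith
  have m2 : ‖2 * (Real.pi * Complex.I * D8W.pt s y * B)‖ ≤ 2 * (4 * (2 * y) * (C * r)) := by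
    rw [norm_mul, norm_mul, norm_mul, norm_mul, Complex.norm_I, mul_one, Complex.norm_real,
      Real.norm_eq_abs, abs_of_pos Real.pi_pos]
    have h2 : ‖(2 : ℂ)‖ = 2 := by norm_num
    rw [h2]
    have h3 : Real.pi * ‖D8W.pt s y‖ ≤ 4 * (2 * y) :=
      mul_le_mul Real.pi_le_four hpt (norm_nonneg _) (by norm_num)
    have := mul_le_mul h3 p1 (norm_nonneg _) (by positivity)
    linarith
  have m3 : r * r ≤ y * r := mul_le_mul_of_nonneg_right (by linarith) hr0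
  have m4 : r ≤ y * r := by nlinarith
  have m5 : C * (r * r) ≤ C * (y * r) := mul_le_mul_of_nonneg_left m3 hC
  nlinarith

private theorem Hor_pf (m : ℤ) : |pf m| ≤ 50 := by
  unfold pf RVP.sg RVP.t3
  split_ifs <;> norm_num

private theorem Hor_G_bound : ∃ C : ℝ, 0 ≤ C ∧ ∀ q : ℂ, ‖q‖ ≤ 1 / 2 →
    ‖∑' x : ℕ × ℕ, ((pf (x.1 + 1) : ℂ) * (x.2 + 1) ^ 2 / (x.1 + 1)) *
      q ^ ((x.1 + 1) * (x.2 + 1))‖ ≤ C * ‖q‖ := by
  have hg : Summable fun n : ℕ => ((n : ℝ) + 1) ^ 2 * (1 / 2 : ℝ) ^ n := by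
    have h2 := summable_pow_mul_geometric_of_norm_lt_one (R := ℝ) 2 (r := 1 / 2) (by norm_num)
    have h1 := summable_pow_mul_geometric_of_norm_lt_one (R := ℝ) 1 (r := 1 / 2) (by norm_num)
    have h0 := summable_pow_mul_geometric_of_norm_lt_one (R := ℝ) 0 (r := 1 / 2) (by norm_num)
    refine ((h2.add (h1.mul_left 2)).add h0).congr ?_
    intro n
    ring
  have hf : Summable fun n : ℕ => (1 / 2 : ℝ) ^ n := by
    have h0 := summable_pow_mul_geometric_of_norm_lt_one (R := ℝ) 0 (r := 1 / 2) (by norm_num)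
    refine h0.congr ?_
    intro n
    ring
  have hfg : Summable fun x : ℕ × ℕ => (1 / 2 : ℝ) ^ x.1 * (((x.2 : ℝ) + 1) ^ 2 * (1 / 2 : ℝ) ^ x.2) :=
    Summable.mul_of_nonneg hf hg (fun n => by positivity) (fun n => by positivity)
  refine ⟨50 * ∑' x : ℕ × ℕ, (1 / 2 : ℝ) ^ x.1 * (((x.2 : ℝ) + 1) ^ 2 * (1 / 2 : ℝ) ^ x.2), ?_, ?_⟩
  · have : 0 ≤ ∑' x : ℕ × ℕ, (1 / 2 : ℝ) ^ x.1 * (((x.2 : ℝ) + 1) ^ 2 * (1 / 2 : ℝ) ^ x.2) :=
      tsum_nonneg fun x => by positivity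
    linarith
  intro q hq
  have hs := (hfg.hasSum.mul_left 50).mul_right ‖q‖
  refine tsum_of_norm_bounded hs ?_
  intro x
  rw [norm_mul, norm_div, norm_mul, norm_pow, norm_pow, Complex.norm_real, Real.norm_eq_abs]
  have a1 : ‖((x.2 : ℂ) + 1)‖ = (x.2 : ℝ) + 1 := by
    have : ((x.2 : ℂ) + 1) = (((x.2 : ℝ) + 1 : ℝ) : ℂ) := by push_cast; ring
    rw [this, Complex.norm_real, Real.norm_eq_abs, abs_of_nonneg (by positivity)]
  have a2 : ‖((x.1 : ℂ) + 1)‖ = (x.1 : ℝ) + 1 := by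
    have : ((x.1 : ℂ) + 1) = (((x.1 : ℝ) + 1 : ℝ) : ℂ) := by push_cast; ring
    rw [this, Complex.norm_real, Real.norm_eq_abs, abs_of_nonneg (by positivity)]
  rw [a1, a2]
  have hq0 : 0 ≤ ‖q‖ := norm_nonneg _
  have c1 : |pf ((x.1 : ℤ) + 1)| * ((x.2 : ℝ) + 1) ^ 2 / ((x.1 : ℝ) + 1) ≤ 50 * ((x.2 : ℝ) + 1) ^ 2 := by
    rw [div_le_iff₀ (by positivity)]
    have b1 : |pf ((x.1 : ℤ) + 1)| * ((x.2 : ℝ) + 1) ^ 2 ≤ 50 * ((x.2 : ℝ) + 1) ^ 2 :=
      mul_le_mul_of_nonneg_right (Hor_pf _) (by positivity)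
    have b2 : 0 ≤ 50 * ((x.2 : ℝ) + 1) ^ 2 * (x.1 : ℝ) := by positivity
    linarith
  have c2 : ‖q‖ ^ ((x.1 + 1) * (x.2 + 1)) ≤ ‖q‖ * ((1 / 2 : ℝ) ^ x.1 * (1 / 2 : ℝ) ^ x.2) := by
    have b1 : ‖q‖ ^ ((x.1 + 1) * (x.2 + 1)) ≤ ‖q‖ ^ (1 + (x.1 + x.2)) := by
      refine pow_le_pow_of_le_one hq0 (by linarith) ?_
      have : (x.1 + 1) * (x.2 + 1) = 1 + (x.1 + x.2) + x.1 * x.2 := by ring
      rw [this]
      exact Nat.le_add_right _ _
    refine b1.trans ?_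
    rw [pow_add, pow_one, ← pow_add]
    exact mul_le_mul_of_nonneg_left (pow_le_pow_left₀ hq0 hq _) hq0
  calc |pf ((x.1 : ℤ) + 1)| * ((x.2 : ℝ) + 1) ^ 2 / ((x.1 : ℝ) + 1) * ‖q‖ ^ ((x.1 + 1) * (x.2 + 1))
      ≤ (50 * ((x.2 : ℝ) + 1) ^ 2) * (‖q‖ * ((1 / 2 : ℝ) ^ x.1 * (1 / 2 : ℝ) ^ x.2)) :=
        mul_le_mul c1 c2 (by positivity) (by positivity)
    _ = 50 * ((1 / 2 : ℝ) ^ x.1 * (((x.2 : ℝ) + 1) ^ 2 * (1 / 2 : ℝ) ^ x.2)) * ‖q‖ := by ring

private theorem Hor_Gq_bound : ∃ C : ℝ, 0 ≤ C ∧ ∀ t : ℂ, ‖RV15W.qq t‖ ≤ 1 / 2 →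
    |(Gq t).im + t.im / 2| ≤ C * ‖RV15W.qq t‖ := by
  obtain ⟨C, hC, h⟩ := Hor_G_bound
  refine ⟨C, hC, ?_⟩
  intro t ht
  have h1 := h _ ht
  obtain ⟨S, hS⟩ : ∃ S, S = ∑' x : ℕ × ℕ, ((pf (x.1 + 1) : ℂ) * (x.2 + 1) ^ 2 / (x.1 + 1)) *
      RV15W.qq t ^ ((x.1 + 1) * (x.2 + 1)) := ⟨_, rfl⟩
  rw [← hS] at h1
  have e : Gq t + t / 2 = 3 / (2 * Real.pi * Complex.I) * S := by
    rw [hS]
    unfold Gq
    ring
  have e2 : (Gq t).im + t.im / 2 = (3 / (2 * Real.pi * Complex.I) * S).im := by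
    rw [← e, Complex.add_im]
    congr 1
    simp
  rw [e2]
  refine (Complex.abs_im_le_norm _).trans ?_
  rw [norm_mul, norm_div, norm_mul, norm_mul, Complex.norm_I, Complex.norm_real, Real.norm_eq_abs,
    abs_of_pos Real.pi_pos, mul_one]
  have n3 : ‖(3 : ℂ)‖ = 3 := by norm_num
  have n2 : ‖(2 : ℂ)‖ = 2 := by norm_num
  rw [n3, n2]
  have hp := Real.pi_gt_three
  have k : 3 / (2 * Real.pi) ≤ 1 := by
    rw [div_le_one (by positivity)]
    linarith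
  calc 3 / (2 * Real.pi) * ‖S‖ ≤ 1 * ‖S‖ := mul_le_mul_of_nonneg_right k (norm_nonneg _)
    _ = ‖S‖ := one_mul _
    _ ≤ _ := h1

/-- the two sides of `hr_half` have the same behaviour at infinity -/
private theorem Hor_tend : Filter.Tendsto
    (fun y => hr (1 / 2) y - Real.pi * (Gq (D8W.pt (1 / 2) y)).im) Filter.atTop (nhds 0) := by
  obtain ⟨K, δ, hK, hδ, hδ2, h1⟩ := Hor_h_bound
  obtain ⟨C, hC, h2⟩ := Hor_Gq_bound
  have hE : Filter.Tendsto (fun y : ℝ => (K + 4 * C) * (y ^ 1 * Real.exp (-y))) Filter.atTop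
      (nhds ((K + 4 * C) * 0)) :=
    (Real.tendsto_pow_mul_exp_neg_atTop_nhds_zero 1).const_mul _
  rw [mul_zero] at hE
  have hd : ∀ᶠ y : ℝ in Filter.atTop, Real.exp (-y) < δ := by
    have : Filter.Tendsto (fun y : ℝ => Real.exp (-y)) Filter.atTop (nhds 0) :=
      Real.tendsto_exp_neg_atTop_nhds_zero
    exact this.eventually (gt_mem_nhds hδ)
  refine squeeze_zero_norm' ?_ hE
  filter_upwards [hd, Filter.eventually_ge_atTop (1 : ℝ)] with y hy1 hy2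
  have hr0 : Real.exp (-(2 * Real.pi * y)) ≤ Real.exp (-y) := by
    rw [Real.exp_le_exp]
    have := Real.pi_gt_three
    nlinarith
  have hqn : ∀ s : ℝ, ‖RV15W.qq (D8W.pt s y)‖ = Real.exp (-(2 * Real.pi * y)) := by
    intro s
    rw [D8M.qq_norm, Hor_pt_im]
  obtain ⟨r, hr'⟩ : ∃ r, r = Real.exp (-(2 * Real.pi * y)) := ⟨_, rfl⟩
  rw [← hr'] at hr0
  have hrp : 0 ≤ r := by rw [hr']; exact (Real.exp_pos _).le
  have hqr : ∀ s : ℝ, ‖RV15W.qq (D8W.pt s y)‖ = r := fun s => by rw [hqn s, hr']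
  have hrd : r < δ := lt_of_le_of_lt hr0 hy1
  have hy0 : 0 < y := by linarith
  have i1 : |hr (1 / 2) y + Real.pi * y / 2| ≤ K * (y * r) := by
    have hc : IntervalIntegrable (fun s : ℝ => 2 * (Hor_h (D8W.pt s y)).re) volume 0 (1 / 2) :=
      ((Complex.continuous_re.comp (Hor_h_cont hy0)).const_mul 2 |>.intervalIntegrable 0 (1 / 2))
    have e1 : hr (1 / 2) y + Real.pi * y / 2 =
        ∫ s in (0:ℝ)..(1 / 2), (2 * (Hor_h (D8W.pt s y)).re + Real.pi * y) := by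
      rw [intervalIntegral.integral_add hc intervalIntegrable_const,
        intervalIntegral.integral_const]
      unfold hr
      rw [show (∫ s in (0:ℝ)..(1 / 2), 2 * (D8W.l (D8W.pt s y) * D8W.Psi (D8W.pt s y)).re) =
        ∫ s in (0:ℝ)..(1 / 2), 2 * (Hor_h (D8W.pt s y)).re from rfl, smul_eq_mul]
      ring
    rw [e1, ← Real.norm_eq_abs]
    have e2 := intervalIntegral.norm_integral_le_of_norm_le_const (a := (0:ℝ)) (b := 1 / 2)
      (C := K * (y * r)) (f := fun s => 2 * (Hor_h (D8W.pt s y)).re + Real.pi * y) ?_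
    · refine e2.trans ?_
      have : |(1 / 2 : ℝ) - 0| = 1 / 2 := by norm_num
      rw [this]
      have : 0 ≤ K * (y * r) := by positivity
      linarith
    · intro s hs
      rw [Set.uIoc_of_le (by norm_num)] at hs
      have h3 := h1 s y (by rw [abs_of_pos hs.1]; exact hs.2) hy2 (by rw [hqr]; exact hrd)
      rw [hqr] at h3
      rw [Real.norm_eq_abs]
      exact h3
  have i2 := h2 (D8W.pt (1 / 2) y) (by rw [hqr]; linarith)
  rw [hqr, Hor_pt_im] at i2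
  have i3 : |Real.pi * ((Gq (D8W.pt (1 / 2) y)).im + y / 2)| ≤ 4 * (C * r) := by
    rw [abs_mul, abs_of_pos Real.pi_pos]
    exact mul_le_mul Real.pi_le_four i2 (abs_nonneg _) (by norm_num)
  have e3 : hr (1 / 2) y - Real.pi * (Gq (D8W.pt (1 / 2) y)).im =
      (hr (1 / 2) y + Real.pi * y / 2) - Real.pi * ((Gq (D8W.pt (1 / 2) y)).im + y / 2) := by ring
  rw [e3, Real.norm_eq_abs]
  refine (abs_sub _ _).trans ?_
  have i4 : C * r ≤ C * (y * r) := mul_le_mul_of_nonneg_left (by nlinarith) hC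
  have i5 : (K + 4 * C) * (y * r) ≤ (K + 4 * C) * (y ^ 1 * Real.exp (-y)) := by
    refine mul_le_mul_of_nonneg_left ?_ (by positivity)
    rw [pow_one]
    exact mul_le_mul_of_nonneg_left hr0 hy0.le
  linarith

theorem hr_half {y : ℝ} (hy : 0 < y) : hr (1 / 2) y = Real.pi * (Gq (D8W.pt (1 / 2) y)).im := by
  obtain ⟨D, hD⟩ : ∃ D : ℝ → ℝ, D = fun y => hr (1 / 2) y - Real.pi * (Gq (D8W.pt (1 / 2) y)).im :=
    ⟨_, rfl⟩
  have d1 : ∀ s : ℝ, HasDerivAt (fun s => D (Real.exp s)) 0 s := by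
    intro s
    have h1 : HasDerivAt D 0 (Real.exp s) := by
      rw [hD]
      exact Hor_diff_deriv (Real.exp_pos s)
    have h2 := HasDerivAt.comp s h1 (Real.hasDerivAt_exp s)
    rw [zero_mul] at h2
    exact h2
  have d2 : ∀ a b : ℝ, D (Real.exp a) = D (Real.exp b) := by
    intro a b
    exact is_const_of_deriv_eq_zero (f := fun s => D (Real.exp s))
      (fun s => (d1 s).differentiableAt) (fun s => (d1 s).deriv) a b
  have t1 : Filter.Tendsto (fun s => D (Real.exp s)) Filter.atTop (nhds 0) := by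
    rw [hD]
    exact Hor_tend.comp Real.tendsto_exp_atTop
  have t2 : Filter.Tendsto (fun s => D (Real.exp s)) Filter.atTop (nhds (D y)) := by
    have : (fun s => D (Real.exp s)) = fun _ => D y := by
      funext s
      have := d2 s (Real.log y)
      rw [Real.exp_log hy] at this
      exact this
    rw [this]
    exact tendsto_const_nhds
  have h := tendsto_nhds_unique t2 t1
  rw [hD] at h
  have h' : hr (1 / 2) y - Real.pi * (Gq (D8W.pt (1 / 2) y)).im = 0 := h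
  linarith

theorem hr_third : (∫ x in (-(1/3) : ℝ)..(1/3), D8W.l (D8W.pt x D8W.y0) * D8W.Psi (D8W.pt x D8W.y0)) =
    (hr (1 / 3) D8W.y0 : ℂ) := by
  have hy : 0 < D8W.y0 := by
    unfold D8W.y0
    positivity
  have hc := Hor_h_cont hy
  have hi : ∀ a b : ℝ, IntervalIntegrable (fun s : ℝ => Hor_h (D8W.pt s D8W.y0)) volume a b :=
    fun a b => hc.intervalIntegrable a b
  have e0 : (∫ x in (-(1/3) : ℝ)..(1/3), D8W.l (D8W.pt x D8W.y0) * D8W.Psi (D8W.pt x D8W.y0)) =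
      ∫ x in (-(1/3) : ℝ)..(1/3), Hor_h (D8W.pt x D8W.y0) := rfl
  rw [e0, ← intervalIntegral.integral_add_adjacent_intervals (hi (-(1/3)) 0) (hi 0 (1/3))]
  have e1 : (∫ x in (-(1/3) : ℝ)..0, Hor_h (D8W.pt x D8W.y0)) =
      ∫ x in (0 : ℝ)..(1/3), starRingEnd ℂ (Hor_h (D8W.pt x D8W.y0)) := by
    have := intervalIntegral.integral_comp_neg (a := (0:ℝ)) (b := 1/3)
      (fun x => Hor_h (D8W.pt x D8W.y0))
    rw [neg_zero] at this
    rw [← this]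
    refine intervalIntegral.integral_congr ?_
    intro x _
    exact Hor_conj x hy
  have hi2 : IntervalIntegrable (fun s : ℝ => starRingEnd ℂ (Hor_h (D8W.pt s D8W.y0))) volume 0 (1/3) :=
    (Complex.continuous_conj.comp hc).intervalIntegrable _ _
  rw [e1, ← intervalIntegral.integral_add hi2 (hi 0 (1/3))]
  unfold hr
  rw [← intervalIntegral.integral_ofReal]
  refine intervalIntegral.integral_congr ?_
  intro x _
  change starRingEnd ℂ (Hor_h (D8W.pt x D8W.y0)) + Hor_h (D8W.pt x D8W.y0) =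
    ((2 * (Hor_h (D8W.pt x D8W.y0)).re : ℝ) : ℂ)
  rw [add_comm, Complex.add_conj]

end D8
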