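import Mathlib
import Pool.Agent.D8.Defs
import Pool.Agent.D8.Bas
import Pool.Agent.D8.Wt

/-!
# D8/Sym: `Re D2 (wp 1) = 0`

`r1 = 1 - r2`.  For `v = (m,n)`, `v' = (-m, m+n)`: `pt (wp 1) v' = i conj (pt (wp 1) v)`.  `v ↦ v'` is an additive bijection,
`cw (-a) (-b) = cw a b`, `sw (-m) = sw m`; `KK` and `K1` have degrees `-4` in `p`, `-2` in `p̄`, and `i⁻⁴ (conj i)⁻² = -1`:
`D2 (wp 1) = -conj (D2 (wp 1))`.
-/

set_option autoImplicit false

namespace D8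

open scoped ComplexConjugate

/-- `(m, n) ↦ (-m, m + n)` -/
private def Sym_e : ℤ × ℤ ≃ ℤ × ℤ where
  toFun v := (-v.1, v.1 + v.2)
  invFun v := (-v.1, v.1 + v.2)
  left_inv v := by ext <;> simp
  right_inv v := by ext <;> simp

private lemma Sym_e_apply (v : ℤ × ℤ) : Sym_e v = (-v.1, v.1 + v.2) := rfl

private lemma Sym_add (u v : ℤ × ℤ) : Sym_e u + Sym_e v = Sym_e (u + v) := by
  ext <;> simp [Sym_e_apply] <;> ring

private lemma Sym_pt (v : ℤ × ℤ) : pt (wp 1) (Sym_e v) = Complex.I * conj (pt (wp 1) v) := by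
  have h : r1 = 1 - r2 := by unfold r1 r2; ring
  simp only [pt, wp, Sym_e_apply, map_add, map_mul, Complex.conj_ofReal, Complex.conj_I, h, map_one,
    map_intCast]
  push_cast
  linear_combination (v.1 * (r2 : ℂ) + (v.2 : ℂ)) * Complex.I_sq

private lemma Sym_iv (v : ℤ × ℤ) : iv (wp 1) (Sym_e v) = -Complex.I * conj (iv (wp 1) v) := by
  rw [iv, Sym_pt, mul_inv, Complex.inv_I, iv, map_inv₀]

private lemma Sym_ic (v : ℤ × ℤ) : ic (wp 1) (Sym_e v) = Complex.I * conj (ic (wp 1) v) := by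
  rw [ic, Sym_pt, map_mul, Complex.conj_I, mul_inv, inv_neg, Complex.inv_I, neg_neg, ic, map_inv₀]

private lemma Sym_KK (x : V4) : KK (wp 1) (Sym_e x.1, Sym_e x.2) = -conj (KK (wp 1) x) := by
  simp only [KK, Sym_add, Sym_iv, Sym_ic, map_mul, map_pow]
  linear_combination (conj (iv (wp 1) x.1) ^ 2 * conj (ic (wp 1) x.1) *
    conj (iv (wp 1) (x.1 + x.2)) ^ 2 * conj (ic (wp 1) x.2)) *
    ((Complex.I ^ 4 - Complex.I ^ 2 + 1) * Complex.I_sq)

private lemma Sym_K1 (v : ℤ × ℤ) : K1 (wp 1) (Sym_e v) = -conj (K1 (wp 1) v) := by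
  simp only [K1, Sym_iv, Sym_ic, map_mul, map_pow]
  linear_combination (conj (iv (wp 1) v) ^ 4 * conj (ic (wp 1) v) ^ 2) *
    ((Complex.I ^ 4 - Complex.I ^ 2 + 1) * Complex.I_sq)

private lemma Sym_D2 : D2 (wp 1) = -conj (D2 (wp 1)) := by
  have h1 : ∑' x : V4, (cw x.1.1 x.2.1 : ℂ) * KK (wp 1) x =
      -conj (∑' x : V4, (cw x.1.1 x.2.1 : ℂ) * KK (wp 1) x) := by
    conv_lhs => rw [← (Equiv.prodCongr Sym_e Sym_e).tsum_eq]
    rw [Complex.conj_tsum, ← tsum_neg]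
    refine tsum_congr fun x => ?_
    have e : (Equiv.prodCongr Sym_e Sym_e) x = (Sym_e x.1, Sym_e x.2) := rfl
    rw [e, Sym_KK]
    simp only [Sym_e_apply, cw_neg, map_mul, Complex.conj_ofReal]
    ring
  have h2 : ∑' v : ℤ × ℤ, (sw v.1 : ℂ) * K1 (wp 1) v =
      -conj (∑' v : ℤ × ℤ, (sw v.1 : ℂ) * K1 (wp 1) v) := by
    conv_lhs => rw [← Sym_e.tsum_eq]
    rw [Complex.conj_tsum, ← tsum_neg]
    refine tsum_congr fun v => ?_
    rw [Sym_K1]
    simp only [Sym_e_apply, sw_neg, map_mul, Complex.conj_ofReal]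
    ring
  rw [D2, map_add, neg_add, ← h1, ← h2]

theorem D2_one_re : (D2 (wp 1)).re = 0 := by
  have h := congrArg Complex.re Sym_D2
  rw [Complex.neg_re, Complex.conj_re] at h
  linarith

end D8
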