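import Mathlib
import Pool.Agent.D8.Defs
import Pool.Agent.D8.Asm
import Pool.Agent.D8.Der
import Pool.Agent.D8.Sym
import Pool.Agent.D8.Arc
import Pool.Agent.D8.PsG
import Pool.Agent.D8.Bij
import Pool.Agent.D8.Hor

/-!
# D8/Lat: the integral as a lattice sum

`F(Y) = hr(Re t, Im t) + 2 Im l(t) Im Gq(t) + (27/(4π⁵)) Y³ Re D2 (wp Y)`, `t = tY Y`.  `l = iλ` on the arc, so
`F' = 2 Re (iλ Psi t') + 2 λ' Im Gq + 2 λ Im (Psi t') + (27/(4π⁵)) (Y²/2) Re (S51 + S33) = 2 λ' Im Gq - (27/(4π⁵)) Y² Re (e2 W31) = 0`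
(`S51_eq`, `S33_re` with `g = 0`, `e2 = (2π/√3) iλ'`, `Gq_arc`).  `F(1) = hr_half - π Im Gq + 0 = 0`, `F(Y0)` is the claim
(`l(t0) = 0`, `hr_third`).
-/

set_option autoImplicit false

namespace D8

open Filter Topology

/-- the function that is constant along the arc -/
private noncomputable def FL (s : ℝ) : ℝ :=
  hr (tY s).re (tY s).im + 2 * ((D8W.l (tY s)).im * (Gq (tY s)).im) +
    27 / (4 * Real.pi ^ 5) * ((s : ℂ) ^ 3 * D2 (wp s)).re

private theorem pt_re_im (t : ℂ) : D8W.pt t.re t.im = t := by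
  unfold D8W.pt
  exact Complex.re_add_im t

private theorem hasDeriv_re {f : ℝ → ℂ} {f' : ℂ} {x : ℝ} (h : HasDerivAt f f' x) :
    HasDerivAt (fun s => (f s).re) f'.re x :=
  (Complex.reCLM.hasFDerivAt (x := f x)).comp_hasDerivAt x h

private theorem hasDeriv_im {f : ℝ → ℂ} {f' : ℂ} {x : ℝ} (h : HasDerivAt f f' x) :
    HasDerivAt (fun s => (f s).im) f'.im x :=
  (Complex.imCLM.hasFDerivAt (x := f x)).comp_hasDerivAt x h

private theorem FL_deriv {Y : ℝ} (hY : 0 < Y) : HasDerivAt FL 0 Y := by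
  have ht := tY_deriv Y
  have him := tY_im hY
  have h1 := hr_deriv (hasDeriv_re ht) (hasDeriv_im ht) him
  rw [pt_re_im, Complex.re_add_im] at h1
  have hl := l_arc_deriv hY
  have h2 := hasDeriv_im hl
  have hG0 : HasDerivAt (fun s : ℝ => Gq (tY s))
      (Complex.I / (Real.sqrt 3 * (1 + Y * Complex.I) ^ 2) * D8W.Psi (tY Y)) Y := by
    have h := ((Gq_deriv him).hasFDerivAt.restrictScalars ℝ).comp_hasDerivAt Y ht
    simpa [smul_eq_mul, Function.comp_def] using h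
  have h3 := hasDeriv_im hG0
  have h4 := (hasDeriv_re (D2_deriv hY)).const_mul (27 / (4 * Real.pi ^ 5))
  have h5 := (h1.add ((h2.mul h3).const_mul 2)).add h4
  refine h5.congr_deriv ?_
  have hre := l_arc_re hY
  have hG := Gq_arc hY
  have he := e2_arc_re hY
  have hS1 := S51_eq (good_wp hY)
  have hS2 := S33_re (good_wp hY) (Gs_arc hY)
  rw [mul_zero, Complex.zero_re, neg_zero] at hS2
  have hS3 : (S51 (wp Y) + S33 (wp Y)).re = 2 * ((W (wp Y) 3 1).im * (e2 (wp Y)).im) := by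
    rw [Complex.add_re, hS2, hS1]
    simp only [Complex.mul_re, Complex.mul_im, Complex.neg_re, Complex.neg_im, Complex.re_ofNat,
      Complex.im_ofNat, he]
    ring
  have hS4 : ((Y : ℂ) ^ 2 / 2 * (S51 (wp Y) + S33 (wp Y))).re =
      Y ^ 2 / 2 * (2 * ((W (wp Y) 3 1).im * (e2 (wp Y)).im)) := by
    have e1 : (Y : ℂ) ^ 2 / 2 = ((Y ^ 2 / 2 : ℝ) : ℂ) := by push_cast; ring
    rw [e1, Complex.re_ofReal_mul, hS3]
  have hL : (Real.sqrt 3 / (2 * Real.pi) * e2 (wp Y) : ℂ).im =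
      Real.sqrt 3 / (2 * Real.pi) * (e2 (wp Y)).im := by
    have e1 : (Real.sqrt 3 / (2 * Real.pi) : ℂ) = ((Real.sqrt 3 / (2 * Real.pi) : ℝ) : ℂ) := by
      push_cast; ring
    rw [e1, Complex.im_ofReal_mul]
  have hm : (D8W.l (tY Y) * D8W.Psi (tY Y) *
      (Complex.I / (Real.sqrt 3 * (1 + Y * Complex.I) ^ 2))).re =
      -((D8W.l (tY Y)).im *
        (Complex.I / (Real.sqrt 3 * (1 + Y * Complex.I) ^ 2) * D8W.Psi (tY Y)).im) := by
    rw [mul_assoc, mul_comm (D8W.Psi (tY Y)), Complex.mul_re, hre]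
    ring
  rw [hm, hS4, hL, hG]
  have hpi : Real.pi ≠ 0 := Real.pi_ne_zero
  have h3 : Real.sqrt 3 ≠ 0 := by positivity
  field_simp
  ring

private theorem FL_one : FL 1 = 0 := by
  have h3 : 0 < Real.sqrt 3 / 6 := by positivity
  have hre : (D8W.pt (1 / 2) (Real.sqrt 3 / 6)).re = 1 / 2 := by simp [D8W.pt]
  have him : (D8W.pt (1 / 2) (Real.sqrt 3 / 6)).im = Real.sqrt 3 / 6 := by simp [D8W.pt]
  unfold FL
  rw [tY_one, hre, him, hr_half h3, l_half_im h3, Complex.ofReal_one, one_pow, one_mul, D2_one_re]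
  ring

theorem lat_main :
    -(∫ x in (-(1/3) : ℝ)..(1/3), D8W.l (D8W.pt x D8W.y0) * D8W.Psi (D8W.pt x D8W.y0)) =
      ((27 / (4 * Real.pi ^ 5) * Y0 ^ 3 * (D2 (wp Y0)).re : ℝ) : ℂ) := by
  have hc : FL 1 = FL Y0 := by
    refine constant_of_has_deriv_right_zero (a := Y0) (b := 1) (f := FL) ?_ ?_ 1
      ⟨Y0_lt.le, le_refl _⟩
    · intro x hx
      exact (FL_deriv (lt_of_lt_of_le Y0_pos hx.1)).continuousAt.continuousWithinAt
    · intro x hx
      exact (FL_deriv (lt_of_lt_of_le Y0_pos hx.1)).hasDerivWithinAt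
  have h0 : FL Y0 = hr (1 / 3) D8W.y0 + 27 / (4 * Real.pi ^ 5) * (Y0 ^ 3 * (D2 (wp Y0)).re) := by
    have hre : (D8W.pt (1 / 3) D8W.y0).re = 1 / 3 := by simp [D8W.pt]
    have him : (D8W.pt (1 / 3) D8W.y0).im = D8W.y0 := by simp [D8W.pt]
    unfold FL
    rw [tY_Y0]
    unfold t0
    rw [hre, him, D8W.l_cm, Complex.zero_im, zero_mul, mul_zero, add_zero, ← Complex.ofReal_pow,
      Complex.re_ofReal_mul]
  rw [hr_third, ← Complex.ofReal_neg]
  congr 1
  rw [FL_one, h0] at hc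
  linarith

end D8
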