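import Mathlib
import Pool.Agent.D8.Defs
import Pool.Agent.D8.Bas
import Pool.Agent.D8.Wt
import Pool.Agent.D8.Ker

/-!
# D8/LinkE: the products `E21 E21` cancel, PORT of RVS/LinkE (`y ↦ w`)
-/

set_option autoImplicit false

namespace D8

variable {w : ℂ × ℂ}

private lemma LinkE_norm (w : ℂ × ℂ) (v : ℤ × ℤ) : ‖EE w v‖ = ‖iv w v‖ ^ 3 := by
  unfold EE
  rw [norm_mul, norm_pow, norm_ic]
  ring

private lemma LinkE_odd (w : ℂ × ℂ) (v : ℤ × ℤ) : EE w (-v) = -EE w v := by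
  unfold EE
  rw [iv_neg, ic_neg]
  ring

private lemma LinkE_sq (w : ℂ × ℂ) (v : ℤ × ℤ) : EE w v * EE w v = K1 w v := by
  unfold EE K1
  ring

private lemma LinkE_cw (a b : ℤ) : ‖(cw a b : ℂ)‖ ≤ 20 := by
  rw [Complex.norm_real, Real.norm_eq_abs]
  exact cw_abs a b

private lemma LinkE_A (hw : Good w) {K : V4 → ℂ} (hK : ∀ x, ‖K x‖ ≤ 20) :
    Summable fun x : V4 => K x * (EE w x.1 * EE w (x.1 + x.2)) := by
  refine Summable.of_norm_bounded ((ker_summable hw (a := 3) (b := 0) (c := 3) (by norm_num)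
    (by norm_num) (by norm_num) rfl).mul_left 20) fun x => ?_
  rw [norm_mul, norm_mul, LinkE_norm, LinkE_norm]
  calc ‖K x‖ * (‖iv w x.1‖ ^ 3 * ‖iv w (x.1 + x.2)‖ ^ 3)
      ≤ 20 * (‖iv w x.1‖ ^ 3 * ‖iv w (x.1 + x.2)‖ ^ 3) :=
        mul_le_mul_of_nonneg_right (hK x) (by positivity)
    _ = _ := by ring

private lemma LinkE_B (hw : Good w) {K : V4 → ℂ} (hK : ∀ x, ‖K x‖ ≤ 20) :
    Summable fun x : V4 => K x * (EE w x.2 * EE w (x.1 + x.2)) := by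
  refine Summable.of_norm_bounded ((ker_summable hw (a := 0) (b := 3) (c := 3) (by norm_num)
    (by norm_num) (by norm_num) rfl).mul_left 20) fun x => ?_
  rw [norm_mul, norm_mul, LinkE_norm, LinkE_norm]
  calc ‖K x‖ * (‖iv w x.2‖ ^ 3 * ‖iv w (x.1 + x.2)‖ ^ 3)
      ≤ 20 * (‖iv w x.2‖ ^ 3 * ‖iv w (x.1 + x.2)‖ ^ 3) :=
        mul_le_mul_of_nonneg_right (hK x) (by positivity)
    _ = _ := by ring

private lemma LinkE_C (hw : Good w) {K : V4 → ℂ} (hK : ∀ x, ‖K x‖ ≤ 20) :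
    Summable fun x : V4 => K x * (EE w x.1 * EE w x.2) := by
  refine Summable.of_norm_bounded ((ker_summable hw (a := 3) (b := 3) (c := 0) (by norm_num)
    (by norm_num) (by norm_num) rfl).mul_left 20) fun x => ?_
  rw [norm_mul, norm_mul, LinkE_norm, LinkE_norm]
  calc ‖K x‖ * (‖iv w x.1‖ ^ 3 * ‖iv w x.2‖ ^ 3)
      ≤ 20 * (‖iv w x.1‖ ^ 3 * ‖iv w x.2‖ ^ 3) :=
        mul_le_mul_of_nonneg_right (hK x) (by positivity)
    _ = _ := by ring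

/-- indicator of `v = 0` -/
private noncomputable def LinkE_z (v : ℤ × ℤ) : ℂ := if v = 0 then 1 else 0

private lemma LinkE_nz (v : ℤ × ℤ) : nz v = 1 - LinkE_z v := by
  unfold nz LinkE_z
  split_ifs <;> simp

private lemma LinkE_zn (v : ℤ × ℤ) : ‖LinkE_z v‖ ≤ 1 := by
  unfold LinkE_z
  split_ifs <;> simp

private lemma LinkE_cz (a b : ℤ) (v : ℤ × ℤ) : ‖(cw a b : ℂ) * LinkE_z v‖ ≤ 20 := by
  rw [norm_mul]
  have h1 := LinkE_cw a b
  have h2 := LinkE_zn v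
  have h3 := norm_nonneg (cw a b : ℂ)
  nlinarith [norm_nonneg (LinkE_z v)]

/-- `(s,t) ↦ (t, s - t)` -/
private def LinkE_eA : V4 ≃ V4 where
  toFun u := (u.2, u.1 - u.2)
  invFun u := (u.1 + u.2, u.1)
  left_inv u := by ext <;> simp
  right_inv u := by ext <;> simp

/-- `(s,t) ↦ (s - t, t)` -/
private def LinkE_eB : V4 ≃ V4 where
  toFun u := (u.1 - u.2, u.2)
  invFun u := (u.1 + u.2, u.2)
  left_inv u := by ext <;> simp
  right_inv u := by ext <;> simp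

/-- `(s,t) ↦ (-s, t)` -/
private def LinkE_eN : V4 ≃ V4 where
  toFun u := (-u.1, u.2)
  invFun u := (-u.1, u.2)
  left_inv u := by ext <;> simp
  right_inv u := by ext <;> simp

private lemma LinkE_tA (w : ℂ × ℂ) :
    ∑' x : V4, (cw x.1.1 x.2.1 : ℂ) * (EE w x.1 * EE w (x.1 + x.2)) =
      ∑' x : V4, (cw x.2.1 (x.1.1 - x.2.1) : ℂ) * (EE w x.1 * EE w x.2) := by
  rw [← LinkE_eA.tsum_eq]
  refine tsum_congr fun x => ?_
  simp only [LinkE_eA, Equiv.coe_fn_mk, Prod.fst_sub, add_sub_cancel]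
  ring

private lemma LinkE_tB (w : ℂ × ℂ) :
    ∑' x : V4, (cw x.1.1 x.2.1 : ℂ) * (EE w x.2 * EE w (x.1 + x.2)) =
      ∑' x : V4, (cw (x.1.1 - x.2.1) x.2.1 : ℂ) * (EE w x.1 * EE w x.2) := by
  rw [← LinkE_eB.tsum_eq]
  refine tsum_congr fun x => ?_
  simp only [LinkE_eB, Equiv.coe_fn_mk, Prod.fst_sub, sub_add_cancel]
  ring

private lemma LinkE_zero (w : ℂ × ℂ) :
    ∑' x : V4, ((cw x.1.1 x.2.1 + cw (x.1.1 - x.2.1) x.2.1 + cw x.2.1 (x.1.1 - x.2.1) : ℝ) : ℂ) *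
      (EE w x.1 * EE w x.2) = 0 := by
  set F : V4 → ℂ := fun x =>
    ((cw x.1.1 x.2.1 + cw (x.1.1 - x.2.1) x.2.1 + cw x.2.1 (x.1.1 - x.2.1) : ℝ) : ℂ) *
      (EE w x.1 * EE w x.2) with hF
  have h1 : ∑' x, F x = ∑' x, F (LinkE_eN x) := (LinkE_eN.tsum_eq F).symm
  have h2 : ∀ x, F (LinkE_eN x) = -F x := by
    intro x
    simp only [hF, LinkE_eN, Equiv.coe_fn_mk, Prod.fst_neg]
    rw [LinkE_odd, ← wt_even x.1.1 x.2.1]
    ring
  have h3 : ∑' x, F x = -∑' x, F x := by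
    conv_lhs => rw [h1]
    rw [← tsum_neg]
    exact tsum_congr h2
  have h4 : (2 : ℂ) * ∑' x, F x = 0 := by linear_combination h3
  simpa using h4

/-- the sum without the factors `nz` -/
private lemma LinkE_S (hw : Good w) :
    ∑' x : V4, (cw x.1.1 x.2.1 : ℂ) * (EE w x.1 * EE w (x.1 + x.2)) +
      ∑' x : V4, (cw x.1.1 x.2.1 : ℂ) * (EE w x.2 * EE w (x.1 + x.2)) +
      ∑' x : V4, (cw x.1.1 x.2.1 : ℂ) * (EE w x.1 * EE w x.2) = 0 := by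
  rw [LinkE_tA, LinkE_tB]
  have s1 := LinkE_C hw (K := fun x => (cw x.2.1 (x.1.1 - x.2.1) : ℂ)) fun _ => LinkE_cw _ _
  have s2 := LinkE_C hw (K := fun x => (cw (x.1.1 - x.2.1) x.2.1 : ℂ)) fun _ => LinkE_cw _ _
  have s3 := LinkE_C hw (K := fun x => (cw x.1.1 x.2.1 : ℂ)) fun _ => LinkE_cw _ _
  rw [← s1.tsum_add s2, ← (s1.add s2).tsum_add s3, ← LinkE_zero w]
  refine tsum_congr fun x => ?_
  push_cast
  ring

private lemma LinkE_dA (w : ℂ × ℂ) :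
    ∑' x : V4, ((cw x.1.1 x.2.1 : ℂ) * LinkE_z x.2) * (EE w x.1 * EE w (x.1 + x.2)) =
      ∑' v : ℤ × ℤ, (cw v.1 0 : ℂ) * K1 w v := by
  have hi : Function.Injective fun v : ℤ × ℤ => ((v, 0) : V4) := fun a b h => by
    simpa using h
  rw [← hi.tsum_eq]
  · refine tsum_congr fun v => ?_
    simp only [LinkE_z, if_true, add_zero, Prod.fst_zero]
    rw [LinkE_sq]
    ring
  · intro x hx
    have h0 : x.2 = 0 := by
      by_contra h
      exact hx (by simp [LinkE_z, h])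
    exact ⟨x.1, by rw [← h0]⟩

private lemma LinkE_dB (w : ℂ × ℂ) :
    ∑' x : V4, ((cw x.1.1 x.2.1 : ℂ) * LinkE_z x.1) * (EE w x.2 * EE w (x.1 + x.2)) =
      ∑' v : ℤ × ℤ, (cw 0 v.1 : ℂ) * K1 w v := by
  have hi : Function.Injective fun v : ℤ × ℤ => ((0, v) : V4) := fun a b h => by
    simpa using h
  rw [← hi.tsum_eq]
  · refine tsum_congr fun v => ?_
    simp only [LinkE_z, if_true, zero_add, Prod.fst_zero]
    rw [LinkE_sq]
    ring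
  · intro x hx
    have h0 : x.1 = 0 := by
      by_contra h
      exact hx (by simp [LinkE_z, h])
    exact ⟨x.2, by rw [← h0]⟩

private lemma LinkE_dC (w : ℂ × ℂ) :
    ∑' x : V4, ((cw x.1.1 x.2.1 : ℂ) * LinkE_z (x.1 + x.2)) * (EE w x.1 * EE w x.2) =
      ∑' v : ℤ × ℤ, -((cw v.1 (-v.1) : ℂ) * K1 w v) := by
  have hi : Function.Injective fun v : ℤ × ℤ => ((v, -v) : V4) := fun a b h => by
    simpa using congrArg Prod.fst h
  rw [← hi.tsum_eq]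
  · refine tsum_congr fun v => ?_
    simp only [LinkE_z, if_true, add_neg_cancel, Prod.fst_neg]
    rw [LinkE_odd, ← LinkE_sq]
    ring
  · intro x hx
    have h0 : x.1 + x.2 = 0 := by
      by_contra h
      exact hx (by simp [LinkE_z, h])
    exact ⟨x.1, Prod.ext rfl (eq_neg_of_add_eq_zero_right h0).symm⟩

private lemma LinkE_dec (w : ℂ × ℂ) (x : V4) : (cw x.1.1 x.2.1 : ℂ) * KE w x =
    ((cw x.1.1 x.2.1 : ℂ) * (EE w x.1 * EE w (x.1 + x.2)) +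
      (cw x.1.1 x.2.1 : ℂ) * (EE w x.2 * EE w (x.1 + x.2)) +
      (cw x.1.1 x.2.1 : ℂ) * (EE w x.1 * EE w x.2)) -
    (((cw x.1.1 x.2.1 : ℂ) * LinkE_z x.2) * (EE w x.1 * EE w (x.1 + x.2)) +
      ((cw x.1.1 x.2.1 : ℂ) * LinkE_z x.1) * (EE w x.2 * EE w (x.1 + x.2)) +
      ((cw x.1.1 x.2.1 : ℂ) * LinkE_z (x.1 + x.2)) * (EE w x.1 * EE w x.2)) := by
  unfold KE
  rw [LinkE_nz, LinkE_nz, LinkE_nz]
  ring

theorem KE_summable (hw : Good w) : Summable fun x : V4 => (cw x.1.1 x.2.1 : ℂ) * KE w x := by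
  have a1 := LinkE_A hw (K := fun x => (cw x.1.1 x.2.1 : ℂ)) fun _ => LinkE_cw _ _
  have a2 := LinkE_B hw (K := fun x => (cw x.1.1 x.2.1 : ℂ)) fun _ => LinkE_cw _ _
  have a3 := LinkE_C hw (K := fun x => (cw x.1.1 x.2.1 : ℂ)) fun _ => LinkE_cw _ _
  have b1 := LinkE_A hw (K := fun x => (cw x.1.1 x.2.1 : ℂ) * LinkE_z x.2) fun _ => LinkE_cz _ _ _
  have b2 := LinkE_B hw (K := fun x => (cw x.1.1 x.2.1 : ℂ) * LinkE_z x.1) fun _ => LinkE_cz _ _ _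
  have b3 := LinkE_C hw (K := fun x => (cw x.1.1 x.2.1 : ℂ) * LinkE_z (x.1 + x.2))
    fun _ => LinkE_cz _ _ _
  exact (((a1.add a2).add a3).sub ((b1.add b2).add b3)).congr fun x => (LinkE_dec w x).symm

private lemma LinkE_K1 (hw : Good w) (f : ℤ × ℤ → ℂ) (hf : ∀ v, ‖f v‖ ≤ 20) :
    Summable fun v : ℤ × ℤ => f v * K1 w v := by
  refine Summable.of_norm_bounded ((summable_iv hw (k := 6) (by norm_num)).mul_left 20)
    fun v => ?_
  rw [norm_mul]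
  refine mul_le_mul (hf v) (le_of_eq ?_) (norm_nonneg _) (by norm_num)
  simp only [K1, norm_mul, norm_pow, norm_ic]
  ring

theorem KE_sum (hw : Good w) :
    ∑' x : V4, (cw x.1.1 x.2.1 : ℂ) * KE w x =
      -∑' v : ℤ × ℤ, ((cw v.1 0 + cw 0 v.1 - cw v.1 (-v.1) : ℝ) : ℂ) * K1 w v := by
  have a1 := LinkE_A hw (K := fun x => (cw x.1.1 x.2.1 : ℂ)) fun _ => LinkE_cw _ _
  have a2 := LinkE_B hw (K := fun x => (cw x.1.1 x.2.1 : ℂ)) fun _ => LinkE_cw _ _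
  have a3 := LinkE_C hw (K := fun x => (cw x.1.1 x.2.1 : ℂ)) fun _ => LinkE_cw _ _
  have b1 := LinkE_A hw (K := fun x => (cw x.1.1 x.2.1 : ℂ) * LinkE_z x.2) fun _ => LinkE_cz _ _ _
  have b2 := LinkE_B hw (K := fun x => (cw x.1.1 x.2.1 : ℂ) * LinkE_z x.1) fun _ => LinkE_cz _ _ _
  have b3 := LinkE_C hw (K := fun x => (cw x.1.1 x.2.1 : ℂ) * LinkE_z (x.1 + x.2))
    fun _ => LinkE_cz _ _ _
  have c1 := LinkE_K1 hw (fun v => (cw v.1 0 : ℂ)) fun _ => LinkE_cw _ _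
  have c2 := LinkE_K1 hw (fun v => (cw 0 v.1 : ℂ)) fun _ => LinkE_cw _ _
  have c3 := LinkE_K1 hw (fun v => (cw v.1 (-v.1) : ℂ)) fun _ => LinkE_cw _ _
  have hS := LinkE_S hw
  rw [← a1.tsum_add a2, ← (a1.add a2).tsum_add a3] at hS
  have hD : ∑' x : V4, (((cw x.1.1 x.2.1 : ℂ) * LinkE_z x.2) * (EE w x.1 * EE w (x.1 + x.2)) +
      ((cw x.1.1 x.2.1 : ℂ) * LinkE_z x.1) * (EE w x.2 * EE w (x.1 + x.2)) +
      ((cw x.1.1 x.2.1 : ℂ) * LinkE_z (x.1 + x.2)) * (EE w x.1 * EE w x.2)) =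
      ∑' v : ℤ × ℤ, ((cw v.1 0 + cw 0 v.1 - cw v.1 (-v.1) : ℝ) : ℂ) * K1 w v := by
    rw [(b1.add b2).tsum_add b3, b1.tsum_add b2, LinkE_dA, LinkE_dB, LinkE_dC,
      ← c1.tsum_add c2, ← (c1.add c2).tsum_add c3.neg]
    refine tsum_congr fun v => ?_
    push_cast
    ring
  rw [tsum_congr (LinkE_dec w), ((a1.add a2).add a3).tsum_sub ((b1.add b2).add b3), hS, hD,
    zero_sub]

end D8
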