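import Mathlib
import Pool.Agent.D8.Defs
import Pool.Agent.D8.Bas
import Pool.Agent.D8.Wt
import Pool.Agent.D8.Ker
import Pool.Agent.RVP.Sh

/-!
# D8/LinkJ1: PORT of RVS/LinkJ1 (`y ↦ w`)
-/

set_option autoImplicit false

open scoped ComplexConjugate
open RVP (tsum_pq tsum_qr)

namespace D8

variable {w : ℂ × ℂ}

private lemma LinkJ1_nz_le (v : ℤ × ℤ) : ‖nz v‖ ≤ 1 := by
  unfold nz; split_ifs <;> simp

private lemma LinkJ1_ivic (w : ℂ × ℂ) (v : ℤ × ℤ) : iv w v * ic w v = ((‖iv w v‖ ^ 2 : ℝ) : ℂ) := by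
  rw [← conj_iv, Complex.mul_conj, Complex.normSq_eq_norm_sq]

private lemma LinkJ1_dif (hw : Good w) {p q : ℤ × ℤ} (hp : p ≠ 0) (hr : p + q ≠ 0) :
    ‖iv w p * ic w p - iv w (p + q) * ic w (p + q)‖ ≤
      ‖pt w q‖ * (‖iv w p‖ * ‖iv w (p + q)‖ * (‖iv w p‖ + ‖iv w (p + q)‖)) := by
  rw [LinkJ1_ivic, LinkJ1_ivic, ← Complex.ofReal_sub, Complex.norm_real, Real.norm_eq_abs]
  have hp' : 0 < ‖pt w p‖ := norm_pos_iff.mpr fun h => hp ((pt_eq_zero hw).mp h)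
  have hr' : 0 < ‖pt w (p + q)‖ := norm_pos_iff.mpr fun h => hr ((pt_eq_zero hw).mp h)
  have h1 : |‖pt w (p + q)‖ - ‖pt w p‖| ≤ ‖pt w q‖ := by
    have h := abs_norm_sub_norm_le (pt w (p + q)) (pt w p)
    rwa [pt_add, add_sub_cancel_left, ← pt_add] at h
  have h2 : ‖iv w p‖ ^ 2 - ‖iv w (p + q)‖ ^ 2 =
      (‖pt w (p + q)‖ - ‖pt w p‖) *
        (‖iv w p‖ * ‖iv w (p + q)‖ * (‖iv w p‖ + ‖iv w (p + q)‖)) := by
    simp only [iv, norm_inv]
    field_simp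
    ring
  rw [h2, abs_mul, abs_of_nonneg (by positivity :
    0 ≤ ‖iv w p‖ * ‖iv w (p + q)‖ * (‖iv w p‖ + ‖iv w (p + q)‖))]
  exact mul_le_mul_of_nonneg_right h1 (by positivity)

private lemma LinkJ1_le (hw : Good w) (x : V4) :
    ‖nz x.1 * nz (x.1 + x.2) * KJ w x‖ ≤
      ‖iv w x.1‖ ^ 2 * ‖iv w x.2‖ ^ 3 * ‖iv w (x.1 + x.2)‖ ^ 1 +
        ‖iv w x.1‖ ^ 1 * ‖iv w x.2‖ ^ 3 * ‖iv w (x.1 + x.2)‖ ^ 2 := by
  by_cases hp : x.1 = 0
  · have : nz x.1 = 0 := by simp [nz, hp]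
    rw [this, zero_mul, zero_mul, norm_zero]
    positivity
  by_cases hr : x.1 + x.2 = 0
  · have : nz (x.1 + x.2) = 0 := by simp [nz, hr]
    rw [this, mul_zero, zero_mul, norm_zero]
    positivity
  have h1 : nz x.1 = 1 := by simp [nz, hp]
  have h2 : nz (x.1 + x.2) = 1 := by simp [nz, hr]
  rw [h1, h2, one_mul, one_mul]
  unfold KJ
  rw [norm_mul, norm_mul, norm_pow, norm_ic]
  have h3 := LinkJ1_dif hw hp hr
  have h4 : ‖pt w x.2‖ * ‖iv w x.2‖ ≤ 1 := by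
    rw [← norm_mul, pt_mul_iv hw]; exact LinkJ1_nz_le _
  calc ‖iv w x.2‖ ^ 3 * ‖iv w x.2‖ *
        ‖iv w x.1 * ic w x.1 - iv w (x.1 + x.2) * ic w (x.1 + x.2)‖
      ≤ ‖iv w x.2‖ ^ 3 * ‖iv w x.2‖ * (‖pt w x.2‖ * (‖iv w x.1‖ * ‖iv w (x.1 + x.2)‖ *
          (‖iv w x.1‖ + ‖iv w (x.1 + x.2)‖))) :=
        mul_le_mul_of_nonneg_left h3 (by positivity)
    _ = (‖iv w x.2‖ ^ 3 * (‖iv w x.1‖ * ‖iv w (x.1 + x.2)‖ *
          (‖iv w x.1‖ + ‖iv w (x.1 + x.2)‖))) * (‖pt w x.2‖ * ‖iv w x.2‖) := by ring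
    _ ≤ (‖iv w x.2‖ ^ 3 * (‖iv w x.1‖ * ‖iv w (x.1 + x.2)‖ *
          (‖iv w x.1‖ + ‖iv w (x.1 + x.2)‖))) * 1 :=
        mul_le_mul_of_nonneg_left h4 (by positivity)
    _ = _ := by ring

theorem KJ_summable (hw : Good w) :
    Summable fun x : V4 => (cw x.1.1 x.2.1 : ℂ) * (nz x.1 * nz (x.1 + x.2) * KJ w x) := by
  refine Summable.of_norm_bounded (((ker_summable hw (a := 2) (b := 3) (c := 1) (by norm_num)
    (by norm_num) (by norm_num) rfl).add (ker_summable hw (a := 1) (b := 3) (c := 2) (by norm_num)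
    (by norm_num) (by norm_num) rfl)).mul_left 20) fun x => ?_
  rw [norm_mul]
  have h1 : ‖(cw x.1.1 x.2.1 : ℂ)‖ ≤ 20 := by
    rw [Complex.norm_real, Real.norm_eq_abs]; exact cw_abs _ _
  exact mul_le_mul h1 (LinkJ1_le hw x) (norm_nonneg _) (by norm_num)

/-- indicator of `v = 0` -/
private noncomputable def LinkJ1_z (v : ℤ × ℤ) : ℂ := if v = 0 then 1 else 0

private lemma LinkJ1_nz (v : ℤ × ℤ) : nz v = 1 - LinkJ1_z v := by
  unfold nz LinkJ1_z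
  split_ifs <;> simp

private lemma LinkJ1_dec (w : ℂ × ℂ) (x : V4) :
    nz x.1 * nz (x.1 + x.2) * KJ w x =
      iv w x.1 * ic w x.1 * (iv w x.2 ^ 3 * ic w x.2)
        - iv w x.2 ^ 3 * ic w x.2 * (iv w (x.1 + x.2) * ic w (x.1 + x.2))
        + LinkJ1_z x.1 * K1 w x.2 - LinkJ1_z (x.1 + x.2) * K1 w x.2 := by
  rw [LinkJ1_nz, LinkJ1_nz]
  by_cases hp : x.1 = 0
  · by_cases hr : x.1 + x.2 = 0
    · have hq : x.2 = 0 := by rw [hp, zero_add] at hr; exact hr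
      simp only [LinkJ1_z, KJ, K1, hp, hq, iv_zero, ic_zero, add_zero, if_true]
      ring
    · have h1 : LinkJ1_z x.1 = 1 := by simp [LinkJ1_z, hp]
      have h2 : LinkJ1_z (x.1 + x.2) = 0 := by simp [LinkJ1_z, hr]
      rw [h1, h2]
      unfold KJ K1
      rw [hp, zero_add, iv_zero, ic_zero]
      ring
  · have h1 : LinkJ1_z x.1 = 0 := by simp [LinkJ1_z, hp]
    by_cases hr : x.1 + x.2 = 0
    · have h2 : LinkJ1_z (x.1 + x.2) = 1 := by simp [LinkJ1_z, hr]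
      have h3 : x.1 = -x.2 := eq_neg_of_add_eq_zero_left hr
      rw [h1, h2]
      unfold KJ K1
      rw [hr, h3, iv_neg, ic_neg, iv_zero, ic_zero]
      ring
    · have h2 : LinkJ1_z (x.1 + x.2) = 0 := by simp [LinkJ1_z, hr]
      rw [h1, h2]
      unfold KJ K1
      ring

private lemma LinkJ1_cv {f g : ℤ × ℤ → ℂ} {a b : ℂ} (h : HasSum f a) (e : ∀ z, g z = f z)
    (e' : b = a) : HasSum g b := by
  rw [e', show g = f from funext e]; exact h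

private lemma LinkJ1_pq {f g : ℤ → ℂ} (hf : Summable f) (hg : Summable g) :
    HasSum (fun z : ℤ × ℤ => f z.1 * g z.2) ((∑' n, f n) * ∑' n, g n) := by
  have h := tsum_pq hf hg
  rw [← h.2]; exact h.1.hasSum

private lemma LinkJ1_qr {f g : ℤ → ℂ} (hf : Summable f) (hg : Summable g) :
    HasSum (fun z : ℤ × ℤ => f z.2 * g (z.1 + z.2)) ((∑' n, f n) * ∑' n, g n) := by
  have h := tsum_qr hf hg
  rw [← h.2]; exact h.1.hasSum

private lemma LinkJ1_ind : HasSum (fun n : ℤ => if n = 0 then (1 : ℂ) else 0) 1 :=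
  hasSum_ite_eq 0 1

private lemma LinkJ1_row (hw : Good w) (a b : ℕ) (h : 2 ≤ a + b) (m : ℤ) :
    Summable (fun n : ℤ => iv w (m, n) ^ a * ic w (m, n) ^ b) := row_summable hw h m

private lemma LinkJ1_zp (hw : Good w) (i j : ℤ) :
    HasSum (fun z : ℤ × ℤ => LinkJ1_z (i, z.1) * K1 w (j, z.2))
      (if i = 0 then X w 4 2 j else 0) := by
  by_cases hi : i = 0
  · have h := LinkJ1_pq LinkJ1_ind.summable (LinkJ1_row hw 4 2 (by norm_num) j)
    rw [LinkJ1_ind.tsum_eq] at h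
    subst hi
    rw [if_pos rfl]
    refine LinkJ1_cv h (fun z => ?_) ?_
    · by_cases hz : z.1 = 0
      · simp [hz, LinkJ1_z, K1]
      · simp [hz, LinkJ1_z, K1]
    · simp only [X]; ring
  · rw [if_neg hi]
    refine LinkJ1_cv hasSum_zero (fun z => ?_) rfl
    simp [hi, LinkJ1_z]

private lemma LinkJ1_zr (hw : Good w) (i j : ℤ) :
    HasSum (fun z : ℤ × ℤ => LinkJ1_z (i + j, z.1 + z.2) * K1 w (j, z.2))
      (if i + j = 0 then X w 4 2 j else 0) := by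
  by_cases hi : i + j = 0
  · have h := LinkJ1_qr (LinkJ1_row hw 4 2 (by norm_num) j) LinkJ1_ind.summable
    rw [LinkJ1_ind.tsum_eq] at h
    rw [if_pos hi]
    refine LinkJ1_cv h (fun z => ?_) ?_
    · by_cases hz : z.1 + z.2 = 0
      · simp [hz, hi, LinkJ1_z, K1]
      · simp [hz, hi, LinkJ1_z, K1]
    · simp only [X]; ring
  · rw [if_neg hi]
    refine LinkJ1_cv hasSum_zero (fun z => ?_) rfl
    simp [hi, LinkJ1_z]

theorem KJ_block (hw : Good w) (i j : ℤ) :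
    ∑' z : ℤ × ℤ, nz (i, z.1) * nz (i + j, z.1 + z.2) * KJ w ((i, z.1), (j, z.2)) =
      X w 3 1 j * (X w 1 1 i - X w 1 1 (i + j)) + (if i = 0 then X w 4 2 j else 0)
        - (if i + j = 0 then X w 4 2 j else 0) := by
  have h1 := LinkJ1_pq (LinkJ1_row hw 1 1 (by norm_num) i) (LinkJ1_row hw 3 1 (by norm_num) j)
  have h2 := LinkJ1_qr (LinkJ1_row hw 3 1 (by norm_num) j) (LinkJ1_row hw 1 1 (by norm_num) (i + j))
  have h := ((h1.sub h2).add (LinkJ1_zp hw i j)).sub (LinkJ1_zr hw i j)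
  refine HasSum.tsum_eq (LinkJ1_cv h (fun z => ?_) ?_)
  · have h3 := LinkJ1_dec w ((i, z.1), (j, z.2))
    simp only [Prod.mk_add_mk] at h3
    rw [h3]
    simp only [pow_one]
  · simp only [X]
    ring

end D8
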