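import Mathlib
import Pool.Agent.D8.Defs
import Pool.Agent.D8.Bas
import Pool.Agent.D8.Wt
import Pool.Agent.D8.RowA
import Pool.Agent.D8.LinkJ1
import Pool.Agent.RVP.Sh

/-!
# D8/LinkJ2: PORT of RVS/LinkJ2 (`y ↦ w`; `1/6` becomes `1`, `g = lim Gs`)
-/

set_option autoImplicit false

open Filter Topology

namespace D8

variable {w : ℂ × ℂ}

private theorem LJ2_cw_norm (a b : ℤ) : ‖(cw a b : ℂ)‖ ≤ 20 := by
  rw [Complex.norm_real, Real.norm_eq_abs]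
  exact cw_abs a b

private theorem LJ2_X11_neg (w : ℂ × ℂ) (i : ℤ) : X w 1 1 (-i) = X w 1 1 i := by
  rw [X_neg]
  norm_num

private theorem LJ2_refl (f : ℤ → ℂ) (N : ℕ) :
    ∑ i ∈ Finset.Icc (-(N : ℤ)) N, f (-i) = ∑ i ∈ Finset.Icc (-(N : ℤ)) N, f i := by
  refine Finset.sum_nbij' (fun i => -i) (fun i => -i) ?_ ?_ ?_ ?_ ?_
  · intro i hi
    simp only [Finset.mem_Icc] at hi ⊢
    omega
  · intro i hi
    simp only [Finset.mem_Icc] at hi ⊢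
    omega
  · intro i _
    simp
  · intro i _
    simp
  · intro i _
    simp

private theorem LJ2_sym (w : ℂ × ℂ) (j : ℤ) (N : ℕ) :
    ∑ i ∈ Finset.Icc (-(N : ℤ)) N, ((cw i j : ℂ) - (cw (i - j) j : ℂ)) * X w 1 1 i =
      (ps j : ℂ) * ∑ i ∈ Finset.Icc (-(N : ℤ)) N, (ph i : ℂ) * X w 1 1 i := by
  have h1 := LJ2_refl (fun i => ((cw i j : ℂ) - (cw (i - j) j : ℂ)) * X w 1 1 i) N
  have h2 : ∑ i ∈ Finset.Icc (-(N : ℤ)) N, ((cw i j : ℂ) - (cw (i - j) j : ℂ)) * X w 1 1 i =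
      1 / 2 * (∑ i ∈ Finset.Icc (-(N : ℤ)) N, ((cw i j : ℂ) - (cw (i - j) j : ℂ)) * X w 1 1 i +
        ∑ i ∈ Finset.Icc (-(N : ℤ)) N,
          ((cw (-i) j : ℂ) - (cw (-i - j) j : ℂ)) * X w 1 1 (-i)) := by
    rw [h1]
    ring
  rw [h2, ← Finset.sum_add_distrib, Finset.mul_sum, Finset.mul_sum]
  refine Finset.sum_congr rfl fun i _ => ?_
  rw [LJ2_X11_neg]
  have h3 := wt_psi i j
  have h4 : (((cw (i - j) j - cw i j) + (cw (-i - j) j - cw (-i) j) : ℝ) : ℂ) =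
      ((-2 * ps j * ph i : ℝ) : ℂ) := by rw [h3]
  push_cast at h4
  linear_combination (-(1 / 2) * X w 1 1 i) * h4

private theorem LJ2_J_row (hw : Good w) {g : ℂ} (hg : Tendsto (Gs w) atTop (𝓝 g)) (j : ℤ)
    (hs : Summable fun i : ℤ => (cw i j : ℂ) * (X w 1 1 i - X w 1 1 (i + j))) :
    ∑' i : ℤ, (cw i j : ℂ) * (X w 1 1 i - X w 1 1 (i + j)) = (ps j : ℂ) * g := by
  have hg0 : Tendsto (fun i : ℤ => (cw (i - j) j : ℂ) * X w 1 1 i) cofinite (𝓝 0) := by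
    have h0 := (X11_tendsto hw).norm.const_mul 20
    rw [norm_zero, mul_zero] at h0
    refine squeeze_zero_norm (fun i => ?_) h0
    rw [norm_mul]
    exact mul_le_mul_of_nonneg_right (LJ2_cw_norm _ _) (norm_nonneg _)
  have h1 := RVP.hasSum_Icc hs.hasSum
  have h2 := RVP.sum_shift_tendsto hg0 j
  have h3 := (hg.const_mul (ps j : ℂ)).sub h2
  rw [sub_zero] at h3
  refine tendsto_nhds_unique h1 (h3.congr fun N => ?_)
  unfold Gs
  rw [← LJ2_sym, ← Finset.sum_sub_distrib]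
  refine Finset.sum_congr rfl fun i _ => ?_
  rw [add_sub_cancel_right]
  ring

/-- the contact terms -/
private noncomputable def LJ2_c1 (w : ℂ × ℂ) (u : ℤ × ℤ) : ℂ :=
  (cw u.1 u.2 : ℂ) * (if u.1 = 0 then X w 4 2 u.2 else 0)

private noncomputable def LJ2_c2 (w : ℂ × ℂ) (u : ℤ × ℤ) : ℂ :=
  (cw u.1 u.2 : ℂ) * (if u.1 + u.2 = 0 then X w 4 2 u.2 else 0)

private noncomputable def LJ2_mn (w : ℂ × ℂ) (u : ℤ × ℤ) : ℂ :=
  (cw u.1 u.2 : ℂ) * (X w 3 1 u.2 * (X w 1 1 u.1 - X w 1 1 (u.1 + u.2)))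

private theorem LJ2_row (hw : Good w) (f : ℤ → ℝ) (hf : ∀ m, |f m| ≤ 20) :
    Summable fun m : ℤ => (f m : ℂ) * X w 4 2 m := by
  refine Summable.of_norm_bounded ((X_summable (a := 4) (b := 2) hw (by norm_num)).mul_left 20)
    fun m => ?_
  rw [norm_mul, Complex.norm_real, Real.norm_eq_abs]
  exact mul_le_mul_of_nonneg_right (hf m) (norm_nonneg _)

private theorem LJ2_inj1 : Function.Injective fun m : ℤ => ((0, m) : ℤ × ℤ) := by
  intro a b h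
  simpa using h

private theorem LJ2_inj2 : Function.Injective fun m : ℤ => ((-m, m) : ℤ × ℤ) := by
  intro a b h
  simpa using h

private theorem LJ2_has1 (hw : Good w) :
    HasSum (LJ2_c1 w) (∑' m : ℤ, (cw 0 m : ℂ) * X w 4 2 m) := by
  have h := (LJ2_row hw (fun m => cw 0 m) fun m => cw_abs _ _).hasSum
  rw [← LJ2_inj1.hasSum_iff (f := LJ2_c1 w)]
  · convert h using 1
    funext m
    simp [LJ2_c1]
  · intro u hu
    unfold LJ2_c1
    rw [if_neg, mul_zero]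
    intro h0
    exact hu ⟨u.2, by rw [← h0]⟩

private theorem LJ2_has2 (hw : Good w) :
    HasSum (LJ2_c2 w) (∑' m : ℤ, (cw m (-m) : ℂ) * X w 4 2 m) := by
  have h := (LJ2_row hw (fun m => cw m (-m)) fun m => cw_abs _ _).hasSum
  rw [← LJ2_inj2.hasSum_iff (f := LJ2_c2 w)]
  · convert h using 1
    funext m
    have h1 := cw_neg m (-m)
    rw [neg_neg] at h1
    simp [LJ2_c2, h1]
  · intro u hu
    unfold LJ2_c2
    rw [if_neg, mul_zero]
    intro h0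
    refine hu ⟨u.2, ?_⟩
    have h1 : -u.2 = u.1 := by omega
    show (-u.2, u.2) = u
    rw [h1]

private theorem LJ2_block (hw : Good w) (u : ℤ × ℤ) :
    ∑' z : ℤ × ℤ, (cw u.1 u.2 : ℂ) *
      (nz (u.1, z.1) * nz (u.1 + u.2, z.1 + z.2) * KJ w ((u.1, z.1), (u.2, z.2))) =
      LJ2_mn w u + LJ2_c1 w u - LJ2_c2 w u := by
  rw [tsum_mul_left, KJ_block hw]
  unfold LJ2_mn LJ2_c1 LJ2_c2
  ring

private theorem LJ2_mn_summable (hw : Good w) : Summable (LJ2_mn w) := by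
  have h := RVP.blocks_summable (KJ_summable hw)
  have h1 : Summable fun u : ℤ × ℤ => LJ2_mn w u + LJ2_c1 w u - LJ2_c2 w u :=
    h.congr fun u => LJ2_block hw u
  refine ((h1.sub (LJ2_has1 hw).summable).add (LJ2_has2 hw).summable).congr fun u => ?_
  ring

private theorem LJ2_mn_tsum (hw : Good w) {g : ℂ} (hg : Tendsto (Gs w) atTop (𝓝 g)) :
    ∑' u, LJ2_mn w u = W w 3 1 * g := by
  have h := LJ2_mn_summable hw
  have h1 : Summable fun u : ℤ × ℤ => LJ2_mn w (u.2, u.1) :=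
    (Equiv.prodComm ℤ ℤ).summable_iff.mpr h
  have h2 : ∑' u, LJ2_mn w u = ∑' u : ℤ × ℤ, LJ2_mn w (u.2, u.1) :=
    ((Equiv.prodComm ℤ ℤ).tsum_eq (LJ2_mn w)).symm
  rw [h2, h1.tsum_prod]
  have h3 : ∀ j : ℤ, ∑' i : ℤ, LJ2_mn w (i, j) = g * ((ps j : ℂ) * X w 3 1 j) := by
    intro j
    have h4 : ∀ i : ℤ, LJ2_mn w (i, j) =
        X w 3 1 j * ((cw i j : ℂ) * (X w 1 1 i - X w 1 1 (i + j))) := by
      intro i
      unfold LJ2_mn
      ring
    have h5 : Summable fun i : ℤ => LJ2_mn w (i, j) := h1.prod_factor j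
    simp only [h4] at h5 ⊢
    by_cases hX : X w 3 1 j = 0
    · simp [hX]
    · rw [tsum_mul_left, LJ2_J_row hw hg j ((summable_mul_left_iff hX).mp h5)]
      ring
  show ∑' j : ℤ, ∑' i : ℤ, LJ2_mn w (i, j) = _
  simp only [h3]
  rw [tsum_mul_left]
  unfold W
  ring

theorem KJ_sum (hw : Good w) {g : ℂ} (hg : Tendsto (Gs w) atTop (𝓝 g)) :
    ∑' x : V4, (cw x.1.1 x.2.1 : ℂ) * (nz x.1 * nz (x.1 + x.2) * KJ w x) =
      W w 3 1 * g + ∑' v : ℤ × ℤ, ((cw 0 v.1 - cw v.1 (-v.1) : ℝ) : ℂ) * K1 w v := by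
  have h1 := RVP.tsum_blocks (KJ_summable hw)
  have h2 : ∑' u : ℤ × ℤ, ∑' z : ℤ × ℤ, (cw u.1 u.2 : ℂ) *
      (nz (u.1, z.1) * nz (u.1 + u.2, z.1 + z.2) * KJ w ((u.1, z.1), (u.2, z.2))) =
      ∑' u : ℤ × ℤ, (LJ2_mn w u + LJ2_c1 w u - LJ2_c2 w u) := by
    refine tsum_congr fun u => ?_
    exact LJ2_block hw u
  have h3 : ∑' v : ℤ × ℤ, ((cw 0 v.1 - cw v.1 (-v.1) : ℝ) : ℂ) * K1 w v =
      ∑' m : ℤ, (((cw 0 m - cw m (-m) : ℝ) : ℂ)) * X w 4 2 m := by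
    refine tsum_rows (a := 4) (b := 2) hw (by norm_num)
      (fun m => ((cw 0 m - cw m (-m) : ℝ) : ℂ)) (C := 40) fun m => ?_
    rw [Complex.norm_real, Real.norm_eq_abs]
    refine (abs_sub _ _).trans ?_
    linarith [cw_abs 0 m, cw_abs m (-m)]
  have h4 : ∑' m : ℤ, (((cw 0 m - cw m (-m) : ℝ) : ℂ)) * X w 4 2 m =
      ∑' m : ℤ, (cw 0 m : ℂ) * X w 4 2 m - ∑' m : ℤ, (cw m (-m) : ℂ) * X w 4 2 m := by
    rw [← (LJ2_row hw (fun m => cw 0 m) fun m => cw_abs _ _).tsum_sub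
      (LJ2_row hw (fun m => cw m (-m)) fun m => cw_abs _ _)]
    refine tsum_congr fun m => ?_
    push_cast
    ring
  have h5 := (LJ2_mn_summable hw).hasSum.add (LJ2_has1 hw)
  have h6 := (h5.sub (LJ2_has2 hw)).tsum_eq
  rw [h3, h4]
  refine (h1.trans (h2.trans h6)).trans ?_
  rw [LJ2_mn_tsum hw hg]
  ring

end D8
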