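import Mathlib
import Pool.Agent.D8.Defs
import Pool.Agent.D8.Bas
import Pool.Agent.RVS.LinkP

/-!
# D8/LinkP: the canonical kernel, pointwise, PORT of RVS/LinkP
-/

set_option autoImplicit false

open scoped ComplexConjugate

namespace D8

variable {w : ℂ × ℂ}

private theorem LinkP_field {p q p' q' : ℂ} (hp : p ≠ 0) (hq : q ≠ 0) (hr : p + q ≠ 0)
    (hp' : p' ≠ 0) (hq' : q' ≠ 0) (hr' : p' + q' ≠ 0) :
    -(1 / 4) * ((p' * q - p * q') * ((p⁻¹ * p'⁻¹) * (q⁻¹ * q'⁻¹) * ((p + q)⁻¹ * (p' + q')⁻¹))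
        * (2 * q⁻¹ ^ 2 + q⁻¹ * (p + q)⁻¹ - p⁻¹ * q⁻¹ - p⁻¹ * (p + q)⁻¹)) =
      p⁻¹ ^ 2 * p'⁻¹ * ((p + q)⁻¹ ^ 2 * q'⁻¹)
        - 1 / 2 * (p⁻¹ ^ 2 * p'⁻¹ * ((p + q)⁻¹ ^ 2 * (p' + q')⁻¹)
          + q⁻¹ ^ 2 * q'⁻¹ * ((p + q)⁻¹ ^ 2 * (p' + q')⁻¹)
          + p⁻¹ ^ 2 * p'⁻¹ * (q⁻¹ ^ 2 * q'⁻¹))
        + 1 / 2 * (q⁻¹ ^ 3 * q'⁻¹ * (p⁻¹ * p'⁻¹ - (p + q)⁻¹ * (p' + q')⁻¹)) := by
  field_simp
  ring

theorem K13_eq (hw : Good w) (x : V4) :
    -(1 / 4) * K13 w x = KK w x - 1 / 2 * KE w x + 1 / 2 * (nz x.1 * nz (x.1 + x.2) * KJ w x) := by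
  obtain ⟨v, u⟩ := x
  simp only [K13, KE, KJ, KK, EE, RVS.k1, RVS.k2, RVS.SS]
  by_cases h1 : v = 0
  · subst h1
    have h0 : pt w 0 = 0 := (pt_eq_zero hw).2 rfl
    simp [iv_zero, ic_zero, nz, h0]
  · by_cases h2 : u = 0
    · subst h2
      have h0 : pt w 0 = 0 := (pt_eq_zero hw).2 rfl
      simp [iv_zero, ic_zero, nz, h0]
    · by_cases h3 : v + u = 0
      · have h0 : pt w v + pt w u = 0 := by
          rw [← pt_add]
          exact (pt_eq_zero hw).2 h3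
        rw [h3]
        simp [iv_zero, ic_zero, nz, h0]
      · have hp : pt w v ≠ 0 := fun h => h1 ((pt_eq_zero hw).1 h)
        have hq : pt w u ≠ 0 := fun h => h2 ((pt_eq_zero hw).1 h)
        have hr : pt w v + pt w u ≠ 0 := by
          rw [← pt_add]
          exact fun h => h3 ((pt_eq_zero hw).1 h)
        have hp' : conj (pt w v) ≠ 0 := by simpa using hp
        have hq' : conj (pt w u) ≠ 0 := by simpa using hq
        have hr' : conj (pt w v) + conj (pt w u) ≠ 0 := by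
          rw [← map_add]
          exact (map_ne_zero _).2 hr
        have e := LinkP_field hp hq hr hp' hq' hr'
        simp only [nz, if_neg h1, if_neg h2, if_neg h3, iv, ic, pt_add, map_add]
        linear_combination e

end D8
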