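import Mathlib
import Pool.Agent.D8.Defs
import Pool.Agent.D8.Lat
import Pool.Agent.D8.LinkM
import Pool.Agent.D8.Scal
import Pool.Agent.D8.Arc
import Pool.Agent.D8W.Main
import Pool.Agent.K3R.LFunEight

/-!
# D8/Fin: the final value
-/

set_option autoImplicit false

open scoped ComplexConjugate
open Filter Topology MeasureTheory

namespace D8

theorem t0_im : 0 < t0.im := by
  have : t0.im = Real.sqrt 2 / 6 := by
    simp [t0, D8W.pt, D8W.y0]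
  rw [this]
  positivity

theorem Gs_t0 : Tendsto (Gs (t0, 1)) atTop (𝓝 0) := by
  have h := G_tendsto t0_im
  have h0 : D8W.l t0 = 0 := D8W.l_cm
  rw [h0] at h
  simpa using h

/-- the lattice sum at the CM point from the certificate -/
theorem D2_t0 (hcert : ∑' x : V4, (cw x.1.1 x.2.1 : ℂ) * K13 (t0, 1) x =
      -(400 + 184 * ((Real.sqrt 2 : ℝ) * Complex.I)) * EtaE.Lam8) :
    D2 (t0, 1) = (100 + 46 * ((Real.sqrt 2 : ℝ) * Complex.I)) * EtaE.Lam8 := by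
  rw [D2_eq (good_one t0_im) Gs_t0, hcert]
  ring

private theorem Y0_eq : Real.sqrt 2 * Y0 = Real.sqrt 3 - 1 := by
  have h2 : Real.sqrt 2 * Real.sqrt 2 = 2 := Real.mul_self_sqrt (by norm_num)
  have h6 : Real.sqrt 6 = Real.sqrt 2 * Real.sqrt 3 := by
    rw [← Real.sqrt_mul (by norm_num)]
    norm_num
  unfold Y0
  rw [h6]
  linear_combination (1 / 2 * Real.sqrt 3 - 1 / 2) * h2

theorem D2_Y0 (h : D2 (t0, 1) = (100 + 46 * ((Real.sqrt 2 : ℝ) * Complex.I)) * EtaE.Lam8) :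
    Y0 ^ 3 * (D2 (wp Y0)).re = 16 * Real.sqrt 2 / 3 * EtaE.Lam8.re := by
  have hw : wp Y0 = ((1 + Y0 * Complex.I) * t0, (1 + Y0 * Complex.I) * 1) := by
    rw [wp_eq, tY_Y0]
  have hD := D2_smul (1 + Y0 * Complex.I) (t0, 1)
  simp only at hD
  rw [hw, hD, h]
  have hL : EtaE.Lam8 = ((EtaE.Lam8.re : ℝ) : ℂ) := by
    apply Complex.ext
    · simp
    · simp [EtaE.Lam8_im]
  rw [hL]
  generalize EtaE.Lam8.re = Λ
  have hY := Y0_eq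
  have h2 : Real.sqrt 2 ^ 2 = 2 := Real.sq_sqrt (by norm_num)
  have h3 : Real.sqrt 3 ^ 2 = 3 := Real.sq_sqrt (by norm_num)
  have h2p : 0 < Real.sqrt 2 := by positivity
  have h3l : Real.sqrt 3 < 2 := by
    rw [Real.sqrt_lt' (by norm_num)]
    norm_num
  have hYv : Y0 = (Real.sqrt 3 - 1) / Real.sqrt 2 := by
    field_simp
    linarith
  have hY2 : Y0 ^ 2 = 2 - Real.sqrt 3 := by
    rw [hYv, div_pow, h2]
    nlinarith
  -- `c⁻⁴ c̄⁻² = c̄² / |c|⁸`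
  have hc : (1 + (Y0 : ℂ) * Complex.I) ≠ 0 := by
    intro h0
    have := congrArg Complex.re h0
    simp at this
  have hcc : (conj (1 + (Y0 : ℂ) * Complex.I)) = 1 - Y0 * Complex.I := by
    simp [sub_eq_add_neg]
  have hc' : (1 - (Y0 : ℂ) * Complex.I) ≠ 0 := by
    intro h0
    have := congrArg Complex.re h0
    simp at this
  have hn : (1 + (Y0 : ℂ) * Complex.I) * (1 - Y0 * Complex.I) = ((1 + Y0 ^ 2 : ℝ) : ℂ) := by
    push_cast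
    linear_combination (-(Y0 : ℂ) ^ 2) * Complex.I_sq
  have hinv : (1 + (Y0 : ℂ) * Complex.I)⁻¹ ^ 4 * (conj (1 + (Y0 : ℂ) * Complex.I))⁻¹ ^ 2 =
      (1 - Y0 * Complex.I) ^ 2 * (((1 + Y0 ^ 2) ^ 4 : ℝ) : ℂ)⁻¹ := by
    rw [hcc]
    have e : (((1 + Y0 ^ 2) ^ 4 : ℝ) : ℂ) = ((1 + (Y0 : ℂ) * Complex.I) * (1 - Y0 * Complex.I)) ^ 4 := by
      rw [hn]
      push_cast
      ring
    rw [e]
    field_simp
  rw [hinv]
  have hre : ((1 - (Y0 : ℂ) * Complex.I) ^ 2 * (((1 + Y0 ^ 2) ^ 4 : ℝ) : ℂ)⁻¹ *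
      ((100 + 46 * ((Real.sqrt 2 : ℝ) * Complex.I)) * (Λ : ℂ))).re =
      ((1 + Y0 ^ 2) ^ 4)⁻¹ * (100 * (1 - Y0 ^ 2) + 92 * (Real.sqrt 2 * Y0)) * Λ := by
    have e : (1 - (Y0 : ℂ) * Complex.I) ^ 2 * (((1 + Y0 ^ 2) ^ 4 : ℝ) : ℂ)⁻¹ *
      ((100 + 46 * ((Real.sqrt 2 : ℝ) * Complex.I)) * (Λ : ℂ)) =
      ((((1 + Y0 ^ 2) ^ 4)⁻¹ * (100 * (1 - Y0 ^ 2) + 92 * (Real.sqrt 2 * Y0)) * Λ : ℝ) : ℂ) +
      ((((1 + Y0 ^ 2) ^ 4)⁻¹ * (46 * Real.sqrt 2 * (1 - Y0 ^ 2) - 200 * Y0) * Λ : ℝ) : ℂ) * Complex.I := by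
      push_cast
      linear_combination ((((1 : ℂ) + (Y0 : ℂ) ^ 2) ^ 4)⁻¹ * Λ *
        (100 * (Y0 : ℂ) ^ 2 - 92 * (Real.sqrt 2 : ℂ) * Y0 + 46 * (Real.sqrt 2 : ℂ) * Y0 ^ 2 * Complex.I)) *
          Complex.I_sq
    rw [e, Complex.add_re, Complex.ofReal_re, Complex.re_ofReal_mul, Complex.I_re, mul_zero,
      add_zero]
  rw [hre, hY, hY2]
  have h4 : (1 + (2 - Real.sqrt 3)) ^ 4 = 36 * (2 - Real.sqrt 3) ^ 2 := by
    have e4 : Real.sqrt 3 ^ 4 = 9 := by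
      calc Real.sqrt 3 ^ 4 = (Real.sqrt 3 ^ 2) ^ 2 := by ring
        _ = 9 := by rw [h3]; norm_num
    have e3 : Real.sqrt 3 ^ 3 = 3 * Real.sqrt 3 := by
      calc Real.sqrt 3 ^ 3 = Real.sqrt 3 ^ 2 * Real.sqrt 3 := by ring
        _ = _ := by rw [h3]
    ring_nf
    rw [e4, e3, h3]
    ring
  rw [h4]
  have hp : (2 - Real.sqrt 3) ≠ 0 := by
    have : 0 < 2 - Real.sqrt 3 := by linarith
    exact this.ne'
  have hY3 : Y0 ^ 3 = Y0 * (2 - Real.sqrt 3) := by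
    rw [← hY2]; ring
  rw [hY3, hYv]
  field_simp
  ring_nf
  simp only [h2, h3]
  ring_nf

theorem final (hcert : ∑' x : V4, (cw x.1.1 x.2.1 : ℂ) * K13 (t0, 1) x =
      -(400 + 184 * ((Real.sqrt 2 : ℝ) * Complex.I)) * EtaE.Lam8) :
    (D8W.mP : ℂ) = -8 * deriv EtaE.L8 (-1) := by
  have h1 := D8W.walk
  have h2 := lat_main
  have h3 := D2_Y0 (D2_t0 hcert)
  have h4 : (D8W.mP : ℂ) = ((96 * Real.sqrt 2 / Real.pi ^ 5 * EtaE.Lam8.re : ℝ) : ℂ) := by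
    have e : 27 / (4 * Real.pi ^ 5) * Y0 ^ 3 * (D2 (wp Y0)).re =
        36 * Real.sqrt 2 / Real.pi ^ 5 * EtaE.Lam8.re := by
      rw [mul_assoc, h3]
      field_simp
      ring
    rw [e] at h2
    rw [h1]
    have h5 : (∫ x in (-(1/3) : ℝ)..(1/3), D8W.l (D8W.pt x D8W.y0) * D8W.Psi (D8W.pt x D8W.y0)) =
        -((36 * Real.sqrt 2 / Real.pi ^ 5 * EtaE.Lam8.re : ℝ) : ℂ) := by
      rw [← h2]; ring
    rw [h5]
    push_cast
    ring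
  have hL : EtaE.Lam8 = ((EtaE.Lam8.re : ℝ) : ℂ) := by
    apply Complex.ext
    · simp
    · simp [EtaE.Lam8_im]
  rw [h4, EtaE.deriv_L8, EtaE.L8_four]
  conv_rhs => rw [hL]
  have h25 : Real.sqrt 2 ^ 5 = 4 * Real.sqrt 2 := by
    have h2 : Real.sqrt 2 ^ 2 = 2 := Real.sq_sqrt (by norm_num)
    calc Real.sqrt 2 ^ 5 = (Real.sqrt 2 ^ 2) ^ 2 * Real.sqrt 2 := by ring
      _ = _ := by rw [h2]; ring
  rw [div_pow, h25]
  push_cast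
  ring

end D8
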