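import Pool.Agent.D8.Fin
import Pool.Agent.K3R.EtaEight

/-!
# D8/HandIn: the statement of the hand-in from the certificate
-/

open Real MeasureTheory Set

namespace D8

theorem result_of (hcert : ∑' x : V4, (cw x.1.1 x.2.1 : ℂ) * K13 (t0, 1) x =
      -(400 + 184 * ((Real.sqrt 2 : ℝ) * Complex.I)) * EtaE.Lam8) :
    ∃ (a : ℕ → ℂ) (L : ℂ → ℂ),
      (∀ z : ℂ, 0 < z.im → HasSum (fun n : ℕ => a n * Complex.exp (2 * π * Complex.I * n * z))
        (ModularForm.eta z ^ 2 * ModularForm.eta (2 * z) * ModularForm.eta (4 * z) *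
          ModularForm.eta (8 * z) ^ 2)) ∧
      Differentiable ℂ L ∧
      (∀ s : ℂ, 2 < s.re → LSeriesHasSum a s (L s)) ∧
      ((∫ α in (0:ℝ)..1, ∫ β in (0:ℝ)..1, ∫ γ in (0:ℝ)..1, ∫ δ in (0:ℝ)..1,
          Real.log ‖(1 + Complex.exp (2 * π * α * Complex.I)) *
            (1 + Complex.exp (2 * π * β * Complex.I)) +
            (1 + Complex.exp (2 * π * γ * Complex.I)) ^ 2 *
            Complex.exp (2 * π * δ * Complex.I)‖ : ℝ) : ℂ)
        = -8 * deriv L (-1) :=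
  ⟨EtaE.a8, EtaE.L8, fun z hz => EtaE.eta8_series hz, EtaE.L8_diff,
    fun s hs => EtaE.L8_LSeries hs, final hcert⟩

end D8
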